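import Pool.Agent.Helper238.GS.A

/-!
# The density `exp (-x^4)`: moments, cosine transform, elementary bounds
-/

set_option autoImplicit false

open MeasureTheory Real Set Filter
open scoped Topology

namespace Agent238.L4

noncomputable section

/-- the density -/
def rho (x : ℝ) : ℝ := exp (-x ^ 4)

lemma rho_pos (x : ℝ) : 0 < rho x := exp_pos _

lemma rho_cont : Continuous rho := by unfold rho; fun_prop

lemma rho_even (x : ℝ) : rho (-x) = rho x := by unfold rho; congr 1; ring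

lemma rho_le_one (x : ℝ) : rho x ≤ 1 := by
  unfold rho
  rw [exp_le_one_iff]
  have : 0 ≤ x ^ 4 := by positivity
  linarith

lemma pow_rho_int (k : ℕ) : Integrable (fun x : ℝ => x ^ k * rho x) := by
  have h := (integrable_rpow_mul_exp_neg_mul_sq (b := 1) one_pos (s := (k : ℝ))
    (by have : (0 : ℝ) ≤ k := Nat.cast_nonneg k
        linarith)).norm.const_mul (exp (1 / 4))
  refine h.mono' ((continuous_pow k).mul rho_cont).aestronglyMeasurable
    (Eventually.of_forall fun x => ?_)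
  rw [rpow_natCast, norm_mul, norm_mul, Real.norm_of_nonneg (rho_pos x).le,
    Real.norm_of_nonneg (exp_pos _).le]
  have h1 : rho x ≤ exp (1 / 4) * exp (-1 * x ^ 2) := by
    unfold rho
    rw [← exp_add]
    apply exp_le_exp.2
    nlinarith [sq_nonneg (x ^ 2 - 1 / 2)]
  calc ‖x ^ k‖ * rho x ≤ ‖x ^ k‖ * (exp (1 / 4) * exp (-1 * x ^ 2)) := by gcongr
    _ = _ := by ring

lemma rho_int : Integrable rho := by simpa using pow_rho_int 0

/-- total mass -/
def ZZ : ℝ := ∫ x, rho x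

lemma pow_int_eq (k : ℕ) : ∫ x, x ^ (2 * k) * rho x = 1 / 2 * Gamma ((2 * k + 1) / 4) := by
  have h := integral_comp_abs (f := fun x => x ^ (2 * k) * exp (-x ^ 4))
  have h1 : ∀ x : ℝ, |x| ^ (2 * k) * exp (-|x| ^ 4) = x ^ (2 * k) * rho x := by
    intro x
    have e1 : |x| ^ (2 * k) = x ^ (2 * k) := by rw [pow_mul, pow_mul, sq_abs]
    have e2 : |x| ^ 4 = x ^ 4 := by
      rw [show (4 : ℕ) = 2 * 2 by norm_num, pow_mul, pow_mul, sq_abs]
    rw [e1, e2, rho]
  simp_rw [h1] at h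
  rw [h]
  have h2 := integral_rpow_mul_exp_neg_rpow (p := 4) (q := ((2 * k : ℕ) : ℝ)) (by norm_num)
    (by have : (0 : ℝ) ≤ ((2 * k : ℕ) : ℝ) := Nat.cast_nonneg _
        linarith)
  have h3 : ∫ x in Ioi (0 : ℝ), x ^ (2 * k) * exp (-x ^ 4) =
      ∫ x in Ioi (0 : ℝ), x ^ ((2 * k : ℕ) : ℝ) * exp (-x ^ (4 : ℝ)) := by
    refine setIntegral_congr_fun measurableSet_Ioi fun x _ => ?_
    simp only [rpow_natCast]
    norm_num
  rw [h3, h2]
  push_cast
  ring

lemma ZZ_eq : ZZ = 1 / 2 * Gamma (1 / 4) := by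
  have h := pow_int_eq 0
  simp only [mul_zero, pow_zero, one_mul, Nat.cast_zero, zero_add] at h
  exact h

lemma ZZ_pos : 0 < ZZ := by
  rw [ZZ_eq]
  have := Gamma_pos_of_pos (s := 1 / 4) (by norm_num)
  positivity

/-- normalised even moments -/
def mom (k : ℕ) : ℝ := ZZ⁻¹ * ∫ x, x ^ (2 * k) * rho x

lemma mom_eq (k : ℕ) : mom k = Gamma ((2 * k + 1) / 4) / Gamma (1 / 4) := by
  unfold mom
  rw [pow_int_eq, ZZ_eq]
  have := Gamma_pos_of_pos (s := 1 / 4) (by norm_num)
  field_simp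

lemma mom_zero : mom 0 = 1 := by
  unfold mom
  simp only [mul_zero, pow_zero, one_mul]
  exact inv_mul_cancel₀ ZZ_pos.ne'

lemma mom_add_two (k : ℕ) : mom (k + 2) = (2 * k + 1) / 4 * mom k := by
  rw [mom_eq, mom_eq]
  have h : Gamma ((2 * ((k + 2 : ℕ) : ℝ) + 1) / 4) = (2 * k + 1) / 4 * Gamma ((2 * k + 1) / 4) := by
    have : (2 * ((k + 2 : ℕ) : ℝ) + 1) / 4 = (2 * k + 1) / 4 + 1 := by push_cast; ring
    rw [this, Gamma_add_one (by positivity)]
  rw [h, mul_div_assoc]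

lemma mom_pos (k : ℕ) : 0 < mom k := by
  rw [mom_eq]
  have h1 := Gamma_pos_of_pos (s := 1 / 4) (by norm_num)
  have h2 := Gamma_pos_of_pos (s := (2 * k + 1) / 4) (by positivity)
  positivity

/-- the cosine transform, normalised -/
def gg (t : ℝ) : ℝ := ZZ⁻¹ * ∫ x, rho x * cos (t * x)

lemma gg_zero : gg 0 = 1 := by
  unfold gg
  simp only [zero_mul, cos_zero, mul_one]
  exact inv_mul_cancel₀ ZZ_pos.ne'

lemma gg_even (t : ℝ) : gg (-t) = gg t := by
  unfold gg; simp only [neg_mul, cos_neg]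

lemma gg_abs (t : ℝ) : gg |t| = gg t := by
  rcases abs_cases t with ⟨h, _⟩ | ⟨h, _⟩ <;> rw [h]
  exact gg_even t

lemma rho_cos_int (t : ℝ) : Integrable fun x => rho x * cos (t * x) := by
  refine rho_int.mul_bdd (c := 1) ?_ ?_
  · exact (by fun_prop : Continuous fun x => cos (t * x)).aestronglyMeasurable
  · exact Eventually.of_forall fun x => by simpa using abs_cos_le_one (t * x)

lemma gg_abs_le (t : ℝ) : |gg t| ≤ 1 := by
  unfold gg
  rw [abs_mul, abs_of_pos (inv_pos.2 ZZ_pos), inv_mul_le_iff₀ ZZ_pos, mul_one, ← Real.norm_eq_abs]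
  refine (norm_integral_le_integral_norm _).trans ?_
  refine integral_mono (rho_cos_int t).norm rho_int fun x => ?_
  simp only [norm_mul, Real.norm_of_nonneg (rho_pos x).le]
  exact mul_le_of_le_one_right (rho_pos x).le (abs_cos_le_one _)

lemma gg_cont : Continuous gg := by
  unfold gg
  refine continuous_const.mul ?_
  refine continuous_of_dominated (bound := rho) ?_ ?_ rho_int ?_
  · exact fun t => (rho_cont.mul (by fun_prop)).aestronglyMeasurable
  · refine fun t => Eventually.of_forall fun x => ?_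
    simp only [norm_mul, Real.norm_of_nonneg (rho_pos x).le]
    exact mul_le_of_le_one_right (rho_pos x).le (abs_cos_le_one _)
  · refine Eventually.of_forall fun x => by fun_prop

/-! ### alternating Taylor bounds -/

/-- Taylor polynomials of the cosine -/
def cP (n : ℕ) (y : ℝ) : ℝ := ∑ k ∈ Finset.range n, (-1) ^ k * y ^ (2 * k) / (2 * k).factorial
/-- Taylor polynomials of the sine -/
def sP (n : ℕ) (y : ℝ) : ℝ := ∑ k ∈ Finset.range n, (-1) ^ k * y ^ (2 * k + 1) / (2 * k + 1).factorial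

lemma sP_deriv (n : ℕ) (y : ℝ) : HasDerivAt (sP n) (cP n y) y := by
  unfold sP cP
  refine HasDerivAt.fun_sum fun k _ => ?_
  have h := ((hasDerivAt_pow (2 * k + 1) y).const_mul ((-1 : ℝ) ^ k)).div_const
    ((2 * k + 1).factorial : ℝ)
  refine h.congr_deriv ?_
  rw [Nat.factorial_succ]
  have : ((2 * k).factorial : ℝ) ≠ 0 := by positivity
  push_cast
  field_simp

lemma cP_deriv (n : ℕ) (y : ℝ) : HasDerivAt (cP (n + 1)) (-sP n y) y := by
  unfold sP cP
  simp_rw [Finset.sum_range_succ' (fun k => (-1 : ℝ) ^ k * _ ^ (2 * k) / (2 * k).factorial)]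
  have h : HasDerivAt (fun y : ℝ => ∑ k ∈ Finset.range n,
      (-1 : ℝ) ^ (k + 1) * y ^ (2 * (k + 1)) / (2 * (k + 1)).factorial)
      (-∑ k ∈ Finset.range n, (-1) ^ k * y ^ (2 * k + 1) / (2 * k + 1).factorial) y := by
    rw [← Finset.sum_neg_distrib]
    refine HasDerivAt.fun_sum fun k _ => ?_
    have h := ((hasDerivAt_pow (2 * (k + 1)) y).const_mul ((-1 : ℝ) ^ (k + 1))).div_const
      ((2 * (k + 1)).factorial : ℝ)
    refine h.congr_deriv ?_
    rw [show 2 * (k + 1) = (2 * k + 1) + 1 by ring, Nat.factorial_succ]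
    have : ((2 * k + 1).factorial : ℝ) ≠ 0 := by positivity
    push_cast
    field_simp
    ring
  have h2 := h.add_const ((-1 : ℝ) ^ 0 * (1 : ℝ) / (2 * 0).factorial)
  simpa using h2

lemma taylor_bounds (n : ℕ) : ∀ y : ℝ, 0 ≤ y →
    0 ≤ (-1) ^ (n + 1) * (cos y - cP (n + 1) y) ∧ 0 ≤ (-1) ^ (n + 1) * (sin y - sP (n + 1) y) := by
  have key : ∀ (f f' : ℝ → ℝ), (∀ y, HasDerivAt f (f' y) y) → f 0 = 0 → (∀ y, 0 ≤ y → 0 ≤ f' y) →
      ∀ y, 0 ≤ y → 0 ≤ f y := by
    intro f f' hf h0 hp y hy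
    have hm : MonotoneOn f (Ici 0) := by
      refine monotoneOn_of_deriv_nonneg (convex_Ici 0) ?_ ?_ ?_
      · exact fun x _ => (hf x).continuousAt.continuousWithinAt
      · exact fun x _ => (hf x).differentiableAt.differentiableWithinAt
      · intro x hx
        rw [interior_Ici] at hx
        rw [(hf x).deriv]; exact hp x (le_of_lt hx)
    have := hm (mem_Ici.2 le_rfl) (mem_Ici.2 hy) hy
    rwa [h0] at this
  have sz : ∀ n, sP n 0 = 0 := by intro n; unfold sP; simp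
  have cz : ∀ n, cP (n + 1) 0 = 1 := by
    intro n; unfold cP; rw [Finset.sum_range_succ']; simp
  have sstep : ∀ n, (∀ y : ℝ, 0 ≤ y → 0 ≤ (-1) ^ (n + 1) * (cos y - cP (n + 1) y)) →
      ∀ y : ℝ, 0 ≤ y → 0 ≤ (-1) ^ (n + 1) * (sin y - sP (n + 1) y) := by
    intro n hc
    refine key _ (fun y => (-1) ^ (n + 1) * (cos y - cP (n + 1) y)) (fun y => ?_) ?_ hc
    · exact ((hasDerivAt_sin y).sub (sP_deriv (n + 1) y)).const_mul _
    · simp [sz]
  induction n with
  | zero =>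
    have h0 : ∀ y : ℝ, 0 ≤ y → 0 ≤ (-1 : ℝ) ^ (0 + 1) * (cos y - cP (0 + 1) y) := by
      intro y _
      have : cP (0 + 1) y = 1 := by simp [cP]
      rw [this]
      have := cos_le_one y
      norm_num; linarith
    exact fun y hy => ⟨h0 y hy, sstep 0 h0 y hy⟩
  | succ n ih =>
    have h1 : ∀ y : ℝ, 0 ≤ y → 0 ≤ (-1 : ℝ) ^ (n + 1 + 1) * (cos y - cP (n + 1 + 1) y) := by
      refine key _ (fun y => (-1) ^ (n + 1) * (sin y - sP (n + 1) y)) (fun y => ?_) ?_
        (fun y hy => (ih y hy).2)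
      · have := ((hasDerivAt_cos y).sub (cP_deriv (n + 1) y)).const_mul ((-1 : ℝ) ^ (n + 1 + 1))
        refine this.congr_deriv ?_
        rw [pow_succ]; ring
      · simp [cz]
    exact fun y hy => ⟨h1 y hy, sstep (n + 1) h1 y hy⟩

lemma cP_even (n : ℕ) (y : ℝ) : cP n |y| = cP n y := by
  unfold cP
  refine Finset.sum_congr rfl fun k _ => ?_
  rw [pow_mul, pow_mul, sq_abs]

lemma cos_bounds (n : ℕ) (y : ℝ) : 0 ≤ (-1) ^ (n + 1) * (cos y - cP (n + 1) y) := by
  have := (taylor_bounds n |y| (abs_nonneg y)).1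
  rwa [cos_abs, cP_even] at this

/-- moment polynomial -/
def mP (n : ℕ) (w : ℝ) : ℝ := ∑ k ∈ Finset.range n, (-1) ^ k * mom k * w ^ k / (2 * k).factorial

lemma int_cP (n : ℕ) (t : ℝ) : Integrable (fun x => rho x * cP n (t * x)) ∧
    ZZ⁻¹ * ∫ x, rho x * cP n (t * x) = mP n (t ^ 2) := by
  have e : ∀ x, rho x * cP n (t * x) = ∑ k ∈ Finset.range n,
      ((-1) ^ k * t ^ (2 * k) / (2 * k).factorial) * (x ^ (2 * k) * rho x) := by
    intro x
    unfold cP
    rw [Finset.mul_sum]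
    refine Finset.sum_congr rfl fun k _ => ?_
    rw [mul_pow]; ring
  have hi : ∀ k ∈ Finset.range n, Integrable fun x : ℝ =>
      ((-1) ^ k * t ^ (2 * k) / (2 * k).factorial) * (x ^ (2 * k) * rho x) := fun k _ =>
    (pow_rho_int (2 * k)).const_mul _
  refine ⟨?_, ?_⟩
  · simp_rw [e]
    exact integrable_finsetSum _ hi
  · simp_rw [e]
    rw [integral_finsetSum _ hi, Finset.mul_sum]
    unfold mP
    refine Finset.sum_congr rfl fun k _ => ?_
    rw [integral_const_mul, mom, ← pow_mul]; ring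

lemma gg_taylor (n : ℕ) (t : ℝ) : 0 ≤ (-1) ^ (n + 1) * (gg t - mP (n + 1) (t ^ 2)) := by
  have h := int_cP (n + 1) t
  rw [← h.2]
  unfold gg
  rw [← mul_sub, ← integral_sub (rho_cos_int t) h.1, ← mul_assoc, mul_comm ((-1 : ℝ) ^ (n + 1)),
    mul_assoc, ← integral_const_mul]
  refine mul_nonneg (inv_pos.2 ZZ_pos).le (integral_nonneg fun x => ?_)
  have := mul_nonneg (rho_pos x).le (cos_bounds n (t * x))
  simp only [Pi.zero_apply]
  nlinarith [this]

end

end Agent238.L4
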