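import Pool.Agent.Helper238.L4.A

set_option autoImplicit false

open MeasureTheory Real Set Filter
open scoped Topology

namespace Agent238.L4

noncomputable section

lemma mom2 : mom 2 = 1 / 4 := by
  have := mom_add_two 0; norm_num [mom_zero] at this; linarith
lemma mom3 : mom 3 = 3 / 4 * mom 1 := by
  have := mom_add_two 1; norm_num at this; linarith
lemma mom4 : mom 4 = 5 / 16 := by
  have := mom_add_two 2; norm_num [mom2] at this; linarith
lemma mom5 : mom 5 = 21 / 16 * mom 1 := by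
  have := mom_add_two 3; norm_num [mom3] at this; linarith

lemma mom_up : mom 1 < 338 / 1000 := by
  have h := gg_taylor 24 12
  have hg := (abs_le.1 (gg_abs_le 12)).1
  have m6 := mom_add_two 4
  have m7 := mom_add_two 5
  have m8 := mom_add_two 6
  have m9 := mom_add_two 7
  have m10 := mom_add_two 8
  have m11 := mom_add_two 9
  have m12 := mom_add_two 10
  have m13 := mom_add_two 11
  have m14 := mom_add_two 12
  have m15 := mom_add_two 13
  have m16 := mom_add_two 14
  have m17 := mom_add_two 15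
  have m18 := mom_add_two 16
  have m19 := mom_add_two 17
  have m20 := mom_add_two 18
  have m21 := mom_add_two 19
  have m22 := mom_add_two 20
  have m23 := mom_add_two 21
  have m24 := mom_add_two 22
  norm_num at m6 m7 m8 m9 m10 m11 m12 m13 m14 m15 m16 m17 m18 m19 m20 m21 m22 m23 m24
  have e : mP 25 (12 ^ 2) = ∑ k ∈ Finset.range 25, (-1) ^ k * mom k * (12 ^ 2) ^ k / (2 * k).factorial :=
    rfl
  rw [e] at h
  simp only [Finset.sum_range_succ, Finset.sum_range_zero] at h
  rw [m24, m23, m22, m21, m20, m19, m18, m17, m16, m15, m14, m13, m12, m11, m10, m9, m8, m7, m6,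
    mom5, mom4, mom3, mom2, mom_zero] at h
  norm_num [Nat.factorial] at h
  linarith

lemma mom_lo : 3379 / 10000 < mom 1 := by
  have h := gg_taylor 23 12
  have hg := (abs_le.1 (gg_abs_le 12)).2
  have m6 := mom_add_two 4
  have m7 := mom_add_two 5
  have m8 := mom_add_two 6
  have m9 := mom_add_two 7
  have m10 := mom_add_two 8
  have m11 := mom_add_two 9
  have m12 := mom_add_two 10
  have m13 := mom_add_two 11
  have m14 := mom_add_two 12
  have m15 := mom_add_two 13
  have m16 := mom_add_two 14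
  have m17 := mom_add_two 15
  have m18 := mom_add_two 16
  have m19 := mom_add_two 17
  have m20 := mom_add_two 18
  have m21 := mom_add_two 19
  have m22 := mom_add_two 20
  have m23 := mom_add_two 21
  norm_num at m6 m7 m8 m9 m10 m11 m12 m13 m14 m15 m16 m17 m18 m19 m20 m21 m22 m23
  have e : mP 24 (12 ^ 2) = ∑ k ∈ Finset.range 24, (-1) ^ k * mom k * (12 ^ 2) ^ k / (2 * k).factorial :=
    rfl
  rw [e] at h
  simp only [Finset.sum_range_succ, Finset.sum_range_zero] at h
  rw [m23, m22, m21, m20, m19, m18, m17, m16, m15, m14, m13, m12, m11, m10, m9, m8, m7, m6,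
    mom5, mom4, mom3, mom2, mom_zero] at h
  norm_num [Nat.factorial] at h
  linarith

lemma ZZ_sq : ZZ ^ 2 * (4 * mom 1) = π * √2 := by
  have h1 := Gamma_pos_of_pos (s := 1 / 4) (by norm_num)
  have h := Real.Gamma_mul_Gamma_one_sub (1 / 4)
  rw [show π * (1 / 4) = π / 4 by ring, sin_pi_div_four] at h
  have h2 : mom 1 = Gamma (1 - 1 / 4) / Gamma (1 / 4) := by
    rw [mom_eq]; norm_num
  rw [h2, ZZ_eq]
  have e : (1 / 2 * Gamma (1 / 4)) ^ 2 * (4 * (Gamma (1 - 1 / 4) / Gamma (1 / 4))) =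
      Gamma (1 / 4) * Gamma (1 - 1 / 4) := by
    field_simp
    norm_num
  rw [e, h]
  have h3 : √2 * √2 = 2 := Real.mul_self_sqrt (by norm_num)
  have h4 : √2 ≠ 0 := by positivity
  field_simp
  nlinarith [h3]

lemma ZZ_lo : 1812 / 1000 < ZZ := by
  have h := ZZ_sq
  have h1 := mom_up
  have h2 := mom_pos 1
  have h3 : (14142 / 10000 : ℝ) < √2 := by
    rw [Real.lt_sqrt (by norm_num)]; norm_num
  have h4 := Real.pi_gt_d6
  have h5 : 314159 / 100000 * (14142 / 10000) < ZZ ^ 2 * (4 * (338 / 1000)) := by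
    calc (314159 / 100000 * (14142 / 10000) : ℝ) < π * √2 := by
          apply mul_lt_mul'' _ h3 (by norm_num) (by norm_num)
          linarith
      _ = ZZ ^ 2 * (4 * mom 1) := h.symm
      _ ≤ ZZ ^ 2 * (4 * (338 / 1000)) := by gcongr
  have h6 : (1812 / 1000 : ℝ) ^ 2 < ZZ ^ 2 := by nlinarith
  exact lt_of_pow_lt_pow_left₀ 2 ZZ_pos.le h6

/-! ### polynomial bounds -/

lemma gg_up2 (t : ℝ) : gg t ≤ 1 - mom 1 / 2 * t ^ 2 + 1 / 96 * t ^ 4 := by
  have h := gg_taylor 2 t
  simp only [mP, Finset.sum_range_succ, Finset.sum_range_zero, mom2, mom_zero] at h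
  norm_num [Nat.factorial] at h
  nlinarith [h]

lemma gg_up4 (t : ℝ) : gg t ≤ 1 - mom 1 / 2 * t ^ 2 + 1 / 96 * t ^ 4 - mom 1 / 960 * t ^ 6 +
    1 / 129024 * t ^ 8 := by
  have h := gg_taylor 4 t
  simp only [mP, Finset.sum_range_succ, Finset.sum_range_zero, mom4, mom3, mom2, mom_zero] at h
  norm_num [Nat.factorial] at h
  nlinarith [h]

lemma gg_lo1 (t : ℝ) : 1 - mom 1 / 2 * t ^ 2 ≤ gg t := by
  have h := gg_taylor 1 t
  simp only [mP, Finset.sum_range_succ, Finset.sum_range_zero, mom_zero] at h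
  norm_num [Nat.factorial] at h
  nlinarith [h]

lemma gg_lo3 (t : ℝ) : 1 - mom 1 / 2 * t ^ 2 + 1 / 96 * t ^ 4 - mom 1 / 960 * t ^ 6 ≤ gg t := by
  have h := gg_taylor 3 t
  simp only [mP, Finset.sum_range_succ, Finset.sum_range_zero, mom3, mom2, mom_zero] at h
  norm_num [Nat.factorial] at h
  nlinarith [h]

lemma gg_lo5 (t : ℝ) : 1 - mom 1 / 2 * t ^ 2 + 1 / 96 * t ^ 4 - mom 1 / 960 * t ^ 6 +
    1 / 129024 * t ^ 8 - mom 1 / 2764800 * t ^ 10 ≤ gg t := by
  have h := gg_taylor 5 t
  simp only [mP, Finset.sum_range_succ, Finset.sum_range_zero, mom5, mom4, mom3, mom2, mom_zero] at h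
  norm_num [Nat.factorial] at h
  nlinarith [h]

/-! ### decay -/

lemma rho_deriv (x : ℝ) : HasDerivAt rho (-4 * x ^ 3 * rho x) x := by
  have h := ((hasDerivAt_pow 4 x).neg).exp
  refine h.congr_deriv ?_
  unfold rho; norm_num; ring

lemma bdd_int {f : ℝ → ℝ} (hf : Integrable f) {h : ℝ → ℝ} (hc : Continuous h)
    (hb : ∀ x, |h x| ≤ 1) : Integrable fun x => f x * h x :=
  hf.mul_bdd (c := 1) hc.aestronglyMeasurable (Eventually.of_forall fun x => by simpa using hb x)

lemma parts1 (t : ℝ) : t * ∫ x, rho x * cos (t * x) = ∫ x, (4 * x ^ 3 * rho x) * sin (t * x) := by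
  have hc : Continuous fun x : ℝ => sin (t * x) := by fun_prop
  have hcc : Continuous fun x : ℝ => cos (t * x) := by fun_prop
  have h3 : Integrable fun x : ℝ => 4 * x ^ 3 * rho x :=
    ((pow_rho_int 3).const_mul 4).congr (Eventually.of_forall fun x => by simp only; ring)
  have h := integral_mul_deriv_eq_deriv_mul_of_integrable (u := rho) (v := fun x => sin (t * x))
    (u' := fun x => -4 * x ^ 3 * rho x) (v' := fun x => t * cos (t * x))
    (fun x _ => rho_deriv x) (fun x _ => by
      have := ((hasDerivAt_id x).const_mul t).sin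
      simpa [mul_comm] using this) ?_ ?_ ?_
  · rw [← integral_const_mul]
    calc ∫ x, t * (rho x * cos (t * x)) = ∫ x, rho x * (t * cos (t * x)) := by
          congr 1; funext x; ring
      _ = -∫ x, -4 * x ^ 3 * rho x * sin (t * x) := h
      _ = _ := by rw [← integral_neg]; congr 1; funext x; ring
  · exact ((rho_cos_int t).const_mul t).congr (Eventually.of_forall fun x => by
      simp only [Pi.mul_apply]; ring)
  · exact ((bdd_int h3 hc fun x => abs_sin_le_one _).neg).congr (Eventually.of_forall fun x => by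
      simp only [Pi.mul_apply, Pi.neg_apply]; ring)
  · exact bdd_int rho_int hc fun x => abs_sin_le_one _

lemma abs3 : ∫ x, |4 * x ^ 3 * rho x| = 2 := by
  have h := integral_comp_abs (f := fun x => 4 * x ^ 3 * exp (-x ^ 4))
  have e : ∀ x : ℝ, |4 * x ^ 3 * rho x| = 4 * |x| ^ 3 * exp (-|x| ^ 4) := by
    intro x
    have e2 : |x| ^ 4 = x ^ 4 := by
      rw [show (4 : ℕ) = 2 * 2 by norm_num, pow_mul, pow_mul, sq_abs]
    rw [abs_mul, abs_mul, abs_of_pos (rho_pos x), abs_pow, e2, rho]; norm_num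
  simp_rw [e]
  rw [h]
  have h2 := integral_rpow_mul_exp_neg_rpow (p := 4) (q := 3) (by norm_num) (by norm_num)
  have h3 : ∫ x in Ioi (0 : ℝ), 4 * x ^ 3 * exp (-x ^ 4) =
      4 * ∫ x in Ioi (0 : ℝ), x ^ (3 : ℝ) * exp (-x ^ (4 : ℝ)) := by
    rw [← integral_const_mul]
    refine setIntegral_congr_fun measurableSet_Ioi fun x _ => ?_
    rw [show (3 : ℝ) = ((3 : ℕ) : ℝ) by norm_num, show (4 : ℝ) = ((4 : ℕ) : ℝ) by norm_num,
      rpow_natCast, rpow_natCast]
    push_cast; ring
  rw [h3, h2]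
  norm_num

lemma decay1 (t : ℝ) : |t| * |gg t| ≤ 2 / ZZ := by
  rw [← abs_mul]
  have e : t * gg t = ZZ⁻¹ * ∫ x, (4 * x ^ 3 * rho x) * sin (t * x) := by
    rw [← parts1]; unfold gg; ring
  rw [e, abs_mul, abs_of_pos (inv_pos.2 ZZ_pos), div_eq_inv_mul]
  refine mul_le_mul_of_nonneg_left ?_ (inv_pos.2 ZZ_pos).le
  have h3 : Integrable fun x : ℝ => 4 * x ^ 3 * rho x :=
    ((pow_rho_int 3).const_mul 4).congr (Eventually.of_forall fun x => by simp only; ring)
  rw [← abs3, ← Real.norm_eq_abs]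
  refine (norm_integral_le_integral_norm _).trans ?_
  refine integral_mono (bdd_int h3 (by fun_prop) fun x => abs_sin_le_one _).norm h3.norm fun x => ?_
  simp only [norm_mul _ (sin _), Real.norm_eq_abs]
  exact mul_le_of_le_one_right (abs_nonneg _) (abs_sin_le_one _)

lemma parts2 (t : ℝ) : t * ∫ x, (4 * x ^ 3 * rho x) * sin (t * x) =
    ∫ x, ((12 * x ^ 2 - 16 * x ^ 6) * rho x) * cos (t * x) := by
  have hc : Continuous fun x : ℝ => sin (t * x) := by fun_prop
  have hcc : Continuous fun x : ℝ => cos (t * x) := by fun_prop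
  have h3 : Integrable fun x : ℝ => 4 * x ^ 3 * rho x :=
    ((pow_rho_int 3).const_mul 4).congr (Eventually.of_forall fun x => by simp only; ring)
  have h6 : Integrable fun x : ℝ => (12 * x ^ 2 - 16 * x ^ 6) * rho x :=
    (((pow_rho_int 2).const_mul 12).sub ((pow_rho_int 6).const_mul 16)).congr
      (Eventually.of_forall fun x => by simp only [Pi.sub_apply]; ring)
  have h := integral_mul_deriv_eq_deriv_mul_of_integrable (u := fun x => 4 * x ^ 3 * rho x)
    (v := fun x => -cos (t * x))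
    (u' := fun x => (12 * x ^ 2 - 16 * x ^ 6) * rho x) (v' := fun x => t * sin (t * x))
    (fun x _ => by
      have := ((hasDerivAt_pow 3 x).const_mul 4).mul (rho_deriv x)
      refine this.congr_deriv ?_
      norm_num; ring) (fun x _ => by
      have := ((hasDerivAt_id x).const_mul t).cos.fun_neg
      simpa [mul_comm] using this) ?_ ?_ ?_
  · rw [← integral_const_mul]
    calc ∫ x, t * (4 * x ^ 3 * rho x * sin (t * x)) = ∫ x, 4 * x ^ 3 * rho x * (t * sin (t * x)) := by
          congr 1; funext x; ring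
      _ = -∫ x, (12 * x ^ 2 - 16 * x ^ 6) * rho x * (-cos (t * x)) := h
      _ = _ := by rw [← integral_neg]; congr 1; funext x; ring
  · exact ((bdd_int h3 hc fun x => abs_sin_le_one _).const_mul t).congr (Eventually.of_forall fun x => by
      simp only [Pi.mul_apply]; ring)
  · exact ((bdd_int h6 hcc fun x => abs_cos_le_one _).neg).congr (Eventually.of_forall fun x => by
      simp only [Pi.mul_apply, Pi.neg_apply]; ring)
  · exact ((bdd_int h3 hcc fun x => abs_cos_le_one _).neg).congr (Eventually.of_forall fun x => by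
      simp only [Pi.mul_apply, Pi.neg_apply]; ring)

lemma decay2 (t : ℝ) : t ^ 2 * |gg t| ≤ 24 * mom 1 := by
  have e : t ^ 2 * gg t = ZZ⁻¹ * ∫ x, ((12 * x ^ 2 - 16 * x ^ 6) * rho x) * cos (t * x) := by
    rw [← parts2, ← parts1]; unfold gg; ring
  have e2 : t ^ 2 * |gg t| = |t ^ 2 * gg t| := by rw [abs_mul, abs_of_nonneg (sq_nonneg t)]
  have h6 : Integrable fun x : ℝ => (12 * x ^ 2 - 16 * x ^ 6) * rho x :=
    (((pow_rho_int 2).const_mul 12).sub ((pow_rho_int 6).const_mul 16)).congr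
      (Eventually.of_forall fun x => by simp only [Pi.sub_apply]; ring)
  have h7 : Integrable fun x : ℝ => 12 * (x ^ (2 * 1) * rho x) + 16 * (x ^ (2 * 3) * rho x) :=
    ((pow_rho_int (2 * 1)).const_mul 12).add ((pow_rho_int (2 * 3)).const_mul 16)
  have e3 : 24 * mom 1 = ZZ⁻¹ * ∫ x, (12 * (x ^ (2 * 1) * rho x) + 16 * (x ^ (2 * 3) * rho x)) := by
    rw [integral_add ((pow_rho_int (2 * 1)).const_mul 12) ((pow_rho_int (2 * 3)).const_mul 16),
      integral_const_mul, integral_const_mul]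
    have := mom3
    unfold mom at this ⊢
    rw [mul_add]
    linear_combination (-16) * this
  rw [e2, e, e3, abs_mul, abs_of_pos (inv_pos.2 ZZ_pos)]
  refine mul_le_mul_of_nonneg_left ?_ (inv_pos.2 ZZ_pos).le
  rw [← Real.norm_eq_abs]
  refine (norm_integral_le_integral_norm _).trans ?_
  refine integral_mono (bdd_int h6 (by fun_prop) fun x => abs_cos_le_one _).norm h7 fun x => ?_
  simp only [norm_mul _ (cos _), Real.norm_eq_abs]
  refine (mul_le_of_le_one_right (abs_nonneg _) (abs_cos_le_one _)).trans ?_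
  rw [abs_mul, abs_of_pos (rho_pos x)]
  have : |12 * x ^ 2 - 16 * x ^ 6| ≤ 12 * x ^ 2 + 16 * x ^ 6 := by
    have h1 : 0 ≤ x ^ 2 := by positivity
    have h2 : 0 ≤ x ^ 6 := by positivity
    rw [abs_le]; constructor <;> linarith
  calc |12 * x ^ 2 - 16 * x ^ 6| * rho x ≤ (12 * x ^ 2 + 16 * x ^ 6) * rho x := by
        exact mul_le_mul_of_nonneg_right this (rho_pos x).le
    _ = _ := by ring

/-- the rational envelope -/
lemma envelope (t : ℝ) : |gg t| ≤ (1 + t ^ 2 / 10)⁻¹ := by
  wlog ht : 0 ≤ t with H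
  · have := H (-t) (by linarith)
    rwa [gg_even, neg_sq] at this
  have hpos : 0 < 1 + t ^ 2 / 10 := by positivity
  have hm := mom_up
  have hl := mom_lo
  rw [← one_div, le_div_iff₀ hpos]
  rcases le_total t (13 / 10) with h | h
  · have hw : t ^ 2 ≤ 169 / 100 := by nlinarith
    have hw0 : 0 ≤ t ^ 2 := sq_nonneg t
    have h1 := gg_up2 t
    have h2 := gg_lo1 t
    have h3 : 0 ≤ gg t := by nlinarith
    rw [abs_of_nonneg h3]
    have h4 : gg t * (1 + t ^ 2 / 10) ≤ (1 - mom 1 / 2 * t ^ 2 + 1 / 96 * t ^ 4) * (1 + t ^ 2 / 10) :=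
      mul_le_mul_of_nonneg_right h1 hpos.le
    refine h4.trans ?_
    have e4 : t ^ 4 = t ^ 2 * t ^ 2 := by ring
    rw [e4]
    set w := t ^ 2
    have h5 : (1 - mom 1 / 2 * w + 1 / 96 * (w * w)) ≤ 1 - 3379 / 20000 * w + 1 / 96 * (w * w) := by
      nlinarith
    refine (mul_le_mul_of_nonneg_right h5 hpos.le).trans ?_
    nlinarith [mul_nonneg hw0 hw0, mul_nonneg (mul_nonneg hw0 hw0) (sub_nonneg.2 hw)]
  · rcases le_total t (77 / 10) with h' | h'
    · have h1 := decay1 t
      rw [abs_of_nonneg ht] at h1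
      have h2 : 2 / ZZ ≤ 1104 / 1000 := by
        rw [div_le_iff₀ ZZ_pos]
        have := ZZ_lo
        linarith
      have h3 : |gg t| * (1 + t ^ 2 / 10) * t ≤ 1104 / 1000 * (1 + t ^ 2 / 10) := by
        have := mul_le_mul_of_nonneg_right (h1.trans h2) hpos.le
        linarith
      have h4 : 1104 / 1000 * (1 + t ^ 2 / 10) ≤ t := by nlinarith
      have h5 : 0 < t := by linarith
      by_contra hc
      push Not at hc
      nlinarith
    · have h1 := decay2 t
      have h5 : 0 < t ^ 2 := by positivity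
      have h3 : |gg t| * (1 + t ^ 2 / 10) * t ^ 2 ≤ 24 * mom 1 * (1 + t ^ 2 / 10) := by
        have := mul_le_mul_of_nonneg_right h1 hpos.le
        linarith
      have h4 : 24 * mom 1 * (1 + t ^ 2 / 10) ≤ t ^ 2 := by nlinarith
      by_contra hc
      push Not at hc
      nlinarith

end

end Agent238.L4
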