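import Pool.Agent.Helper238.L4.B

set_option autoImplicit false

open MeasureTheory Real Set Filter
open scoped Topology FourierTransform RealInnerProductSpace

namespace Agent238.L4

noncomputable section

/-! ### admissible rescalings -/

/-- rescaled density, dominated by the Gaussian -/
def rl (l : ℝ) (x : ℝ) : ℝ := (√(2 * π))⁻¹ * exp (-(1 / (16 * l ^ 4))) * rho (l * x)

lemma rl_adm {l : ℝ} (hl : 0 < l) : GS.Adm (rl l) where
  meas := by
    have := rho_cont
    unfold rl; exact (by fun_prop : Continuous _).measurable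
  nonneg x := by have := rho_pos (l * x); unfold rl; positivity
  le x := by
    unfold rl GS.gam rho
    rw [mul_assoc, ← exp_add]
    refine mul_le_mul_of_nonneg_left (exp_le_exp.2 ?_) (by positivity)
    have h : 0 ≤ (l ^ 2 * x ^ 2 - 1 / (4 * l ^ 2)) ^ 2 := sq_nonneg _
    have e : (l ^ 2 * x ^ 2 - 1 / (4 * l ^ 2)) ^ 2 =
        (l * x) ^ 4 - x ^ 2 / 2 + 1 / (16 * l ^ 4) := by
      field_simp; ring
    rw [e] at h
    linarith
  cont x _ := by
    have := rho_cont
    unfold rl; exact (by fun_prop : Continuous _).continuousAt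

lemma rl_even (l x : ℝ) : rl l (-x) = rl l x := by
  unfold rl; rw [mul_neg, rho_even]

lemma ct_rl {l : ℝ} (hl : 0 < l) (t : ℝ) :
    GS.ct (rl l) t = (√(2 * π))⁻¹ * exp (-(1 / (16 * l ^ 4))) * (ZZ / l) * gg (t / l) := by
  unfold GS.ct rl gg
  have h := Measure.integral_comp_mul_left (fun x => rho x * cos (t / l * x)) l
  have e : ∀ x, (√(2 * π))⁻¹ * exp (-(1 / (16 * l ^ 4))) * rho (l * x) * cos (t * x) =
      (√(2 * π))⁻¹ * exp (-(1 / (16 * l ^ 4))) * (rho (l * x) * cos (t / l * (l * x))) := by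
    intro x
    have : t / l * (l * x) = t * x := by field_simp
    rw [this]; ring
  simp_rw [e]
  rw [integral_const_mul, h, abs_of_pos (inv_pos.2 hl), smul_eq_mul]
  have := ZZ_pos
  field_simp

/-! ### Plancherel -/

lemma env_int : Integrable fun t : ℝ => (1 + t ^ 2 / 10)⁻¹ := by
  have h := (integrable_inv_one_add_sq).comp_mul_left' (R := (√10)⁻¹) (by positivity)
  refine h.congr (Eventually.of_forall fun t => ?_)
  simp only
  rw [mul_pow, inv_pow, Real.sq_sqrt (by norm_num : (0 : ℝ) ≤ 10)]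
  congr 2; ring

lemma gg_int : Integrable gg := by
  refine env_int.mono' gg_cont.aestronglyMeasurable (Eventually.of_forall fun t => ?_)
  exact envelope t

lemma gg_pow_int {s : ℝ} (hs : 1 ≤ s) : Integrable fun t => |gg t| ^ s := by
  refine gg_int.norm.mono' ?_ (Eventually.of_forall fun t => ?_)
  · exact (gg_cont.abs.rpow_const fun t => Or.inr (by linarith)).aestronglyMeasurable
  · rw [Real.norm_of_nonneg (by positivity), Real.norm_eq_abs]
    calc |gg t| ^ s ≤ |gg t| ^ (1 : ℝ) :=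
          rpow_le_rpow_of_exponent_ge' (abs_nonneg _) (gg_abs_le t) (by norm_num) hs
      _ = |gg t| := rpow_one _

lemma gg_sq_int : Integrable fun t => gg t ^ 2 := by
  refine (gg_pow_int (s := 2) (by norm_num)).congr (Eventually.of_forall fun t => ?_)
  simp only
  rw [show (2 : ℝ) = ((2 : ℕ) : ℝ) by norm_num, rpow_natCast, sq_abs]

lemma fourier_rho (w : ℝ) : 𝓕 (fun x : ℝ => ((rho x : ℝ) : ℂ)) w = ((ZZ * gg (2 * π * w) : ℝ) : ℂ) := by
  have hl := GS.fourier_one (rl_adm one_pos) (rl_even 1) (2 * π * w)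
  rw [ct_rl one_pos] at hl
  have hc : (√(2 * π))⁻¹ * exp (-(1 / (16 * (1 : ℝ) ^ 4))) ≠ 0 := by positivity
  have e : ∀ x : ℝ, Complex.exp (((-(2 * π * w) * x : ℝ) : ℂ) * Complex.I) * ((rl 1 x : ℝ) : ℂ) =
      (((√(2 * π))⁻¹ * exp (-(1 / (16 * (1 : ℝ) ^ 4))) : ℝ) : ℂ) *
      (Complex.exp (((-(2 * π * w) * x : ℝ) : ℂ) * Complex.I) * ((rho x : ℝ) : ℂ)) := by
    intro x
    unfold rl
    rw [one_mul]
    push_cast; ring
  simp_rw [e] at hl
  rw [integral_const_mul] at hl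
  have e2 : (((√(2 * π))⁻¹ * exp (-(1 / (16 * (1 : ℝ) ^ 4))) * (ZZ / 1) * gg (2 * π * w / 1) : ℝ) : ℂ) =
      (((√(2 * π))⁻¹ * exp (-(1 / (16 * (1 : ℝ) ^ 4))) : ℝ) : ℂ) * ((ZZ * gg (2 * π * w) : ℝ) : ℂ) := by
    push_cast; ring_nf
  rw [e2] at hl
  have h := mul_left_cancel₀ (by exact_mod_cast hc) hl
  rw [Real.fourier_real_eq_integral_exp_smul, ← h]
  refine integral_congr_ae (Eventually.of_forall fun x => ?_)
  simp only [smul_eq_mul]
  congr 3
  push_cast; ring

lemma plancherel : ZZ ^ 2 * ∫ t, gg t ^ 2 = 2 * π * ∫ x, rho x ^ 2 := by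
  set f : ℝ → ℂ := fun x => ((rho x : ℝ) : ℂ) with hf
  have hfi : Integrable f := rho_int.ofReal
  have hF : 𝓕 f = fun w => ((ZZ * gg (2 * π * w) : ℝ) : ℂ) := funext fourier_rho
  have h2pi : (2 * π) ≠ 0 := by positivity
  have hFi : Integrable (𝓕 f) := by
    rw [hF]
    exact ((gg_int.comp_mul_left' h2pi).const_mul ZZ).ofReal
  have hfc : Continuous f := Complex.continuous_ofReal.comp rho_cont
  have hinv : ∀ x, 𝓕 (𝓕 f) x = f x := by
    intro x
    have h1 := hfi.fourierInv_fourier_eq hFi (v := -x) hfc.continuousAt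
    rw [Real.fourierInv_eq_fourier_neg, neg_neg] at h1
    rw [h1, hf]; simp only [rho_even]
  have h := VectorFourier.integral_fourierIntegral_smul_eq_flip (f := f) (g := 𝓕 f)
    (L := innerₗ ℝ) (μ := volume) (ν := volume) (e := Real.fourierChar) Real.continuous_fourierChar
    continuous_inner hfi hFi
  rw [flip_innerₗ] at h
  have h1 : ∫ ξ, 𝓕 f ξ • 𝓕 f ξ = ∫ x, f x • 𝓕 (𝓕 f) x := h
  simp_rw [hinv] at h1
  have e1 : ∀ ξ, 𝓕 f ξ • 𝓕 f ξ = (((fun t => ZZ ^ 2 * gg t ^ 2) (2 * π * ξ) : ℝ) : ℂ) := by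
    intro ξ
    rw [hF]; simp only [smul_eq_mul]; push_cast; ring
  have e2 : ∀ x, f x • f x = ((rho x ^ 2 : ℝ) : ℂ) := by
    intro x; simp only [hf, smul_eq_mul]; push_cast; ring
  simp_rw [e1, e2] at h1
  rw [integral_complex_ofReal, integral_complex_ofReal] at h1
  have h2 := Complex.ofReal_injective h1
  rw [Measure.integral_comp_mul_left (fun t => ZZ ^ 2 * gg t ^ 2) (2 * π),
    abs_of_pos (by positivity), smul_eq_mul, integral_const_mul] at h2
  rw [← h2]
  field_simp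

lemma rho_sq_int : (√√2) * ∫ x, rho x ^ 2 = ZZ := by
  have hc : 0 < √√2 := by positivity
  have h := Measure.integral_comp_mul_left rho (√√2)
  have e : ∀ x, rho (√√2 * x) = rho x ^ 2 := by
    intro x
    have h4 : (√√2) ^ 4 = 2 := by
      rw [show (4 : ℕ) = 2 * 2 by norm_num, pow_mul, Real.sq_sqrt (by positivity),
        Real.sq_sqrt (by norm_num)]
    unfold rho
    rw [mul_pow, h4, ← exp_nat_mul]; congr 1; push_cast; ring
  simp_rw [e] at h
  rw [h, abs_of_pos (inv_pos.2 hc), smul_eq_mul, ← mul_assoc, mul_inv_cancel₀ hc.ne', one_mul]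
  rfl

/-- the Gaussian constant -/
def VV : ℝ := √(2 * π / mom 1)

lemma VV_pos : 0 < VV := by
  have := mom_pos 1
  unfold VV; positivity

lemma VV_sq : VV ^ 2 = 2 * π / mom 1 := by
  have := mom_pos 1
  exact Real.sq_sqrt (by positivity)

lemma psi2 : ∫ t, gg t ^ 2 = 2 * mom 1 * VV := by
  have h1 := plancherel
  have h2 := rho_sq_int
  have h3 := ZZ_sq
  have hz := ZZ_pos
  have hm := mom_pos 1
  have hv := VV_sq
  have hV := VV_pos
  have hc : 0 < √√2 := by positivity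
  have hc2 : (√√2) ^ 2 = √2 := Real.sq_sqrt (by positivity)
  have hI : 0 ≤ ∫ t, gg t ^ 2 := integral_nonneg fun t => sq_nonneg _
  set I := ∫ t, gg t ^ 2
  set J := ∫ x, rho x ^ 2
  have hJ : J = ZZ / √√2 := by rw [← h2]; field_simp
  have h4 : ZZ * I * √√2 = 2 * π := by
    rw [hJ] at h1
    have : ZZ ^ 2 * I * √√2 = 2 * π * ZZ := by rw [h1]; field_simp
    have h5 : ZZ * (ZZ * I * √√2) = ZZ * (2 * π) := by linarith
    exact mul_left_cancel₀ hz.ne' h5
  have h5 : I ^ 2 * (ZZ ^ 2 * √2) = (2 * π) ^ 2 := by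
    rw [← h4, mul_pow, mul_pow, hc2]; ring
  have h6 : I ^ 2 = (2 * mom 1 * VV) ^ 2 := by
    rw [mul_pow, hv]
    have h22 : √2 * √2 = 2 := Real.mul_self_sqrt (by norm_num)
    have h7 : ZZ ^ 2 * √2 * (4 * mom 1) = 2 * π := by
      calc ZZ ^ 2 * √2 * (4 * mom 1) = (ZZ ^ 2 * (4 * mom 1)) * √2 := by ring
        _ = π * (√2 * √2) := by rw [h3]; ring
        _ = 2 * π := by rw [h22]; ring
    have h8 : I ^ 2 * (2 * π) = (2 * π) ^ 2 * (4 * mom 1) := by
      rw [← h7]
      calc I ^ 2 * (ZZ ^ 2 * √2 * (4 * mom 1)) = I ^ 2 * (ZZ ^ 2 * √2) * (4 * mom 1) := by ring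
        _ = (2 * π) ^ 2 * (4 * mom 1) := by rw [h5]
        _ = _ := by rw [h7]
    have h9 : I ^ 2 = 2 * π * (4 * mom 1) := by
      have hp : (0 : ℝ) < 2 * π := by positivity
      have : (2 * π) * I ^ 2 = (2 * π) * (2 * π * (4 * mom 1)) := by linarith
      exact mul_left_cancel₀ hp.ne' this
    rw [h9]; field_simp; norm_num
  exact (sq_eq_sq₀ hI (by positivity)).1 h6

end

end Agent238.L4
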