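import Pool.Agent.Helper238.L4.C

set_option autoImplicit false

open MeasureTheory Real Set Filter
open scoped Topology

namespace Agent238.L4

noncomputable section

/-! ### alternating bounds for the exponential -/

def eP (n : ℕ) (z : ℝ) : ℝ := ∑ k ∈ Finset.range n, (-z) ^ k / k.factorial

lemma eP_deriv (n : ℕ) (z : ℝ) : HasDerivAt (eP (n + 1)) (-eP n z) z := by
  unfold eP
  simp_rw [Finset.sum_range_succ' (fun k => (-_ : ℝ) ^ k / k.factorial)]
  have h : HasDerivAt (fun z : ℝ => ∑ k ∈ Finset.range n, (-z) ^ (k + 1) / (k + 1).factorial)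
      (-∑ k ∈ Finset.range n, (-z) ^ k / k.factorial) z := by
    rw [← Finset.sum_neg_distrib]
    refine HasDerivAt.fun_sum fun k _ => ?_
    have h := (((hasDerivAt_id z).neg).pow (k + 1)).div_const ((k + 1).factorial : ℝ)
    have h' : HasDerivAt (fun z : ℝ => (-z) ^ (k + 1) / ((k + 1).factorial : ℝ))
      (((k + 1 : ℕ) : ℝ) * (-z) ^ (k + 1 - 1) * -1 / ((k + 1).factorial : ℝ)) z := by
      simpa using h
    refine h'.congr_deriv ?_
    rw [Nat.factorial_succ]
    have : (k.factorial : ℝ) ≠ 0 := by positivity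
    push_cast
    field_simp
  have h2 := h.add_const ((1 : ℝ) / (0 : ℕ).factorial)
  simpa using h2

lemma exp_alt (n : ℕ) : ∀ z : ℝ, 0 ≤ z → 0 ≤ (-1) ^ n * (exp (-z) - eP n z) := by
  induction n with
  | zero => intro z _; simp [eP, exp_nonneg]
  | succ n ih =>
    intro z hz
    have hm : MonotoneOn (fun z => (-1) ^ (n + 1) * (exp (-z) - eP (n + 1) z)) (Ici 0) := by
      have hd : ∀ z, HasDerivAt (fun z => (-1 : ℝ) ^ (n + 1) * (exp (-z) - eP (n + 1) z))
          ((-1) ^ n * (exp (-z) - eP n z)) z := by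
        intro z
        have h := (((hasDerivAt_id z).neg.exp).sub (eP_deriv n z)).const_mul ((-1 : ℝ) ^ (n + 1))
        refine h.congr_deriv ?_
        simp only [Pi.neg_apply, id_eq]
        rw [pow_succ]; ring
      refine monotoneOn_of_deriv_nonneg (convex_Ici 0) ?_ ?_ ?_
      · exact fun x _ => (hd x).continuousAt.continuousWithinAt
      · exact fun x _ => (hd x).differentiableAt.differentiableWithinAt
      · intro x hx
        rw [interior_Ici] at hx
        rw [(hd x).deriv]; exact ih x (le_of_lt hx)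
    have h := hm (mem_Ici.2 le_rfl) (mem_Ici.2 hz) hz
    have e0 : eP (n + 1) 0 = 1 := by unfold eP; rw [Finset.sum_range_succ']; simp
    simp only [neg_zero, exp_zero, e0, sub_self, mul_zero] at h
    exact h

lemma exp_lo6 (z : ℝ) (hz : 0 ≤ z) :
    1 - z + z ^ 2 / 2 - z ^ 3 / 6 + z ^ 4 / 24 - z ^ 5 / 120 ≤ exp (-z) := by
  have h := exp_alt 6 z hz
  simp only [eP, Finset.sum_range_succ, Finset.sum_range_zero] at h
  norm_num [Nat.factorial] at h
  nlinarith [h]

/-- the Gaussian comparison function -/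
def ga (t : ℝ) : ℝ := exp (-(mom 1 / 2 * t ^ 2))

lemma ga_pos (t : ℝ) : 0 < ga t := exp_pos _

/-- threshold value -/
def yy : ℝ := ga (13 / 5)

lemma yy_pos : 0 < yy := ga_pos _

lemma yy_lo : 316 / 1000 ≤ yy := by
  unfold yy ga
  have hm := mom_up
  have h1 : exp (-(1142440 / 1000000)) ≤ exp (-(mom 1 / 2 * (13 / 5) ^ 2)) := by
    apply exp_le_exp.2; nlinarith
  have h2 := exp_lo6 (1142440 / 1000000) (by norm_num)
  refine le_trans ?_ (h2.trans h1)
  norm_num

lemma yy_lt : yy < 1 := by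
  unfold yy ga
  rw [exp_lt_one_iff]
  have := mom_pos 1
  nlinarith

lemma dom_near (t : ℝ) (ht : |t| ≤ 13 / 5) : |gg t| ≤ ga t := by
  have hw : t ^ 2 ≤ 169 / 25 := by
    have := sq_le_sq' (by linarith [abs_nonneg t, (abs_le.1 ht).1]) ((abs_le.1 ht).2)
    linarith
  have hw0 : 0 ≤ t ^ 2 := sq_nonneg t
  have hm := mom_up
  have hl := mom_lo
  have h1 := gg_up4 t
  have h2 := gg_lo3 t
  have e4 : t ^ 4 = (t ^ 2) ^ 2 := by ring
  have e6 : t ^ 6 = (t ^ 2) ^ 3 := by ring
  have e8 : t ^ 8 = (t ^ 2) ^ 4 := by ring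
  rw [e4, e6] at h2
  rw [e4, e6, e8] at h1
  have h6 := exp_lo6 (mom 1 / 2 * t ^ 2) (by positivity)
  unfold ga
  set w := t ^ 2
  set m := mom 1
  have hpos : 0 ≤ gg t := by
    refine le_trans ?_ h2
    have a1 : 0 ≤ (338 / 1000 - m) * w := mul_nonneg (by linarith) hw0
    have a2 : 0 ≤ (338 / 1000 - m) * w ^ 3 := mul_nonneg (by linarith) (by positivity)
    have a3 : (0 : ℝ) ≤ 1 - 169 / 1000 * w + 1 / 96 * w ^ 2 - 338 / 960000 * w ^ 3 := by
      have b1 : 0 ≤ w * w * (169 / 25 - w) := mul_nonneg (mul_nonneg hw0 hw0) (by linarith)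
      nlinarith [b1]
    nlinarith
  rw [abs_of_nonneg hpos]
  refine h1.trans (le_trans ?_ h6)
  have key : 0 ≤ w ^ 2 * ((m ^ 2 / 8 - 1 / 96) - (m ^ 3 / 48 - m / 960) * w +
      (m ^ 4 / 384 - 1 / 129024) * w ^ 2 - m ^ 5 / 3840 * w ^ 3) := by
    refine mul_nonneg (by positivity) ?_
    have c1 : (3379 / 10000) ^ 2 ≤ m ^ 2 := by gcongr
    have c2 : m ^ 3 ≤ (338 / 1000) ^ 3 := by gcongr
    have c3 : (3379 / 10000) ^ 4 ≤ m ^ 4 := by gcongr
    have c4 : m ^ 5 ≤ (338 / 1000) ^ 5 := by gcongr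
    have d1 : (m ^ 3 / 48 - m / 960) ≤ 453 / 1000000 := by
      norm_num at c2; linarith
    have d2 : 2615 / 100000000 ≤ (m ^ 4 / 384 - 1 / 129024) := by
      norm_num at c3; linarith
    have d3 : m ^ 5 / 3840 ≤ 115 / 100000000 := by
      norm_num at c4; linarith
    have d0 : 38537 / 10000000 ≤ m ^ 2 / 8 - 1 / 96 := by
      norm_num at c1; linarith
    have f1 : (m ^ 3 / 48 - m / 960) * w ≤ 453 / 1000000 * w := mul_le_mul_of_nonneg_right d1 hw0
    have f2 : 2615 / 100000000 * w ^ 2 ≤ (m ^ 4 / 384 - 1 / 129024) * w ^ 2 :=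
      mul_le_mul_of_nonneg_right d2 (by positivity)
    have f3 : m ^ 5 / 3840 * w ^ 3 ≤ 115 / 100000000 * w ^ 3 :=
      mul_le_mul_of_nonneg_right d3 (by positivity)
    have g : (0 : ℝ) ≤ 38537 / 10000000 - 453 / 1000000 * w + 2615 / 100000000 * w ^ 2 -
        115 / 100000000 * w ^ 3 := by
      have b1 : 0 ≤ w * w * (169 / 25 - w) := mul_nonneg (mul_nonneg hw0 hw0) (by linarith)
      nlinarith [b1, sq_nonneg (w - 6)]
    linarith
  nlinarith [key]

lemma dom_far (t : ℝ) (ht : 13 / 5 ≤ |t|) : |gg t| ≤ yy := by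
  wlog h0 : 0 ≤ t with H
  · have := H (-t) (by rwa [abs_neg]) (by linarith)
    rwa [gg_even] at this
  rw [abs_of_nonneg h0] at ht
  have hy := yy_lo
  have hm := mom_up
  have hl := mom_lo
  rcases le_total t (35 / 10) with h | h
  · have hw : t ^ 2 ≤ 1225 / 100 := by nlinarith
    have hw1 : 169 / 25 ≤ t ^ 2 := by nlinarith
    have h1 := gg_up4 t
    have h2 := gg_lo5 t
    have e4 : t ^ 4 = (t ^ 2) ^ 2 := by ring
    have e6 : t ^ 6 = (t ^ 2) ^ 3 := by ring
    have e8 : t ^ 8 = (t ^ 2) ^ 4 := by ring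
    have e10 : t ^ 10 = (t ^ 2) ^ 5 := by ring
    rw [e4, e6, e8, e10] at h2
    rw [e4, e6, e8] at h1
    set w := t ^ 2
    set m := mom 1
    have hw0 : 0 ≤ w := by linarith
    have p1 : 0 ≤ (m - 3379 / 10000) * w := mul_nonneg (by linarith) hw0
    have p3 : 0 ≤ (m - 3379 / 10000) * w ^ 3 := mul_nonneg (by linarith) (by positivity)
    have q1 : 0 ≤ (338 / 1000 - m) * w := mul_nonneg (by linarith) hw0
    have q3 : 0 ≤ (338 / 1000 - m) * w ^ 3 := mul_nonneg (by linarith) (by positivity)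
    have q5 : 0 ≤ (338 / 1000 - m) * w ^ 5 := mul_nonneg (by linarith) (by positivity)
    obtain ⟨v, hv⟩ : ∃ v, w = 169 / 25 + v := ⟨w - 169 / 25, by ring⟩
    have hv0 : 0 ≤ v := by linarith
    have hv1 : v ≤ 549 / 100 := by linarith
    rw [abs_le]
    constructor
    · refine le_trans ?_ h2
      have : -(316 / 1000) ≤ 1 - 169 / 1000 * w + 1 / 96 * w ^ 2 - 338 / 960000 * w ^ 3 +
          1 / 129024 * w ^ 4 - 338 / 2764800000 * w ^ 5 := by
        have b : w ^ 5 ≤ w ^ 4 * (1225 / 100) := by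
          have : 0 ≤ w ^ 4 * (1225 / 100 - w) := mul_nonneg (by positivity) (by linarith)
          nlinarith
        have : -(316 / 1000) ≤ 1 - 169 / 1000 * w + 1 / 96 * w ^ 2 - 338 / 960000 * w ^ 3 +
          6 / 1000000 * w ^ 4 := by
          nlinarith [mul_nonneg hw0 hw0, sq_nonneg (w ^ 2 - 30 * w), sq_nonneg (w - 12), sq_nonneg (w ^ 2 - 20 * w)]
        nlinarith
      nlinarith
    · refine h1.trans (le_trans ?_ hy)
      have : 1 - 3379 / 20000 * w + 1 / 96 * w ^ 2 - 3379 / 9600000 * w ^ 3 +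
          1 / 129024 * w ^ 4 ≤ 316 / 1000 := by
        rw [hv]
        nlinarith [mul_nonneg hv0 (sub_nonneg.2 hv1), mul_nonneg (mul_nonneg hv0 hv0) (sub_nonneg.2 hv1),
          mul_nonneg (mul_nonneg (mul_nonneg hv0 hv0) hv0) (sub_nonneg.2 hv1)]
      nlinarith
  · have h1 := decay1 t
    rw [abs_of_nonneg h0] at h1
    have h2 : 2 / ZZ ≤ 1104 / 1000 := by
      rw [div_le_iff₀ ZZ_pos]
      have := ZZ_lo
      linarith
    have h3 : 35 / 10 * |gg t| ≤ 1104 / 1000 := by
      have := mul_le_mul_of_nonneg_right h (abs_nonneg (gg t))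
      linarith
    linarith

end

end Agent238.L4
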