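import Pool.Agent.Helper238.L4.D

set_option autoImplicit false

open MeasureTheory Real Set Filter
open scoped Topology

namespace Agent238.L4

noncomputable section

lemma tail_int {m T : ℝ} (hm : 0 < m) (hT : 0 < T) :
    ∫ t in Ioi T, exp (-m * t ^ 2) ≤ exp (-m * T ^ 2) / (2 * m * T) := by
  have hd : ∀ t : ℝ, HasDerivAt (fun t => -(exp (-m * t ^ 2) / (2 * m))) (t * exp (-m * t ^ 2)) t := by
    intro t
    have h := ((((hasDerivAt_pow 2 t).const_mul (-m)).exp).div_const (2 * m)).neg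
    refine h.congr_deriv ?_
    field_simp
    norm_num
    ring
  have hg : Integrable fun t : ℝ => t * exp (-m * t ^ 2) := integrable_mul_exp_neg_mul_sq hm
  have hlim : Tendsto (fun t : ℝ => -(exp (-m * t ^ 2) / (2 * m))) atTop (𝓝 (-(0 / (2 * m)))) := by
    refine Tendsto.neg (Tendsto.div_const ?_ _)
    refine tendsto_exp_atBot.comp ?_
    have : Tendsto (fun t : ℝ => t ^ 2) atTop atTop := tendsto_pow_atTop (by norm_num)
    exact this.const_mul_atTop_of_neg (by linarith)
  have h1 := integral_Ioi_of_hasDerivAt_of_tendsto' (a := T) (fun t _ => hd t) hg.integrableOn hlim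
  have h2 : ∫ t in Ioi T, exp (-m * t ^ 2) ≤ ∫ t in Ioi T, T⁻¹ * (t * exp (-m * t ^ 2)) := by
    refine setIntegral_mono_on (integrable_exp_neg_mul_sq hm).integrableOn
      (hg.const_mul _).integrableOn measurableSet_Ioi fun t ht => ?_
    have ht' : T < t := ht
    have : 1 ≤ T⁻¹ * t := by
      rw [inv_mul_eq_div, one_le_div hT]; exact ht'.le
    calc exp (-m * t ^ 2) = 1 * exp (-m * t ^ 2) := (one_mul _).symm
      _ ≤ (T⁻¹ * t) * exp (-m * t ^ 2) := mul_le_mul_of_nonneg_right this (exp_pos _).le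
      _ = _ := by ring
  rw [integral_const_mul, h1] at h2
  refine h2.trans (le_of_eq ?_)
  field_simp
  ring

lemma ga_pow (s t : ℝ) : ga t ^ s = exp (-(s * (mom 1 / 2)) * t ^ 2) := by
  unfold ga; rw [← exp_mul]; congr 1; ring

lemma ga_sq (t : ℝ) : ga t ^ 2 = exp (-(mom 1) * t ^ 2) := by
  have := ga_pow 2 t
  rw [show (2 : ℝ) = ((2 : ℕ) : ℝ) by norm_num, rpow_natCast] at this
  rw [this]; congr 1; push_cast; ring

lemma ga_pow_int {s : ℝ} (hs : 0 < s) : Integrable fun t => ga t ^ s := by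
  have := mom_pos 1
  simp_rw [ga_pow]
  exact integrable_exp_neg_mul_sq (by positivity)

lemma int_ga_pow {s : ℝ} (hs : 0 < s) : ∫ t, ga t ^ s = VV / √s := by
  have hm := mom_pos 1
  simp_rw [ga_pow]
  rw [integral_gaussian, VV, ← Real.sqrt_div (by positivity)]
  congr 1
  field_simp

/-- the gain -/
def DD : ℝ := (∫ t, (Icc (-(13 / 5) : ℝ) (13 / 5)).indicator (fun t => ga t ^ 2) t) - ∫ t, gg t ^ 2

lemma ga_sq_int : Integrable fun t => ga t ^ 2 := by
  have := mom_pos 1
  simp_rw [ga_sq]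
  exact integrable_exp_neg_mul_sq this

lemma ind_int : Integrable ((Icc (-(13 / 5) : ℝ) (13 / 5)).indicator (fun t => ga t ^ 2)) :=
  ga_sq_int.indicator measurableSet_Icc

lemma DD_pos : 0 < DD := by
  have hm := mom_pos 1
  have hl := mom_lo
  have hu := mom_up
  have hV := VV_pos
  unfold DD
  rw [psi2]
  set m := mom 1
  have h1 : ∫ t, ga t ^ 2 = VV / √2 := by
    have := int_ga_pow (s := 2) (by norm_num)
    rw [← this]
    congr 1; funext t
    rw [show (2 : ℝ) = ((2 : ℕ) : ℝ) by norm_num, rpow_natCast]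
  have h2 : ∫ t, ga t ^ 2 ≤ (∫ t, (Icc (-(13 / 5) : ℝ) (13 / 5)).indicator (fun t => ga t ^ 2) t) +
      2 * (exp (-m * (13 / 5) ^ 2) / (2 * m * (13 / 5))) := by
    have h3 := integral_comp_abs (f := (Ioi (13 / 5 : ℝ)).indicator (fun t => exp (-m * t ^ 2)))
    have h4 : ∫ t in Ioi (0 : ℝ), (Ioi (13 / 5 : ℝ)).indicator (fun t => exp (-m * t ^ 2)) t =
        ∫ t in Ioi (13 / 5 : ℝ), exp (-m * t ^ 2) := by
      rw [setIntegral_indicator measurableSet_Ioi]
      congr 2
      ext x; simp only [mem_inter_iff, mem_Ioi]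
      constructor
      · exact fun h => h.2
      · exact fun h => ⟨by linarith, h⟩
    rw [h4] at h3
    have h5 := tail_int hm (by norm_num : (0 : ℝ) < 13 / 5)
    have h6 : ∫ t, ga t ^ 2 = (∫ t, (Icc (-(13 / 5) : ℝ) (13 / 5)).indicator (fun t => ga t ^ 2) t) +
        ∫ t, (Ioi (13 / 5 : ℝ)).indicator (fun t => exp (-m * t ^ 2)) |t| := by
      rw [← integral_add ind_int]
      · congr 1; funext t
        by_cases h : |t| ≤ 13 / 5
        · rw [indicator_of_mem (mem_Icc.2 (abs_le.1 h)), indicator_of_notMem (by simpa using h),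
            add_zero]
        · rw [indicator_of_notMem (by rwa [mem_Icc, ← abs_le]),
            indicator_of_mem (by simpa using h), zero_add, ga_sq, sq_abs]
      · have hmeas : Measurable ((Ioi (13 / 5 : ℝ)).indicator (fun t => exp (-m * t ^ 2))) :=
          Measurable.indicator (by fun_prop) measurableSet_Ioi
        refine (integrable_exp_neg_mul_sq hm).mono'
          (hmeas.comp (by fun_prop : Measurable fun t : ℝ => |t|)).aestronglyMeasurable
          (Eventually.of_forall fun t => ?_)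
        by_cases h : 13 / 5 < |t|
        · rw [indicator_of_mem (by simpa using h), sq_abs, Real.norm_of_nonneg (exp_pos _).le]
        · rw [indicator_of_notMem (by simpa using h), norm_zero]
          exact (exp_pos _).le
    rw [h6, h3]
    linarith
  rw [h1] at h2
  have hV2 : 43 / 10 ≤ VV := by
    unfold VV
    apply Real.le_sqrt_of_sq_le
    rw [le_div_iff₀ hm]
    have := Real.pi_gt_d2
    nlinarith
  have h22 : √2 * √2 = 2 := Real.mul_self_sqrt (by norm_num)
  have h2l : 1414 / 1000 ≤ √2 := by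
    apply Real.le_sqrt_of_sq_le; norm_num
  have h7 : VV / √2 = VV * √2 / 2 := by
    rw [div_eq_div_iff (by positivity) (by norm_num)]
    nlinarith
  have h8 : exp (-m * (13 / 5) ^ 2) ≤ 105 / 1000 := by
    have e1 : exp (-m * (13 / 5) ^ 2) ≤ exp (-(228 / 100)) := by
      apply exp_le_exp.2; nlinarith
    have e2 : exp (-(228 / 100) : ℝ) = (exp (228 / 100))⁻¹ := exp_neg _
    have e3 : (96 / 10 : ℝ) ≤ exp (228 / 100) := by
      have e4 : exp (228 / 100 : ℝ) = exp 1 ^ 2 * exp (28 / 100) := by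
        rw [← exp_nat_mul, ← exp_add]; norm_num
      have e5 := Real.exp_one_gt_d9
      have e6 : (28 / 100 : ℝ) + 1 ≤ exp (28 / 100) := Real.add_one_le_exp _
      have e7 : (1 + 28 / 100 + (28 / 100) ^ 2 / 2 : ℝ) ≤ exp (28 / 100) :=
        Real.quadratic_le_exp_of_nonneg (by norm_num)
      rw [e4]
      have e8 : (7389 / 1000 : ℝ) ≤ exp 1 ^ 2 := by nlinarith
      nlinarith
    refine e1.trans ?_
    rw [e2]
    calc (exp (228 / 100 : ℝ))⁻¹ ≤ (96 / 10 : ℝ)⁻¹ := by gcongr
      _ ≤ _ := by norm_num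
  have h9 : 2 * (exp (-m * (13 / 5) ^ 2) / (2 * m * (13 / 5))) ≤ 12 / 100 := by
    rw [mul_div_assoc', div_le_iff₀ (by positivity)]
    nlinarith
  rw [h7] at h2
  nlinarith

lemma ball_le {s : ℝ} (hs : 2 ≤ s) : ∫ t, |gg t| ^ s ≤ VV / √s - yy ^ (s - 2) * DD := by
  have hy := yy_pos
  have hpt : ∀ t, |gg t| ^ s ≤ ga t ^ s - yy ^ (s - 2) *
      ((Icc (-(13 / 5) : ℝ) (13 / 5)).indicator (fun t => ga t ^ 2) t - gg t ^ 2) := by
    intro t
    have hg := ga_pos t
    have ha := abs_nonneg (gg t)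
    have e1 : ga t ^ s = ga t ^ (s - 2) * ga t ^ 2 := by
      rw [← rpow_natCast (ga t) 2, ← rpow_add hg]; congr 1; push_cast; ring
    have e2 : |gg t| ^ s = |gg t| ^ (s - 2) * gg t ^ 2 := by
      rw [← sq_abs (gg t)]
      rcases ha.eq_or_lt with h | h
      · rw [← h, zero_rpow (by linarith)]; ring
      · rw [← rpow_natCast |gg t| 2, ← rpow_add h]; congr 1; push_cast; ring
    rw [e1, e2]
    by_cases h : |t| ≤ 13 / 5
    · rw [indicator_of_mem (mem_Icc.2 (abs_le.1 h))]
      have hd := dom_near t h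
      have h1 : |gg t| ^ (s - 2) ≤ ga t ^ (s - 2) := rpow_le_rpow ha hd (by linarith)
      have h2 : gg t ^ 2 ≤ ga t ^ 2 := by rw [← sq_abs (gg t)]; gcongr
      have h3 : yy ≤ ga t := by
        unfold yy ga
        apply exp_le_exp.2
        have hm := mom_pos 1
        have : t ^ 2 ≤ (13 / 5) ^ 2 := sq_le_sq' (by linarith [(abs_le.1 h).1]) (abs_le.1 h).2
        nlinarith
      have h4 : yy ^ (s - 2) ≤ ga t ^ (s - 2) := rpow_le_rpow hy.le h3 (by linarith)
      have h5 : |gg t| ^ (s - 2) * gg t ^ 2 ≤ ga t ^ (s - 2) * gg t ^ 2 :=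
        mul_le_mul_of_nonneg_right h1 (sq_nonneg _)
      nlinarith [mul_nonneg (sub_nonneg.2 h4) (sub_nonneg.2 h2)]
    · rw [indicator_of_notMem (by rwa [mem_Icc, ← abs_le])]
      push Not at h
      have hd := dom_far t h.le
      have h1 : |gg t| ^ (s - 2) ≤ yy ^ (s - 2) := rpow_le_rpow ha hd (by linarith)
      have h2 : 0 ≤ ga t ^ (s - 2) * ga t ^ 2 := by positivity
      have h5 : |gg t| ^ (s - 2) * gg t ^ 2 ≤ yy ^ (s - 2) * gg t ^ 2 :=
        mul_le_mul_of_nonneg_right h1 (sq_nonneg _)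
      linarith
  have hI : Integrable fun t => yy ^ (s - 2) *
      ((Icc (-(13 / 5) : ℝ) (13 / 5)).indicator (fun t => ga t ^ 2) t - gg t ^ 2) :=
    (ind_int.sub gg_sq_int).const_mul _
  have h := integral_mono (gg_pow_int (by linarith : 1 ≤ s))
    ((ga_pow_int (by linarith : 0 < s)).sub hI) hpt
  simp only [Pi.sub_apply] at h
  rw [integral_sub (ga_pow_int (by linarith : 0 < s)) hI, integral_const_mul,
    integral_sub ind_int gg_sq_int, int_ga_pow (by linarith : 0 < s)] at h
  exact h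

end

end Agent238.L4
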