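import Pool.Agent.Helper238.L4.E

set_option autoImplicit false

open MeasureTheory Real Set Filter
open scoped Topology

namespace Agent238.L4

noncomputable section

lemma scale_int {x s : ℝ} (hx : 0 < x) : ∫ t, |gg (√x * t)| ^ s = (√x)⁻¹ * ∫ t, |gg t| ^ s := by
  have h := Measure.integral_comp_mul_left (fun t => |gg t| ^ s) (√x)
  rw [abs_of_pos (inv_pos.2 (Real.sqrt_pos.2 hx)), smul_eq_mul] at h
  exact h

lemma factor_strict {x s : ℝ} (hx : 0 < x) (hs : 2 ≤ s) :
    ∫ t, |gg (√x * t)| ^ s ≤ VV / √(s * x) - yy ^ (s - 2) * DD / √x := by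
  have hsx : √(s * x) = √s * √x := Real.sqrt_mul (by linarith) x
  have hx' : 0 < √x := Real.sqrt_pos.2 hx
  have hs' : 0 < √s := Real.sqrt_pos.2 (by linarith)
  rw [scale_int hx, hsx]
  have := mul_le_mul_of_nonneg_left (ball_le hs) (inv_pos.2 hx').le
  refine this.trans (le_of_eq ?_)
  field_simp

lemma factor_le {x s : ℝ} (hx : 0 < x) (hs : 2 ≤ s) :
    ∫ t, |gg (√x * t)| ^ s ≤ VV / √(s * x) := by
  have h := factor_strict hx hs
  have : 0 ≤ yy ^ (s - 2) * DD / √x := by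
    have := yy_pos; have := DD_pos; positivity
  linarith

lemma holder {ι : Type*} (J : Finset ι) (x : ι → ℝ) (hx : ∀ j ∈ J, 0 < x j) {S q : ℝ}
    (hS : ∑ j ∈ J, x j = S) (hS0 : 0 < S) (hq : 0 < q) (hq2 : ∀ j ∈ J, 2 * x j ≤ q * S) :
    ∫ t, ∏ j ∈ J, |gg (√(x j) * t)| ^ q ≤
      ∏ j ∈ J, (∫ t, |gg (√(x j) * t)| ^ (q * S / x j)) ^ (x j / S) := by
  have hs2 : ∀ j ∈ J, 2 ≤ q * S / x j := fun j hj => by
    rw [le_div_iff₀ (hx j hj)]; exact hq2 j hj
  have hint : ∀ j ∈ J, Integrable fun t => |gg (√(x j) * t)| ^ (q * S / x j) := fun j hj =>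
    (gg_pow_int (by linarith [hs2 j hj] : 1 ≤ q * S / x j)).comp_mul_left'
      (Real.sqrt_pos.2 (hx j hj)).ne'
  have h := ENNReal.lintegral_prod_norm_pow_le (μ := (volume : Measure ℝ)) J
    (f := fun j t => ENNReal.ofReal (|gg (√(x j) * t)| ^ (q * S / x j)))
    (fun j hj => (hint j hj).aestronglyMeasurable.aemeasurable.ennreal_ofReal)
    (p := fun j => x j / S) (by rw [← Finset.sum_div, hS, div_self hS0.ne'])
    (fun j hj => div_nonneg (hx j hj).le hS0.le)
  have e1 : ∀ t, ∏ j ∈ J, ENNReal.ofReal (|gg (√(x j) * t)| ^ (q * S / x j)) ^ (x j / S) =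
      ENNReal.ofReal (∏ j ∈ J, |gg (√(x j) * t)| ^ q) := by
    intro t
    rw [ENNReal.ofReal_prod_of_nonneg fun j _ => by positivity]
    refine Finset.prod_congr rfl fun j hj => ?_
    rw [ENNReal.ofReal_rpow_of_nonneg (by positivity) (div_nonneg (hx j hj).le hS0.le),
      ← rpow_mul (abs_nonneg _)]
    congr 2
    have := (hx j hj).ne'
    field_simp
  simp_rw [e1] at h
  have e2 : ∏ j ∈ J, (∫⁻ t, ENNReal.ofReal (|gg (√(x j) * t)| ^ (q * S / x j))) ^ (x j / S) =
      ENNReal.ofReal (∏ j ∈ J, (∫ t, |gg (√(x j) * t)| ^ (q * S / x j)) ^ (x j / S)) := by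
    rw [ENNReal.ofReal_prod_of_nonneg fun j _ => rpow_nonneg (integral_nonneg fun t => by positivity) _]
    refine Finset.prod_congr rfl fun j hj => ?_
    rw [← ofReal_integral_eq_lintegral_ofReal (hint j hj) (Eventually.of_forall fun t => by positivity),
      ENNReal.ofReal_rpow_of_nonneg (integral_nonneg fun t => by positivity)
        (div_nonneg (hx j hj).le hS0.le)]
  rw [e2] at h
  have hm : AEStronglyMeasurable (fun t => ∏ j ∈ J, |gg (√(x j) * t)| ^ q) volume := by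
    refine (continuous_finsetProd _ fun j _ => ?_).aestronglyMeasurable
    exact ((gg_cont.comp (by fun_prop : Continuous fun t : ℝ => √(x j) * t)).abs).rpow_const
      fun t => Or.inr hq.le
  rw [integral_eq_lintegral_of_nonneg_ae (Eventually.of_forall fun t =>
    Finset.prod_nonneg fun j _ => by positivity) hm]
  refine ENNReal.toReal_le_of_le_ofReal ?_ h
  exact Finset.prod_nonneg fun j _ => rpow_nonneg (integral_nonneg fun t => by positivity) _

lemma holder_le {ι : Type*} (J : Finset ι) (x : ι → ℝ) (hx : ∀ j ∈ J, 0 < x j) {S q : ℝ}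
    (hS : ∑ j ∈ J, x j = S) (hS0 : 0 < S) (hq : 0 < q) (hq2 : ∀ j ∈ J, 2 * x j ≤ q * S) :
    ∫ t, ∏ j ∈ J, |gg (√(x j) * t)| ^ q ≤ VV / √(q * S) := by
  refine (holder J x hx hS hS0 hq hq2).trans ?_
  have hV := VV_pos
  have hqS : 0 < √(q * S) := Real.sqrt_pos.2 (mul_pos hq hS0)
  have h1 : ∏ j ∈ J, (∫ t, |gg (√(x j) * t)| ^ (q * S / x j)) ^ (x j / S) ≤
      ∏ j ∈ J, (VV / √(q * S)) ^ (x j / S) := by
    refine Finset.prod_le_prod (fun j _ => rpow_nonneg (integral_nonneg fun t => by positivity) _)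
      fun j hj => ?_
    refine rpow_le_rpow (integral_nonneg fun t => by positivity) ?_
      (div_nonneg (hx j hj).le hS0.le)
    have h2 : 2 ≤ q * S / x j := by rw [le_div_iff₀ (hx j hj)]; exact hq2 j hj
    have h3 := factor_le (hx j hj) h2
    rwa [div_mul_cancel₀ _ (hx j hj).ne'] at h3
  refine h1.trans (le_of_eq ?_)
  rw [← Real.rpow_sum_of_pos (by positivity), ← Finset.sum_div, hS, div_self hS0.ne', rpow_one]

lemma yy_rpow_le {s N : ℝ} (hs : s ≤ N) : yy ^ (N - 2) ≤ yy ^ (s - 2) :=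
  rpow_le_rpow_of_exponent_ge yy_pos yy_lt.le (by linarith)

/-- region with all squares at most `1/2` and one of them at least `1/N` -/
lemma regionA {ι : Type*} [DecidableEq ι] (J : Finset ι) (x : ι → ℝ) (hx : ∀ j ∈ J, 0 < x j)
    (hS : ∑ j ∈ J, x j = 1) (hh : ∀ j ∈ J, x j ≤ 1 / 2) {i : ι} (hi : i ∈ J) {N : ℝ} (hN : 2 ≤ N)
    (hiN : 1 / N ≤ x i) :
    ∫ t, ∏ j ∈ J, |gg (√(x j) * t)| ≤ VV * (1 - yy ^ (N - 2) * DD / VV) ^ (1 / N) := by
  have hV := VV_pos
  have hD := DD_pos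
  have hy := yy_pos
  have h := holder J x hx hS one_pos one_pos (fun j hj => by linarith [hh j hj])
  simp only [rpow_one, one_mul, div_one] at h
  refine h.trans ?_
  rw [← Finset.mul_prod_erase J _ hi]
  have hN0 : 0 < N := by linarith
  have hxi := hx i hi
  have h1 : ∫ t, |gg (√(x i) * t)| ^ (1 / x i) ≤ VV - yy ^ (N - 2) * DD := by
    have h2 : 2 ≤ 1 / x i := by rw [le_div_iff₀ hxi]; linarith [hh i hi]
    have h3 := factor_strict hxi h2
    rw [div_mul_cancel₀ _ hxi.ne', Real.sqrt_one, div_one] at h3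
    have h4 : yy ^ (N - 2) ≤ yy ^ (1 / x i - 2) := by
      apply yy_rpow_le
      rw [div_le_iff₀ hxi]
      have := mul_le_mul_of_nonneg_left hiN hN0.le
      rwa [mul_one_div_cancel hN0.ne'] at this
    have h5 : yy ^ (N - 2) * DD ≤ yy ^ (1 / x i - 2) * DD / √(x i) := by
      rw [le_div_iff₀ (Real.sqrt_pos.2 hxi)]
      have h6 : √(x i) ≤ 1 := Real.sqrt_le_one.2 (by linarith [hh i hi])
      calc yy ^ (N - 2) * DD * √(x i) ≤ yy ^ (N - 2) * DD * 1 := by gcongr
        _ ≤ yy ^ (1 / x i - 2) * DD := by rw [mul_one]; gcongr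
    linarith
  have hnn : 0 ≤ ∫ t, |gg (√(x i) * t)| ^ (1 / x i) := integral_nonneg fun t => by positivity
  have hq0 : 0 ≤ VV - yy ^ (N - 2) * DD := hnn.trans h1
  have h2 : ∏ j ∈ J.erase i, (∫ t, |gg (√(x j) * t)| ^ (1 / x j)) ^ x j ≤ VV ^ (1 - x i) := by
    have h3 : ∏ j ∈ J.erase i, (∫ t, |gg (√(x j) * t)| ^ (1 / x j)) ^ x j ≤
        ∏ j ∈ J.erase i, VV ^ x j := by
      refine Finset.prod_le_prod (fun j _ => rpow_nonneg (integral_nonneg fun t => by positivity) _)
        fun j hj => ?_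
      have hj' := Finset.mem_of_mem_erase hj
      refine rpow_le_rpow (integral_nonneg fun t => by positivity) ?_ (hx j hj').le
      have h4 : 2 ≤ 1 / x j := by rw [le_div_iff₀ (hx j hj')]; linarith [hh j hj']
      have h5 := factor_le (hx j hj') h4
      rwa [div_mul_cancel₀ _ (hx j hj').ne', Real.sqrt_one, div_one] at h5
    refine h3.trans (le_of_eq ?_)
    rw [← Real.rpow_sum_of_pos hV]
    congr 1
    have := Finset.add_sum_erase J x hi
    linarith
  have hfrac : VV - yy ^ (N - 2) * DD = VV * (1 - yy ^ (N - 2) * DD / VV) := by field_simp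
  have hb0 : 0 ≤ 1 - yy ^ (N - 2) * DD / VV := by
    rw [hfrac] at hq0
    by_contra hc
    push Not at hc
    nlinarith
  have hb1 : 1 - yy ^ (N - 2) * DD / VV ≤ 1 := by
    have : 0 ≤ yy ^ (N - 2) * DD / VV := by positivity
    linarith
  calc (∫ t, |gg (√(x i) * t)| ^ (1 / x i)) ^ x i *
        ∏ j ∈ J.erase i, (∫ t, |gg (√(x j) * t)| ^ (1 / x j)) ^ x j
      ≤ (VV * (1 - yy ^ (N - 2) * DD / VV)) ^ x i * VV ^ (1 - x i) := by
        rw [← hfrac]
        refine mul_le_mul (rpow_le_rpow hnn h1 hxi.le) h2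
          (Finset.prod_nonneg fun j _ => rpow_nonneg (integral_nonneg fun t => by positivity) _)
          (rpow_nonneg hq0 _)
    _ = VV * (1 - yy ^ (N - 2) * DD / VV) ^ x i := by
        rw [mul_rpow hV.le hb0]
        have : VV ^ x i * VV ^ (1 - x i) = VV := by
          rw [← rpow_add hV]; norm_num
        calc VV ^ x i * (1 - yy ^ (N - 2) * DD / VV) ^ x i * VV ^ (1 - x i) =
            (VV ^ x i * VV ^ (1 - x i)) * (1 - yy ^ (N - 2) * DD / VV) ^ x i := by ring
          _ = _ := by rw [this]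
    _ ≤ _ := by
        refine mul_le_mul_of_nonneg_left ?_ hV.le
        exact rpow_le_rpow_of_exponent_ge' hb0 hb1 (by positivity) hiN

end

end Agent238.L4
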