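import Pool.Agent.Helper238.L4.F

set_option autoImplicit false

open MeasureTheory Real Set Filter
open scoped Topology

namespace Agent238.L4

noncomputable section

variable {n : ℕ}

/-- the (normalised) section functional -/
def Vf (a : EuclideanSpace ℝ (Fin n)) : ℝ := ∫ t, ∏ i, gg (a i * t)

lemma sum_sq {a : EuclideanSpace ℝ (Fin n)} (ha : ‖a‖ = 1) : ∑ i, a i ^ 2 = 1 := by
  have := EuclideanSpace.norm_sq_eq a
  rw [ha] at this
  simp only [Real.norm_eq_abs, sq_abs] at this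
  linarith

lemma one_add_sum_le {ι : Type*} (s : Finset ι) (y : ι → ℝ) (hy : ∀ i ∈ s, 0 ≤ y i) :
    1 + ∑ i ∈ s, y i ≤ ∏ i ∈ s, (1 + y i) := by
  classical
  induction s using Finset.induction_on with
  | empty => simp
  | insert a s ha ih =>
    rw [Finset.sum_insert ha, Finset.prod_insert ha]
    have h1 := ih fun i hi => hy i (Finset.mem_insert_of_mem hi)
    have h2 := hy a (Finset.mem_insert_self a s)
    have h3 : 0 ≤ ∑ i ∈ s, y i := Finset.sum_nonneg fun i hi => hy i (Finset.mem_insert_of_mem hi)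
    nlinarith

lemma prod_env (s : Finset (Fin n)) (a : Fin n → ℝ) (t : ℝ) :
    ∏ i ∈ s, |gg (a i * t)| ≤ (1 + (∑ i ∈ s, a i ^ 2) * t ^ 2 / 10)⁻¹ := by
  have h1 : ∏ i ∈ s, |gg (a i * t)| ≤ ∏ i ∈ s, (1 + (a i * t) ^ 2 / 10)⁻¹ :=
    Finset.prod_le_prod (fun i _ => abs_nonneg _) fun i _ => envelope _
  refine h1.trans ?_
  rw [Finset.prod_inv_distrib]
  have h2 := one_add_sum_le s (fun i => (a i * t) ^ 2 / 10) fun i _ => by positivity
  have h3 : 0 < 1 + (∑ i ∈ s, a i ^ 2) * t ^ 2 / 10 := by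
    have : 0 ≤ ∑ i ∈ s, a i ^ 2 := Finset.sum_nonneg fun i _ => sq_nonneg _
    positivity
  refine inv_anti₀ h3 (le_trans (le_of_eq ?_) h2)
  rw [← Finset.sum_div, Finset.sum_mul]
  congr 2
  exact Finset.sum_congr rfl fun i _ => by ring

lemma prod_env1 {a : EuclideanSpace ℝ (Fin n)} (ha : ‖a‖ = 1) (t : ℝ) :
    |∏ i, gg (a i * t)| ≤ (1 + t ^ 2 / 10)⁻¹ := by
  rw [Finset.abs_prod]
  have := prod_env Finset.univ (fun i => a i) t
  rwa [sum_sq ha, one_mul] at this

lemma prod_cont (a : Fin n → ℝ) : Continuous fun t => ∏ i, gg (a i * t) :=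
  continuous_finsetProd _ fun i _ => gg_cont.comp (by fun_prop)

lemma prod_int {a : EuclideanSpace ℝ (Fin n)} (ha : ‖a‖ = 1) :
    Integrable fun t => ∏ i, gg (a i * t) := by
  refine env_int.mono' (prod_cont fun i => a i).aestronglyMeasurable
    (Eventually.of_forall fun t => ?_)
  rw [Real.norm_eq_abs]; exact prod_env1 ha t

lemma gg_sqrt (a t : ℝ) : gg (√(a ^ 2) * t) = gg (a * t) := by
  rw [Real.sqrt_sq_eq_abs, ← gg_abs (|a| * t), ← gg_abs (a * t), abs_mul, abs_mul, abs_abs]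

lemma abs_prod_eq (s : Finset (Fin n)) (a : Fin n → ℝ) (t : ℝ) :
    ∏ i ∈ s, |gg (a i * t)| = ∏ i ∈ s with a i ≠ 0, |gg (√(a i ^ 2) * t)| := by
  rw [Finset.prod_filter]
  refine Finset.prod_congr rfl fun i _ => ?_
  split_ifs with h
  · rw [gg_sqrt]
  · push Not at h
    rw [h, zero_mul, gg_zero, abs_one]

lemma sum_filter_sq (s : Finset (Fin n)) (a : Fin n → ℝ) :
    ∑ i ∈ s with a i ≠ 0, a i ^ 2 = ∑ i ∈ s, a i ^ 2 := by
  refine Finset.sum_filter_of_ne fun i _ h => ?_
  intro h0; rw [h0] at h; norm_num at h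

lemma Vf_le_abs {a : EuclideanSpace ℝ (Fin n)} (ha : ‖a‖ = 1) :
    Vf a ≤ ∫ t, ∏ i, |gg (a i * t)| := by
  unfold Vf
  refine integral_mono (prod_int ha) ?_ fun t => ?_
  · have := (prod_int ha).abs
    simpa only [Finset.abs_prod] using this
  · simp only
    rw [← Finset.abs_prod]; exact le_abs_self _

lemma VregA {a : EuclideanSpace ℝ (Fin n)} (ha : ‖a‖ = 1) (hh : ∀ i, a i ^ 2 ≤ 1 / 2) {i : Fin n}
    {N : ℝ} (hN : 2 ≤ N) (hiN : 1 / N ≤ a i ^ 2) :
    Vf a ≤ VV * (1 - yy ^ (N - 2) * DD / VV) ^ (1 / N) := by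
  refine (Vf_le_abs ha).trans ?_
  simp_rw [abs_prod_eq Finset.univ (fun i => a i)]
  refine regionA _ (fun j => a j ^ 2) (fun j hj => ?_) ?_ (fun j _ => hh j) (i := i) ?_ hN hiN
  · have := (Finset.mem_filter.1 hj).2
    positivity
  · rw [sum_filter_sq Finset.univ (fun i => a i), sum_sq ha]
  · refine Finset.mem_filter.2 ⟨Finset.mem_univ _, fun h => ?_⟩
    rw [h] at hiN
    have : 0 < 1 / N := by positivity
    norm_num at hiN
    linarith

lemma Vle_half {a : EuclideanSpace ℝ (Fin n)} (ha : ‖a‖ = 1) (hh : ∀ i, a i ^ 2 ≤ 1 / 2) :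
    Vf a ≤ VV := by
  refine (Vf_le_abs ha).trans ?_
  simp_rw [abs_prod_eq Finset.univ (fun i => a i)]
  have h := holder_le (S := 1) (q := 1) (Finset.univ.filter fun i => a i ≠ 0) (fun j => a j ^ 2)
    (fun j hj => by have := (Finset.mem_filter.1 hj).2
                    positivity)
    (by rw [sum_filter_sq Finset.univ (fun i => a i), sum_sq ha]) one_pos one_pos
    (fun j _ => by linarith [hh j])
  simpa only [rpow_one, one_mul, Real.sqrt_one, div_one] using h

/-- region with one square between `1/2` and `0.6464` -/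
lemma VregB {a : EuclideanSpace ℝ (Fin n)} (ha : ‖a‖ = 1) {i : Fin n}
    (h1 : 1 / 2 ≤ a i ^ 2) (h2 : a i ^ 2 ≤ 6464 / 10000) :
    Vf a ≤ VV * √(6760 / 6761) := by
  have hV := VV_pos
  have hm := mom_pos 1
  have hmu := mom_up
  refine (Vf_le_abs ha).trans ?_
  set x0 := a i ^ 2 with hx0
  have hxp : 0 < x0 := by linarith
  set J := (Finset.univ.erase i).filter fun j => a j ≠ 0 with hJ
  have hsum : ∑ j ∈ J, a j ^ 2 = 1 - x0 := by
    rw [hJ, sum_filter_sq (Finset.univ.erase i) (fun i => a i)]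
    have := Finset.add_sum_erase Finset.univ (fun j => a j ^ 2) (Finset.mem_univ i)
    rw [sum_sq ha] at this
    simp only at this
    linarith
  have hS0 : 0 < 1 - x0 := by linarith
  have hH := holder_le (S := 1 - x0) (q := 2) J (fun j => a j ^ 2)
    (fun j hj => by have := (Finset.mem_filter.1 hj).2
                    positivity) hsum hS0 (by norm_num)
    (fun j hj => by
      have : a j ^ 2 ≤ 1 - x0 := by
        rw [← hsum]
        exact Finset.single_le_sum (f := fun j => a j ^ 2) (fun k _ => sq_nonneg _) hj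
      linarith)
  set h : ℝ → ℝ := fun t => ∏ j ∈ Finset.univ.erase i, |gg (a j * t)| with hh
  have hh2 : ∀ t, h t ^ 2 = ∏ j ∈ J, |gg (√(a j ^ 2) * t)| ^ (2 : ℝ) := by
    intro t
    rw [hh]; simp only
    rw [abs_prod_eq (Finset.univ.erase i) (fun i => a i), ← Finset.prod_pow]
    refine Finset.prod_congr rfl fun j _ => ?_
    rw [show (2 : ℝ) = ((2 : ℕ) : ℝ) by norm_num, rpow_natCast]
  have hG : ∫ t, gg (a i * t) ^ 2 = 2 * mom 1 * VV / √x0 := by
    have e : ∀ t, gg (a i * t) ^ 2 = |gg (√x0 * t)| ^ (2 : ℝ) := by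
      intro t
      rw [hx0, gg_sqrt, show (2 : ℝ) = ((2 : ℕ) : ℝ) by norm_num, rpow_natCast, sq_abs]
    simp_rw [e]
    rw [scale_int hxp]
    have e2 : ∀ t, |gg t| ^ (2 : ℝ) = gg t ^ 2 := by
      intro t
      rw [show (2 : ℝ) = ((2 : ℕ) : ℝ) by norm_num, rpow_natCast, sq_abs]
    simp_rw [e2]
    rw [psi2]; ring
  simp_rw [← hh2] at hH
  set F := 2 * mom 1 * VV / √x0 with hF
  set H := VV / √(2 * (1 - x0)) with hHd
  have hFp : 0 < F := by positivity
  have hHp : 0 < H := by positivity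
  have hhc : Continuous h := by
    rw [hh]
    exact continuous_finsetProd _ fun j _ => (gg_cont.comp (by fun_prop)).abs
  have hh1 : ∀ t, |h t| ≤ 1 := by
    intro t
    rw [hh]; simp only
    rw [abs_of_nonneg (Finset.prod_nonneg fun j _ => abs_nonneg _)]
    exact Finset.prod_le_one (fun j _ => abs_nonneg _) fun j _ => gg_abs_le _
  have hI1 : Integrable fun t => gg (a i * t) ^ 2 := by
    have hai : a i ≠ 0 := by
      intro h0; rw [hx0, h0] at h1; norm_num at h1
    exact gg_sq_int.comp_mul_left' hai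
  have hI2 : Integrable fun t => h t ^ 2 := by
    refine (env_int.comp_mul_left' (R := √(1 - x0)) (by positivity)).mono'
      (hhc.pow 2).aestronglyMeasurable (Eventually.of_forall fun t => ?_)
    have hp := prod_env (Finset.univ.erase i) (fun i => a i) t
    have hs' : ∑ j ∈ Finset.univ.erase i, a j ^ 2 = 1 - x0 := by
      rw [← hsum, hJ, sum_filter_sq (Finset.univ.erase i) (fun i => a i)]
    rw [hs'] at hp
    rw [Real.norm_of_nonneg (sq_nonneg _)]
    have h0 : 0 ≤ h t := Finset.prod_nonneg fun j _ => abs_nonneg _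
    have h1' := hh1 t
    rw [abs_of_nonneg h0] at h1'
    calc h t ^ 2 ≤ h t := by nlinarith
      _ ≤ _ := by
        refine hp.trans (le_of_eq ?_)
        rw [mul_pow, Real.sq_sqrt hS0.le]
  have hpt : ∀ t, ∏ i, |gg (a i * t)| ≤ (√H / √F * gg (a i * t) ^ 2 + √F / √H * h t ^ 2) / 2 := by
    intro t
    rw [← Finset.mul_prod_erase Finset.univ (fun i => |gg (a i * t)|) (Finset.mem_univ i)]
    change |gg (a i * t)| * h t ≤ _
    have hFs : 0 < √F := Real.sqrt_pos.2 hFp
    have hHs : 0 < √H := Real.sqrt_pos.2 hHp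
    have e : (√H / √F * gg (a i * t) ^ 2 + √F / √H * h t ^ 2) / 2 - |gg (a i * t)| * h t =
        (√H * |gg (a i * t)| - √F * h t) ^ 2 / (2 * √F * √H) := by
      rw [← sq_abs (gg (a i * t))]
      field_simp
      ring
    have : 0 ≤ (√H * |gg (a i * t)| - √F * h t) ^ 2 / (2 * √F * √H) := by positivity
    linarith
  have hint := integral_mono (f := fun t => ∏ i, |gg (a i * t)|)
    (by have := (prod_int ha).abs
        simpa only [Finset.abs_prod] using this)
    (((hI1.const_mul _).add (hI2.const_mul _)).div_const 2) hpt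
  refine hint.trans ?_
  simp only [Pi.add_apply]
  rw [integral_div, integral_add (hI1.const_mul _) (hI2.const_mul _), integral_const_mul,
    integral_const_mul, hG]
  have hFs : 0 < √F := Real.sqrt_pos.2 hFp
  have hHs : 0 < √H := Real.sqrt_pos.2 hHp
  have hle : (√H / √F * F + √F / √H * ∫ t, h t ^ 2) / 2 ≤ √(F * H) := by
    have h3 : √F / √H * ∫ t, h t ^ 2 ≤ √F / √H * H := by gcongr
    have h4 : √H / √F * F = √F * √H := by
      have := Real.mul_self_sqrt hFp.le
      rw [div_mul_eq_mul_div, div_eq_iff hFs.ne']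
      nlinarith
    have h5 : √F / √H * H = √F * √H := by
      have := Real.mul_self_sqrt hHp.le
      rw [div_mul_eq_mul_div, div_eq_iff hHs.ne']
      nlinarith
    rw [Real.sqrt_mul hFp.le]
    linarith
  refine hle.trans ?_
  have hq : 4571 / 10000 ≤ x0 * (2 * (1 - x0)) := by nlinarith
  have hq2 : 6761 / 10000 ≤ √x0 * √(2 * (1 - x0)) := by
    rw [← Real.sqrt_mul hxp.le]
    apply Real.le_sqrt_of_sq_le
    nlinarith
  have hFH : F * H ≤ VV ^ 2 * (6760 / 6761) := by
    rw [hF, hHd, div_mul_div_comm, div_le_iff₀ (by positivity)]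
    have : 2 * mom 1 ≤ 6760 / 6761 * (√x0 * √(2 * (1 - x0))) := by nlinarith
    nlinarith [mul_le_mul_of_nonneg_left this (sq_nonneg VV)]
  calc √(F * H) ≤ √(VV ^ 2 * (6760 / 6761)) := Real.sqrt_le_sqrt hFH
    _ = VV * √(6760 / 6761) := by
      rw [Real.sqrt_mul (sq_nonneg _), Real.sqrt_sq hV.le]

end

end Agent238.L4
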