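import Pool.Agent.Helper238.L4.G

set_option autoImplicit false

open MeasureTheory Real Set Filter
open scoped Topology

namespace Agent238.L4

noncomputable section

variable {n : ℕ}

/-- constant factor -/
def kap (l : ℝ) : ℝ := (√(2 * π))⁻¹ * exp (-(1 / (16 * l ^ 4)))

lemma kap_pos (l : ℝ) : 0 < kap l := by unfold kap; positivity

lemma prod_rl_ct {l : ℝ} (hl : 0 < l) (a : EuclideanSpace ℝ (Fin n)) (t : ℝ) :
    ∏ i, GS.ct (rl l) (a i * t) = (kap l * (ZZ / l)) ^ n * ∏ i, gg (a i * (l⁻¹ * t)) := by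
  simp_rw [ct_rl hl]
  rw [Finset.prod_mul_distrib, Finset.prod_const, Finset.card_univ, Fintype.card_fin]
  congr 1
  refine Finset.prod_congr rfl fun i _ => ?_
  congr 1
  field_simp

lemma inv_rl {l : ℝ} (hl : 0 < l) {a : EuclideanSpace ℝ (Fin n)} (ha : ‖a‖ = 1) :
    ∫ x : GS.Hyp a, GS.GG (fun _ => rl l) (x : EuclideanSpace ℝ (Fin n)) =
      (2 * π)⁻¹ * ((kap l * (ZZ / l)) ^ n * (l * Vf a)) := by
  have hint : Integrable fun t => ∏ i, GS.ct (rl l) (a i * t) := by
    simp_rw [prod_rl_ct hl]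
    exact ((prod_int ha).comp_mul_left' (inv_pos.2 hl).ne').const_mul _
  rw [GS.inversion (fun _ => rl_adm hl) (fun _ => rl_even l) a ha hint]
  simp_rw [prod_rl_ct hl]
  rw [integral_const_mul]
  have h := Measure.integral_comp_mul_left (fun t => ∏ i, gg (a i * t)) l⁻¹
  rw [h, inv_inv, abs_of_pos hl, smul_eq_mul]
  rfl

lemma Vf_zero {a : EuclideanSpace ℝ (Fin n)} (ha : ‖a‖ = 1) (i : Fin n) :
    10 * kap 10 * (ZZ / 10) * Vf a ≤ √(2 * π / a i ^ 2) ∨ a i = 0 := by
  by_cases hai : a i = 0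
  · exact Or.inr hai
  refine Or.inl ?_
  have hl : (0 : ℝ) < 10 := by norm_num
  set c := kap 10 * (ZZ / 10) with hc
  have hcp : 0 < c := by have := kap_pos 10; have := ZZ_pos; positivity
  set G : Fin n → ℝ → ℝ := fun j => if j = i then GS.gam else rl 10 with hG
  have had : ∀ j, GS.Adm (G j) := by
    intro j; rw [hG]; simp only; split_ifs
    · exact GS.gam_adm
    · exact rl_adm hl
  have hev : ∀ (j : Fin n) x, G j (-x) = G j x := by
    intro j x; rw [hG]; simp only; split_ifs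
    · exact GS.gam_even x
    · exact rl_even 10 x
  have hprod : ∀ t, ∏ j, GS.ct (G j) (a j * t) = exp (-(a i * t) ^ 2 / 2) *
      (c ^ (n - 1) * ∏ j ∈ Finset.univ.erase i, gg (a j * (10⁻¹ * t))) := by
    intro t
    rw [← Finset.mul_prod_erase Finset.univ (fun j => GS.ct (G j) (a j * t)) (Finset.mem_univ i)]
    congr 1
    · simp only [hG, if_true]; exact GS.ct_gam _
    · have : ∀ j ∈ Finset.univ.erase i, GS.ct (G j) (a j * t) = c * gg (a j * (10⁻¹ * t)) := by
        intro j hj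
        have hne := Finset.ne_of_mem_erase hj
        simp only [hG, if_neg hne]
        rw [ct_rl hl, hc, kap]
        congr 2; ring
      rw [Finset.prod_congr rfl this, Finset.prod_mul_distrib, Finset.prod_const,
        Finset.card_erase_of_mem (Finset.mem_univ i), Finset.card_univ, Fintype.card_fin]
  have hexp : Integrable fun t => exp (-(a i * t) ^ 2 / 2) := by
    have : 0 < a i ^ 2 / 2 := by positivity
    refine (integrable_exp_neg_mul_sq this).congr (Eventually.of_forall fun t => ?_)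
    simp only; congr 1; ring
  have hb : ∀ t, |c ^ (n - 1) * ∏ j ∈ Finset.univ.erase i, gg (a j * (10⁻¹ * t))| ≤ c ^ (n - 1) := by
    intro t
    rw [abs_mul, abs_of_pos (pow_pos hcp _), Finset.abs_prod]
    refine mul_le_of_le_one_right (pow_pos hcp _).le ?_
    exact Finset.prod_le_one (fun j _ => abs_nonneg _) fun j _ => gg_abs_le _
  have hcont : Continuous fun t => c ^ (n - 1) * ∏ j ∈ Finset.univ.erase i, gg (a j * (10⁻¹ * t)) :=
    continuous_const.mul (continuous_finsetProd _ fun j _ => gg_cont.comp (by fun_prop))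
  have hint : Integrable fun t => ∏ j, GS.ct (G j) (a j * t) := by
    simp_rw [hprod]
    exact hexp.mul_bdd (c := c ^ (n - 1)) hcont.aestronglyMeasurable
      (Eventually.of_forall fun t => by rw [Real.norm_eq_abs]; exact hb t)
  have h1 := GS.inversion had hev a ha hint
  have hle : ∫ x : GS.Hyp a, GS.GG (fun _ => rl 10) (x : EuclideanSpace ℝ (Fin n)) ≤
      ∫ x : GS.Hyp a, GS.GG G (x : EuclideanSpace ℝ (Fin n)) := by
    have hI : ∀ (g : Fin n → ℝ → ℝ), (∀ j, GS.Adm (g j)) →
        Integrable fun x : GS.Hyp a => GS.GG g (x : EuclideanSpace ℝ (Fin n)) := by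
      intro g hg
      refine Integrable.mono' ((GS.gauss_int (V := GS.Hyp a)).const_mul ((√(2 * π))⁻¹ ^ n)) ?_ ?_
      · exact ((GS.GG_meas hg).comp measurable_subtype_coe).aestronglyMeasurable
      · refine Eventually.of_forall fun z => ?_
        rw [Real.norm_eq_abs, abs_of_nonneg (GS.GG_nonneg hg _)]
        exact GS.GG_le hg _
    refine integral_mono (hI _ fun _ => rl_adm hl) (hI _ had) fun x => ?_
    unfold GS.GG
    refine Finset.prod_le_prod (fun j _ => (rl_adm hl).nonneg _) fun j _ => ?_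
    by_cases h : j = i
    · simp only [hG, h, if_true]; exact (rl_adm hl).le _
    · simp only [hG, h, if_false]; exact le_rfl
  rw [inv_rl hl ha, h1] at hle
  have h2pi : 0 < (2 * π)⁻¹ := by positivity
  have h3 := le_of_mul_le_mul_left hle h2pi
  have h4 : ∫ t, ∏ j, GS.ct (G j) (a j * t) ≤ c ^ (n - 1) * √(2 * π / a i ^ 2) := by
    have h5 : ∫ t, exp (-(a i * t) ^ 2 / 2) = √(2 * π / a i ^ 2) := by
      have := integral_gaussian (a i ^ 2 / 2)
      calc ∫ t, exp (-(a i * t) ^ 2 / 2) = ∫ t, exp (-(a i ^ 2 / 2) * t ^ 2) := by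
            congr 1; funext t; congr 1; ring
        _ = √(π / (a i ^ 2 / 2)) := this
        _ = _ := by congr 1; field_simp
    rw [← h5, ← integral_const_mul]
    refine integral_mono hint (hexp.const_mul _) fun t => ?_
    simp only
    rw [hprod, mul_comm (c ^ (n - 1)) (exp _)]
    exact mul_le_mul_of_nonneg_left ((le_abs_self _).trans (hb t)) (exp_pos _).le
  have h6 := h3.trans h4
  have hn : n = (n - 1) + 1 := by have := i.2; omega
  have h7 : c ^ n = c ^ (n - 1) * c := by
    conv_lhs => rw [hn]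
    rw [pow_succ]
  rw [h7] at h6
  have h8 : c ^ (n - 1) * (10 * c * Vf a) ≤ c ^ (n - 1) * √(2 * π / a i ^ 2) := by
    calc c ^ (n - 1) * (10 * c * Vf a) = c ^ (n - 1) * c * (10 * Vf a) := by ring
      _ ≤ _ := h6
  have h9 := le_of_mul_le_mul_left h8 (pow_pos hcp _)
  calc 10 * kap 10 * (ZZ / 10) * Vf a = 10 * c * Vf a := by rw [hc]; ring
    _ ≤ _ := h9

lemma VregC {a : EuclideanSpace ℝ (Fin n)} (ha : ‖a‖ = 1) {i : Fin n}
    (h1 : 6464 / 10000 ≤ a i ^ 2) : Vf a ≤ VV * √(9999 / 10000) := by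
  have hai : a i ≠ 0 := by intro h; rw [h] at h1; norm_num at h1
  rcases Vf_zero ha i with h | h
  swap
  · exact absurd h hai
  have hz := ZZ_pos
  have hV := VV_pos
  have hm := mom_pos 1
  have hmu := mom_up
  have hk := kap_pos 10
  rcases le_or_gt (Vf a) 0 with h0 | h0
  · refine h0.trans (by positivity)
  -- square everything
  have h2 : kap 10 * ZZ * Vf a ≤ √(2 * π / a i ^ 2) := by
    calc kap 10 * ZZ * Vf a = 10 * kap 10 * (ZZ / 10) * Vf a := by ring
      _ ≤ _ := h
  have h3 : (kap 10 * ZZ * Vf a) ^ 2 ≤ 2 * π / a i ^ 2 := by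
    have := pow_le_pow_left₀ (by positivity) h2 2
    rwa [Real.sq_sqrt (by positivity)] at this
  have h4 : kap 10 ^ 2 = (2 * π)⁻¹ * exp (-(1 / 80000)) := by
    unfold kap
    rw [mul_pow, inv_pow, Real.sq_sqrt (by positivity), ← exp_nat_mul]
    congr 2; norm_num
  have h5 : 99998 / 100000 ≤ exp (-(1 / 80000) : ℝ) := by
    have := Real.add_one_le_exp (-(1 / 80000) : ℝ)
    linarith
  have h6 : ZZ ^ 2 = π * √2 / (4 * mom 1) := by
    rw [← ZZ_sq]; field_simp
  have h7 : (2 * π)⁻¹ * (99998 / 100000) * (π * √2 / (4 * mom 1)) * Vf a ^ 2 ≤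
      2 * π / (6464 / 10000) := by
    calc (2 * π)⁻¹ * (99998 / 100000) * (π * √2 / (4 * mom 1)) * Vf a ^ 2
        ≤ (2 * π)⁻¹ * exp (-(1 / 80000)) * (π * √2 / (4 * mom 1)) * Vf a ^ 2 := by gcongr
      _ = (kap 10 * ZZ * Vf a) ^ 2 := by rw [mul_pow, mul_pow, h4, h6]
      _ ≤ 2 * π / a i ^ 2 := h3
      _ ≤ _ := by gcongr
  have h22 : √2 * √2 = 2 := Real.mul_self_sqrt (by norm_num)
  have h2u : √2 < 141422 / 100000 := by
    rw [Real.sqrt_lt' (by norm_num)]; norm_num
  have h2p : 0 < √2 := by positivity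
  have hpi := Real.pi_pos
  have h8 : Vf a ^ 2 ≤ VV ^ 2 * (9999 / 10000) := by
    rw [VV_sq]
    have e1 : (2 * π)⁻¹ * (99998 / 100000) * (π * √2 / (4 * mom 1)) * Vf a ^ 2 =
        (99998 / 100000) * √2 / (8 * mom 1) * Vf a ^ 2 := by
      field_simp; ring
    rw [e1] at h7
    have h9 : Vf a ^ 2 ≤ 2 * π / (6464 / 10000) * (8 * mom 1) / ((99998 / 100000) * √2) := by
      rw [le_div_iff₀ (by positivity)]
      have : (99998 / 100000) * √2 / (8 * mom 1) * Vf a ^ 2 * (8 * mom 1) ≤
          2 * π / (6464 / 10000) * (8 * mom 1) := mul_le_mul_of_nonneg_right h7 (by positivity)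
      calc Vf a ^ 2 * ((99998 / 100000) * √2) =
          (99998 / 100000) * √2 / (8 * mom 1) * Vf a ^ 2 * (8 * mom 1) := by field_simp
        _ ≤ _ := this
    refine h9.trans ?_
    rw [div_le_iff₀ (by positivity)]
    have e2 : 2 * π / mom 1 * (9999 / 10000) * ((99998 / 100000) * √2) =
        2 * π * ((9999 / 10000) * (99998 / 100000) * √2 / mom 1) := by ring
    have e3 : 2 * π / (6464 / 10000) * (8 * mom 1) = 2 * π * (8 * mom 1 / (6464 / 10000)) := by ring
    rw [e2, e3]
    refine mul_le_mul_of_nonneg_left ?_ (by positivity)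
    rw [le_div_iff₀ hm, div_mul_eq_mul_div, div_le_iff₀ (by norm_num)]
    have h10 : mom 1 * mom 1 ≤ (338 / 1000) * (338 / 1000) := by gcongr
    have h11 : (14142 / 10000 : ℝ) < √2 := by
      rw [Real.lt_sqrt (by norm_num)]; norm_num
    nlinarith
  have h12 : Vf a ^ 2 ≤ (VV * √(9999 / 10000)) ^ 2 := by
    rw [mul_pow, Real.sq_sqrt (by norm_num)]; exact h8
  exact (sq_le_sq₀ h0.le (by positivity)).1 h12

end

end Agent238.L4
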