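import Pool.Agent.Helper238.L4.B

set_option autoImplicit false

open MeasureTheory Real Set Filter
open scoped Topology

namespace Agent238.L4

noncomputable section

/-- first sine moment function -/
def h1 (t : ℝ) : ℝ := ZZ⁻¹ * ∫ x, (x * rho x) * sin (t * x)
/-- second cosine moment function -/
def h2 (t : ℝ) : ℝ := ZZ⁻¹ * ∫ x, (x ^ 2 * rho x) * cos (t * x)

lemma xr_int : Integrable fun x : ℝ => x * rho x := by simpa using pow_rho_int 1

lemma gg_deriv (t : ℝ) : HasDerivAt gg (-h1 t) t := by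
  have h := (hasDerivAt_integral_of_dominated_loc_of_deriv_le (μ := (volume : Measure ℝ))
    (F := fun t x => rho x * cos (t * x)) (F' := fun t x => -((x * rho x) * sin (t * x)))
    (x₀ := t) (s := univ) (bound := fun x => |x * rho x|) univ_mem
    (Eventually.of_forall fun u => (rho_cos_int u).aestronglyMeasurable) (rho_cos_int t)
    (bdd_int xr_int (by fun_prop) fun x => abs_sin_le_one _).neg.aestronglyMeasurable
    (Eventually.of_forall fun x u _ => by
      rw [norm_neg, norm_mul, Real.norm_eq_abs, Real.norm_eq_abs]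
      exact mul_le_of_le_one_right (abs_nonneg _) (abs_sin_le_one _))
    xr_int.abs
    (Eventually.of_forall fun x u _ => by
      have := (((hasDerivAt_id u).mul_const x).cos).const_mul (rho x)
      refine this.congr_deriv ?_
      simp only [id_eq]; ring)).2
  have h' := h.const_mul ZZ⁻¹
  refine h'.congr_deriv ?_
  rw [integral_neg, h1]; ring

lemma h1_deriv (t : ℝ) : HasDerivAt h1 (h2 t) t := by
  have h := (hasDerivAt_integral_of_dominated_loc_of_deriv_le (μ := (volume : Measure ℝ))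
    (F := fun t x => (x * rho x) * sin (t * x)) (F' := fun t x => (x ^ 2 * rho x) * cos (t * x))
    (x₀ := t) (s := univ) (bound := fun x => |x ^ 2 * rho x|) univ_mem
    (Eventually.of_forall fun u =>
      (bdd_int xr_int (by fun_prop) fun x => abs_sin_le_one _).aestronglyMeasurable)
    (bdd_int xr_int (by fun_prop) fun x => abs_sin_le_one _)
    (bdd_int (pow_rho_int 2) (by fun_prop) fun x => abs_cos_le_one _).aestronglyMeasurable
    (Eventually.of_forall fun x u _ => by
      rw [norm_mul, Real.norm_eq_abs, Real.norm_eq_abs]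
      exact mul_le_of_le_one_right (abs_nonneg _) (abs_cos_le_one _))
    (pow_rho_int 2).abs
    (Eventually.of_forall fun x u _ => by
      have := (((hasDerivAt_id u).mul_const x).sin).const_mul (x * rho x)
      refine this.congr_deriv ?_
      simp only [id_eq]; ring)).2
  exact h.const_mul ZZ⁻¹

lemma mono_zero (f f' : ℝ → ℝ) (hf : ∀ y, HasDerivAt f (f' y) y) (h0 : f 0 = 0)
    (hp : ∀ y, 0 ≤ y → 0 ≤ f' y) (y : ℝ) (hy : 0 ≤ y) : 0 ≤ f y := by
  have hm : MonotoneOn f (Ici 0) := by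
    refine monotoneOn_of_deriv_nonneg (convex_Ici 0) ?_ ?_ ?_
    · exact fun x _ => (hf x).continuousAt.continuousWithinAt
    · exact fun x _ => (hf x).differentiableAt.differentiableWithinAt
    · intro x hx
      rw [interior_Ici] at hx
      rw [(hf x).deriv]; exact hp x (le_of_lt hx)
  have := hm (mem_Ici.2 le_rfl) (mem_Ici.2 hy) hy
  rwa [h0] at this

lemma sin_sub_bound {y : ℝ} (hy : 0 ≤ y) : |sin y - y * cos y| ≤ y ^ 3 / 3 := by
  have hd : ∀ y : ℝ, HasDerivAt (fun y => sin y - y * cos y) (y * sin y) y := by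
    intro y
    have h := (hasDerivAt_sin y).sub ((hasDerivAt_id y).mul (hasDerivAt_cos y))
    refine h.congr_deriv ?_
    simp only [id_eq]; ring
  have hc : ∀ y : ℝ, HasDerivAt (fun y : ℝ => y ^ 3 / 3) (y ^ 2) y := by
    intro y
    refine ((hasDerivAt_pow 3 y).div_const 3).congr_deriv ?_
    norm_num
  have hs : ∀ y : ℝ, 0 ≤ y → |sin y| ≤ y := fun y hy => by
    have := (abs_sin_le_abs : |sin y| ≤ |y|)
    rwa [abs_of_nonneg hy] at this
  rw [abs_le]
  constructor
  · have := mono_zero (fun y => y ^ 3 / 3 + (sin y - y * cos y)) (fun y => y ^ 2 + y * sin y)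
      (fun y => (hc y).add (hd y)) (by simp) (fun y hy => by
        have := (abs_le.1 (hs y hy)).1; nlinarith) y hy
    linarith
  · have := mono_zero (fun y => y ^ 3 / 3 - (sin y - y * cos y)) (fun y => y ^ 2 - y * sin y)
      (fun y => (hc y).sub (hd y)) (by simp) (fun y hy => by
        have := (abs_le.1 (hs y hy)).2; nlinarith) y hy
    linarith

lemma h1_abs {t : ℝ} (ht : 0 ≤ t) : |h1 t| ≤ mom 1 * t := by
  unfold h1 mom
  rw [abs_mul, abs_of_pos (inv_pos.2 ZZ_pos), mul_assoc]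
  refine mul_le_mul_of_nonneg_left ?_ (inv_pos.2 ZZ_pos).le
  rw [← integral_mul_const, ← Real.norm_eq_abs]
  refine (norm_integral_le_integral_norm _).trans ?_
  refine integral_mono (bdd_int xr_int (by fun_prop) fun x => abs_sin_le_one _).norm
    ((pow_rho_int (2 * 1)).mul_const t) fun x => ?_
  simp only [norm_mul, Real.norm_eq_abs, abs_of_pos (rho_pos x)]
  have h := (abs_sin_le_abs : |sin (t * x)| ≤ |t * x|)
  rw [abs_mul, abs_of_nonneg ht] at h
  have hx : |x| * |x| = x ^ 2 := by rw [← sq, sq_abs]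
  calc |x| * rho x * |sin (t * x)| ≤ |x| * rho x * (t * |x|) := by
        have := rho_pos x; gcongr
    _ = x ^ (2 * 1) * rho x * t := by
        rw [mul_one, ← hx]; ring

lemma h1_lo {t : ℝ} (ht : 0 ≤ t) : mom 1 * t - t ^ 3 / 24 ≤ h1 t := by
  have hsin : ∀ x : ℝ, (x ^ (2 * 1) * rho x) * t - (x ^ (2 * 2) * rho x) * (t ^ 3 / 6) ≤
      (x * rho x) * sin (t * x) := by
    intro x
    have key : ∀ y : ℝ, 0 ≤ y → y - y ^ 3 / 6 ≤ sin y := by
      intro y hy
      have h := (taylor_bounds 1 y hy).2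
      simp only [sP, Finset.sum_range_succ, Finset.sum_range_zero] at h
      norm_num [Nat.factorial] at h
      linarith
    have h2 : x * (t * x) - x * ((t * x) ^ 3 / 6) ≤ x * sin (t * x) := by
      rcases le_total 0 x with h | h
      · have := key (t * x) (mul_nonneg ht h)
        nlinarith
      · have := key (t * (-x)) (mul_nonneg ht (by linarith))
        rw [mul_neg, sin_neg] at this
        nlinarith
    have := mul_le_mul_of_nonneg_left h2 (rho_pos x).le
    nlinarith [this]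
  have e : mom 1 * t - t ^ 3 / 24 = ZZ⁻¹ * ∫ x, ((x ^ (2 * 1) * rho x) * t -
      (x ^ (2 * 2) * rho x) * (t ^ 3 / 6)) := by
    rw [integral_sub ((pow_rho_int _).mul_const _) ((pow_rho_int _).mul_const _),
      integral_mul_const, integral_mul_const]
    have := mom2
    unfold mom at this ⊢
    linear_combination (t ^ 3 / 6) * this
  rw [e, h1]
  refine mul_le_mul_of_nonneg_left ?_ (inv_pos.2 ZZ_pos).le
  exact integral_mono (((pow_rho_int _).mul_const _).sub ((pow_rho_int _).mul_const _))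
    (bdd_int xr_int (by fun_prop) fun x => abs_sin_le_one _) hsin

lemma h12_bound {t : ℝ} (ht : 0 ≤ t) : |h1 t - t * h2 t| ≤ t ^ 3 / 12 := by
  have i1 : Integrable fun x => (x * rho x) * sin (t * x) :=
    bdd_int xr_int (by fun_prop) fun x => abs_sin_le_one _
  have i2 : Integrable fun x => t * ((x ^ 2 * rho x) * cos (t * x)) :=
    (bdd_int (pow_rho_int 2) (by fun_prop) fun x => abs_cos_le_one _).const_mul t
  have e : h1 t - t * h2 t = ZZ⁻¹ * ∫ x, ((x * rho x) * sin (t * x) -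
      t * ((x ^ 2 * rho x) * cos (t * x))) := by
    rw [integral_sub i1 i2, integral_const_mul]; unfold h1 h2; ring
  have e2 : t ^ 3 / 12 = ZZ⁻¹ * ∫ x, (x ^ (2 * 2) * rho x) * (t ^ 3 / 3) := by
    rw [integral_mul_const]
    have := mom2
    unfold mom at this
    linear_combination (-(t ^ 3 / 3)) * this
  rw [e, e2, abs_mul, abs_of_pos (inv_pos.2 ZZ_pos)]
  refine mul_le_mul_of_nonneg_left ?_ (inv_pos.2 ZZ_pos).le
  rw [← Real.norm_eq_abs]
  refine (norm_integral_le_integral_norm _).trans ?_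
  refine integral_mono (i1.sub i2).norm ((pow_rho_int _).mul_const _) fun x => ?_
  have e3 : x * rho x * sin (t * x) - t * (x ^ 2 * rho x * cos (t * x)) =
      rho x * (x * (sin (t * x) - (t * x) * cos (t * x))) := by ring
  rw [e3, norm_mul, norm_mul, Real.norm_eq_abs, Real.norm_eq_abs, Real.norm_eq_abs,
    abs_of_pos (rho_pos x)]
  have h3 : |sin (t * x) - (t * x) * cos (t * x)| ≤ (t * |x|) ^ 3 / 3 := by
    rcases le_total 0 x with h | h
    · have := sin_sub_bound (mul_nonneg ht h)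
      rwa [abs_of_nonneg h]
    · have := sin_sub_bound (mul_nonneg ht (by linarith : 0 ≤ -x))
      rw [mul_neg, sin_neg, cos_neg] at this
      rw [abs_of_nonpos h]
      have e4 : -sin (t * x) - -(t * x) * cos (t * x) = -(sin (t * x) - (t * x) * cos (t * x)) := by
        ring
      rw [e4, abs_neg] at this
      rw [mul_neg]; exact this
  have h4 : |x| ^ 4 = x ^ 4 := by
    rw [show (4 : ℕ) = 2 * 2 by norm_num, pow_mul, pow_mul, sq_abs]
  calc rho x * (|x| * |sin (t * x) - (t * x) * cos (t * x)|) ≤ rho x * (|x| * ((t * |x|) ^ 3 / 3)) := by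
        have := rho_pos x; gcongr
    _ = |x| ^ 4 * rho x * (t ^ 3 / 3) := by ring
    _ = x ^ (2 * 2) * rho x * (t ^ 3 / 3) := by rw [h4]

/-! ### the function `w ↦ gg √w` -/

def Ph (w : ℝ) : ℝ := gg (√w)
def Q1 (w : ℝ) : ℝ := -h1 (√w) / (2 * √w)
def Q2 (w : ℝ) : ℝ := (h1 (√w) - √w * h2 (√w)) / (4 * √w ^ 3)

lemma Ph_cont : Continuous Ph := gg_cont.comp Real.continuous_sqrt

lemma Ph_deriv {w : ℝ} (hw : 0 < w) : HasDerivAt Ph (Q1 w) w := by
  have h := (gg_deriv (√w)).comp w (Real.hasDerivAt_sqrt hw.ne')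
  refine h.congr_deriv ?_
  unfold Q1; ring

lemma Q1_deriv {w : ℝ} (hw : 0 < w) : HasDerivAt Q1 (Q2 w) w := by
  have hs : 0 < √w := Real.sqrt_pos.2 hw
  have h1' := (h1_deriv (√w)).comp w (Real.hasDerivAt_sqrt hw.ne')
  have h2' := (Real.hasDerivAt_sqrt hw.ne').const_mul 2
  have h := (h1'.neg).div h2' (by positivity)
  refine h.congr_deriv ?_
  have e : (-(h1 ∘ sqrt)) w = -h1 (√w) := rfl
  rw [e]
  unfold Q2
  field_simp
  ring

lemma Q1_abs {w : ℝ} (hw : 0 < w) : |Q1 w| ≤ mom 1 / 2 := by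
  have hs : 0 < √w := Real.sqrt_pos.2 hw
  unfold Q1
  rw [abs_div, abs_neg, abs_of_pos (by positivity : 0 < 2 * √w), div_le_iff₀ (by positivity)]
  have := h1_abs hs.le
  linarith

lemma Q1_le {w : ℝ} (hw : 0 < w) : Q1 w ≤ -(mom 1 / 2) + w / 48 := by
  have hs : 0 < √w := Real.sqrt_pos.2 hw
  have h := h1_lo hs.le
  unfold Q1
  rw [div_le_iff₀ (by positivity)]
  have e : √w ^ 2 = w := Real.sq_sqrt hw.le
  have e3 : √w ^ 3 = w * √w := by rw [pow_succ, e]
  rw [e3] at h
  nlinarith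

lemma Q2_abs {w : ℝ} (hw : 0 < w) : |Q2 w| ≤ 1 / 48 := by
  have hs : 0 < √w := Real.sqrt_pos.2 hw
  unfold Q2
  rw [abs_div, abs_of_pos (by positivity : 0 < 4 * √w ^ 3), div_le_iff₀ (by positivity)]
  have := h12_bound hs.le
  linarith

lemma Q1_lip {u v : ℝ} (hu : 0 < u) (huv : u ≤ v) : |Q1 v - Q1 u| ≤ (v - u) / 48 := by
  have h := Convex.norm_image_sub_le_of_norm_hasDerivWithin_le (f := Q1) (f' := Q2)
    (s := Ioi 0) (C := 1 / 48) (fun x hx => (Q1_deriv hx).hasDerivWithinAt)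
    (fun x hx => by rw [Real.norm_eq_abs]; exact Q2_abs hx) (convex_Ioi 0)
    (mem_Ioi.2 hu) (mem_Ioi.2 (hu.trans_le huv))
  rw [Real.norm_eq_abs, Real.norm_eq_abs, abs_of_nonneg (sub_nonneg.2 huv)] at h
  linarith

lemma Ph_lip {u v : ℝ} (hu : 0 < u) (huv : u ≤ v) : |Ph v - Ph u| ≤ mom 1 / 2 * (v - u) := by
  have h := Convex.norm_image_sub_le_of_norm_hasDerivWithin_le (f := Ph) (f' := Q1)
    (s := Ioi 0) (C := mom 1 / 2) (fun x hx => (Ph_deriv hx).hasDerivWithinAt)
    (fun x hx => by rw [Real.norm_eq_abs]; exact Q1_abs hx) (convex_Ioi 0)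
    (mem_Ioi.2 hu) (mem_Ioi.2 (hu.trans_le huv))
  rwa [Real.norm_eq_abs, Real.norm_eq_abs, abs_of_nonneg (sub_nonneg.2 huv)] at h

lemma Ph_abs (w : ℝ) : |Ph w| ≤ 1 := gg_abs_le _

/-- universal bound for the Wronskian-type expression -/
lemma W_abs {u v : ℝ} (hu : 0 < u) (huv : u ≤ v) :
    |Q1 v * Ph u - Ph v * Q1 u| ≤ 1 / 20 * (v - u) := by
  have h1 := Q1_lip hu huv
  have h2 := Ph_lip hu huv
  have h3 := Ph_abs u
  have h4 := Q1_abs hu
  have hm := mom_pos 1
  have hmu := mom_up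
  have e : Q1 v * Ph u - Ph v * Q1 u = (Q1 v - Q1 u) * Ph u - (Ph v - Ph u) * Q1 u := by ring
  rw [e]
  refine (abs_sub _ _).trans ?_
  rw [abs_mul, abs_mul]
  have a1 : |Q1 v - Q1 u| * |Ph u| ≤ (v - u) / 48 * 1 :=
    mul_le_mul h1 h3 (abs_nonneg _) (by linarith)
  have a2 : |Ph v - Ph u| * |Q1 u| ≤ (mom 1 / 2 * (v - u)) * (mom 1 / 2) :=
    mul_le_mul h2 h4 (abs_nonneg _) (mul_nonneg (by positivity) (by linarith))
  have a3 : (mom 1 / 2 * (v - u)) * (mom 1 / 2) ≤ 286 / 10000 * (v - u) := by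
    have : mom 1 / 2 * (mom 1 / 2) ≤ 286 / 10000 := by nlinarith
    nlinarith [mul_le_mul_of_nonneg_right this (sub_nonneg.2 huv)]
  linarith

/-- signed bound near the origin -/
lemma W_neg {u v : ℝ} (hu : 0 < u) (huv : u ≤ v) (hv : v ≤ 1 / 2) :
    Q1 v * Ph u - Ph v * Q1 u ≤ -(42 / 10000 * (v - u)) := by
  have hm := mom_pos 1
  have hml := mom_lo
  have hmu := mom_up
  have h1 := (abs_le.1 (Q1_lip hu huv)).2
  have hP0 : 0 ≤ Ph u := by
    have := gg_lo1 (√u)
    rw [Real.sq_sqrt hu.le] at this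
    unfold Ph; nlinarith
  have hP1 : Ph u ≤ 1 := (abs_le.1 (Ph_abs u)).2
  have hQu : Q1 u ≤ -(1585 / 10000) := by
    have := Q1_le hu; linarith
  have hPd : Ph v - Ph u ≤ -(1585 / 10000) * (v - u) := by
    have h := Convex.image_sub_le_mul_sub_of_deriv_le (D := Icc u v) (convex_Icc u v) (f := Ph)
      Ph_cont.continuousOn (fun x hx => by
        rw [interior_Icc] at hx
        exact (Ph_deriv (hu.trans hx.1)).differentiableAt.differentiableWithinAt)
      (C := -(1585 / 10000)) (fun x hx => by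
        rw [interior_Icc] at hx
        rw [(Ph_deriv (hu.trans hx.1)).deriv]
        have := Q1_le (hu.trans hx.1)
        have := hx.2
        linarith) u (left_mem_Icc.2 huv) v (right_mem_Icc.2 huv) huv
    exact h
  have e : Q1 v * Ph u - Ph v * Q1 u = (Q1 v - Q1 u) * Ph u - (Ph v - Ph u) * Q1 u := by ring
  rw [e]
  have a1 : (Q1 v - Q1 u) * Ph u ≤ (v - u) / 48 := by
    have : (Q1 v - Q1 u) * Ph u ≤ ((v - u) / 48) * Ph u := mul_le_mul_of_nonneg_right h1 hP0
    have h0 : 0 ≤ (v - u) / 48 := by linarith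
    nlinarith
  have a2 : 1585 / 10000 * (1585 / 10000) * (v - u) ≤ (Ph v - Ph u) * Q1 u := by
    have b1 : 0 ≤ v - u := by linarith
    nlinarith
  nlinarith

end

end Agent238.L4
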