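import Pool.Agent.Helper238.L4.K

set_option autoImplicit false

open MeasureTheory Real Set Filter
open scoped Topology

namespace Agent238.L4

noncomputable section

/-- pair function -/
def qq (α v d : ℝ) : ℝ := Ph ((α + d) * v) * Ph ((α - d) * v)

/-- its derivative -/
def qd (α v d : ℝ) : ℝ :=
  v * (Q1 ((α + d) * v) * Ph ((α - d) * v) - Ph ((α + d) * v) * Q1 ((α - d) * v))

lemma qq_cont (α v : ℝ) : Continuous (qq α v) := by
  unfold qq
  exact (Ph_cont.comp (by fun_prop)).mul (Ph_cont.comp (by fun_prop))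

lemma qq_deriv {α v d : ℝ} (hv : 0 < v) (h0 : 0 < d) (h : d < α) :
    HasDerivAt (qq α v) (qd α v d) d := by
  have hu1 : 0 < (α + d) * v := mul_pos (by linarith) hv
  have hu2 : 0 < (α - d) * v := mul_pos (by linarith) hv
  have i1 : HasDerivAt (fun d : ℝ => (α + d) * v) v d := by
    have := ((hasDerivAt_id d).const_add α).mul_const v
    simpa using this
  have i2 : HasDerivAt (fun d : ℝ => (α - d) * v) (-v) d := by
    have := ((hasDerivAt_id d).const_sub α).mul_const v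
    simpa using this
  have e1 := (Ph_deriv hu1).comp d i1
  have e2 := (Ph_deriv hu2).comp d i2
  have e := e1.mul e2
  refine e.congr_deriv ?_
  simp only [Function.comp]
  unfold qd
  ring

lemma qd_abs {α v d : ℝ} (hv : 0 < v) (h0 : 0 < d) (h : d < α) :
    |qd α v d| ≤ 1 / 10 * v ^ 2 * d := by
  unfold qd
  rw [abs_mul, abs_of_pos hv]
  have hu2 : 0 < (α - d) * v := mul_pos (by linarith) hv
  have hle : (α - d) * v ≤ (α + d) * v := by nlinarith
  have := W_abs hu2 hle
  calc v * |Q1 ((α + d) * v) * Ph ((α - d) * v) - Ph ((α + d) * v) * Q1 ((α - d) * v)|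
      ≤ v * (1 / 20 * ((α + d) * v - (α - d) * v)) := mul_le_mul_of_nonneg_left this hv.le
    _ = _ := by ring

lemma qd_neg {α v d : ℝ} (hv : 0 < v) (h0 : 0 < d) (h : d < α) (hs : (α + d) * v ≤ 1 / 2) :
    qd α v d ≤ -(84 / 10000 * v ^ 2 * d) := by
  unfold qd
  have hu2 : 0 < (α - d) * v := mul_pos (by linarith) hv
  have hle : (α - d) * v ≤ (α + d) * v := by nlinarith
  have := W_neg hu2 hle hs
  calc v * (Q1 ((α + d) * v) * Ph ((α - d) * v) - Ph ((α + d) * v) * Q1 ((α - d) * v))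
      ≤ v * (-(42 / 10000 * ((α + d) * v - (α - d) * v))) := mul_le_mul_of_nonneg_left this hv.le
    _ = _ := by ring

lemma sq_deriv (c d : ℝ) : HasDerivAt (fun d : ℝ => c * d ^ 2) (2 * c * d) d := by
  have := (hasDerivAt_pow 2 d).const_mul c
  refine this.congr_deriv ?_
  norm_num; ring

/-- universal pair bound -/
lemma pair_abs {α v δ : ℝ} (hv : 0 ≤ v) (h0 : 0 ≤ δ) (h : δ ≤ α) :
    |Ph (α * v) ^ 2 - Ph ((α + δ) * v) * Ph ((α - δ) * v)| ≤ 1 / 20 * v ^ 2 * δ ^ 2 := by
  rcases eq_or_lt_of_le hv with hv0 | hv0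
  · rw [← hv0]; simp [sq]
  have hc2 : Continuous fun d : ℝ => (1 / 20 * v ^ 2) * d ^ 2 := by fun_prop
  have m1 : MonotoneOn (fun d => qq α v d + (1 / 20 * v ^ 2) * d ^ 2) (Icc 0 α) := by
    refine monotoneOn_of_deriv_nonneg (convex_Icc 0 α) ((qq_cont α v).add hc2).continuousOn ?_ ?_
    · intro d hd
      rw [interior_Icc] at hd
      exact ((qq_deriv hv0 hd.1 hd.2).add (sq_deriv _ d)).differentiableAt.differentiableWithinAt
    · intro d hd
      rw [interior_Icc] at hd
      rw [((qq_deriv hv0 hd.1 hd.2).fun_add (sq_deriv _ d)).deriv]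
      have := (abs_le.1 (qd_abs hv0 hd.1 hd.2)).1
      linarith
  have m2 : AntitoneOn (fun d => qq α v d - (1 / 20 * v ^ 2) * d ^ 2) (Icc 0 α) := by
    refine antitoneOn_of_deriv_nonpos (convex_Icc 0 α) ((qq_cont α v).sub hc2).continuousOn ?_ ?_
    · intro d hd
      rw [interior_Icc] at hd
      exact ((qq_deriv hv0 hd.1 hd.2).sub (sq_deriv _ d)).differentiableAt.differentiableWithinAt
    · intro d hd
      rw [interior_Icc] at hd
      rw [((qq_deriv hv0 hd.1 hd.2).fun_sub (sq_deriv _ d)).deriv]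
      have := (abs_le.1 (qd_abs hv0 hd.1 hd.2)).2
      linarith
  have hα : 0 ≤ α := h0.trans h
  have k1 := m1 (left_mem_Icc.2 hα) ⟨h0, h⟩ h0
  have k2 := m2 (left_mem_Icc.2 hα) ⟨h0, h⟩ h0
  simp only [qq, add_zero, sub_zero] at k1 k2
  rw [abs_le]
  constructor <;> nlinarith

/-- signed pair bound -/
lemma pair_neg {α v δ : ℝ} (hv : 0 ≤ v) (h0 : 0 ≤ δ) (h : δ ≤ α) (hs : (α + δ) * v ≤ 1 / 2) :
    42 / 10000 * v ^ 2 * δ ^ 2 ≤ Ph (α * v) ^ 2 - Ph ((α + δ) * v) * Ph ((α - δ) * v) := by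
  rcases eq_or_lt_of_le hv with hv0 | hv0
  · rw [← hv0]; simp [sq]
  have hc2 : Continuous fun d : ℝ => (42 / 10000 * v ^ 2) * d ^ 2 := by fun_prop
  have m2 : AntitoneOn (fun d => qq α v d + (42 / 10000 * v ^ 2) * d ^ 2) (Icc 0 δ) := by
    refine antitoneOn_of_deriv_nonpos (convex_Icc 0 δ) ((qq_cont α v).add hc2).continuousOn ?_ ?_
    · intro d hd
      rw [interior_Icc] at hd
      exact ((qq_deriv hv0 hd.1 (hd.2.trans_le h)).add
        (sq_deriv _ d)).differentiableAt.differentiableWithinAt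
    · intro d hd
      rw [interior_Icc] at hd
      rw [((qq_deriv hv0 hd.1 (hd.2.trans_le h)).fun_add (sq_deriv _ d)).deriv]
      have hsd : (α + d) * v ≤ 1 / 2 := by
        have : (α + d) * v ≤ (α + δ) * v := by
          apply mul_le_mul_of_nonneg_right _ hv0.le
          linarith [hd.2]
        linarith
      have := qd_neg hv0 hd.1 (hd.2.trans_le h) hsd
      linarith
  have k2 := m2 (left_mem_Icc.2 h0) (right_mem_Icc.2 h0) h0
  simp only [qq, add_zero, sub_zero] at k2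
  nlinarith

lemma gg_eq_Ph (a t : ℝ) : gg (a * t) = Ph (a ^ 2 * t ^ 2) := by
  unfold Ph
  rw [← mul_pow, Real.sqrt_sq_eq_abs, gg_abs]

end

end Agent238.L4
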