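import Pool.Agent.Helper238.L4.G
import Pool.Agent.Helper238.L4.L

set_option autoImplicit false

open MeasureTheory Real Set Filter
open scoped Topology

namespace Agent238.L4

noncomputable section

variable {n : ℕ}

/-- equalising the squares of two coordinates -/
def eqv (a : EuclideanSpace ℝ (Fin n)) (i j : Fin n) : EuclideanSpace ℝ (Fin n) :=
  WithLp.toLp 2 fun k => if k = i ∨ k = j then √((a i ^ 2 + a j ^ 2) / 2) else a k

lemma eqv_apply (a : EuclideanSpace ℝ (Fin n)) (i j k : Fin n) :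
    eqv a i j k = if k = i ∨ k = j then √((a i ^ 2 + a j ^ 2) / 2) else a k := rfl

lemma eqv_symm (a : EuclideanSpace ℝ (Fin n)) (i j : Fin n) : eqv a i j = eqv a j i := by
  unfold eqv
  congr 1
  funext k
  simp only [or_comm, add_comm]

lemma prod_split (f : Fin n → ℝ) {i j : Fin n} (hij : i ≠ j) :
    ∏ k, f k = f i * (f j * ∏ k ∈ (Finset.univ.erase i).erase j, f k) := by
  rw [Finset.mul_prod_erase (Finset.univ.erase i) f
    (Finset.mem_erase.2 ⟨hij.symm, Finset.mem_univ j⟩),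
    Finset.mul_prod_erase Finset.univ f (Finset.mem_univ i)]

lemma sum_split (f : Fin n → ℝ) {i j : Fin n} (hij : i ≠ j) :
    ∑ k, f k = f i + (f j + ∑ k ∈ (Finset.univ.erase i).erase j, f k) := by
  rw [Finset.add_sum_erase (Finset.univ.erase i) f
    (Finset.mem_erase.2 ⟨hij.symm, Finset.mem_univ j⟩),
    Finset.add_sum_erase Finset.univ f (Finset.mem_univ i)]

lemma eqv_other (a : EuclideanSpace ℝ (Fin n)) {i j k : Fin n}
    (hk : k ∈ (Finset.univ.erase i).erase j) : eqv a i j k = a k := by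
  rw [eqv_apply, if_neg]
  rw [Finset.mem_erase, Finset.mem_erase] at hk
  rintro (h | h)
  · exact hk.2.1 h
  · exact hk.1 h

lemma eqv_norm {a : EuclideanSpace ℝ (Fin n)} (ha : ‖a‖ = 1) {i j : Fin n} (hij : i ≠ j) :
    ‖eqv a i j‖ = 1 := by
  have h1 := EuclideanSpace.norm_sq_eq (eqv a i j)
  simp only [Real.norm_eq_abs, sq_abs] at h1
  have h2 := sum_sq ha
  rw [sum_split (fun k => a k ^ 2) hij] at h2
  rw [sum_split (fun k => eqv a i j k ^ 2) hij, Finset.sum_congr rfl fun k hk => by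
    rw [eqv_other a hk]] at h1
  have e1 : eqv a i j i ^ 2 = (a i ^ 2 + a j ^ 2) / 2 := by
    rw [eqv_apply, if_pos (Or.inl rfl), Real.sq_sqrt (by positivity)]
  have e2 : eqv a i j j ^ 2 = (a i ^ 2 + a j ^ 2) / 2 := by
    rw [eqv_apply, if_pos (Or.inr rfl), Real.sq_sqrt (by positivity)]
  simp only at h2
  rw [e1, e2] at h1
  have h3 : ‖eqv a i j‖ ^ 2 = 1 := by rw [h1]; linarith
  nlinarith [norm_nonneg (eqv a i j)]

lemma one_sub_sum_le {ι : Type*} (s : Finset ι) (y : ι → ℝ) (hy : ∀ i ∈ s, 0 ≤ y i)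
    (hy1 : ∀ i ∈ s, y i ≤ 1) : 1 - ∑ i ∈ s, y i ≤ ∏ i ∈ s, (1 - y i) := by
  classical
  induction s using Finset.induction_on with
  | empty => simp
  | insert a s ha ih =>
    rw [Finset.sum_insert ha, Finset.prod_insert ha]
    have h1 := ih (fun i hi => hy i (Finset.mem_insert_of_mem hi))
      (fun i hi => hy1 i (Finset.mem_insert_of_mem hi))
    have h2 := hy a (Finset.mem_insert_self a s)
    have h2' := hy1 a (Finset.mem_insert_self a s)
    have h3 : 0 ≤ ∑ i ∈ s, y i := Finset.sum_nonneg fun i hi => hy i (Finset.mem_insert_of_mem hi)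
    have h4 : (1 - y a) * (1 - ∑ i ∈ s, y i) ≤ (1 - y a) * ∏ i ∈ s, (1 - y i) :=
      mul_le_mul_of_nonneg_left h1 (by linarith)
    nlinarith

lemma G_lo {a : EuclideanSpace ℝ (Fin n)} (ha : ‖a‖ = 1) (s : Finset (Fin n)) {t : ℝ}
    (ht : t ^ 2 ≤ 1) : 4 / 5 ≤ ∏ k ∈ s, gg (a k * t) := by
  have hm := mom_pos 1
  have hmu := mom_up
  have h0 : ∀ k, 0 ≤ mom 1 / 2 * (a k * t) ^ 2 := fun k => by positivity
  have hsum : ∑ k ∈ s, a k ^ 2 ≤ 1 := by
    rw [← sum_sq ha]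
    exact Finset.sum_le_sum_of_subset_of_nonneg (Finset.subset_univ s) fun k _ _ => sq_nonneg _
  have hk1 : ∀ k, a k ^ 2 ≤ 1 := fun k => by
    rw [← sum_sq ha]
    exact Finset.single_le_sum (f := fun k => a k ^ 2) (fun k _ => sq_nonneg _) (Finset.mem_univ k)
  have h1 : ∀ k, mom 1 / 2 * (a k * t) ^ 2 ≤ 1 := fun k => by
    rw [mul_pow]
    have := mul_le_mul (hk1 k) ht (sq_nonneg t) zero_le_one
    nlinarith
  have h2 := one_sub_sum_le s (fun k => mom 1 / 2 * (a k * t) ^ 2) (fun k _ => h0 k)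
    (fun k _ => h1 k)
  have h3 : ∏ k ∈ s, (1 - mom 1 / 2 * (a k * t) ^ 2) ≤ ∏ k ∈ s, gg (a k * t) :=
    Finset.prod_le_prod (fun k _ => by linarith [h1 k]) fun k _ => gg_lo1 _
  have h4 : ∑ k ∈ s, mom 1 / 2 * (a k * t) ^ 2 = mom 1 / 2 * t ^ 2 * ∑ k ∈ s, a k ^ 2 := by
    rw [Finset.mul_sum]
    exact Finset.sum_congr rfl fun k _ => by ring
  have h5 : mom 1 / 2 * t ^ 2 * ∑ k ∈ s, a k ^ 2 ≤ mom 1 / 2 := by
    have h6 : 0 ≤ ∑ k ∈ s, a k ^ 2 := Finset.sum_nonneg fun k _ => sq_nonneg _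
    have h7 : t ^ 2 * ∑ k ∈ s, a k ^ 2 ≤ 1 * 1 := mul_le_mul ht hsum h6 zero_le_one
    nlinarith
  rw [h4] at h2
  linarith

lemma G_nonneg {a : EuclideanSpace ℝ (Fin n)} (hs : ∀ k, a k ^ 2 ≤ 1 / 1000)
    (s : Finset (Fin n)) {t : ℝ} (ht : t ^ 2 ≤ 500) : 0 ≤ ∏ k ∈ s, gg (a k * t) := by
  have hm := mom_pos 1
  have hmu := mom_up
  refine Finset.prod_nonneg fun k _ => ?_
  have h := gg_lo1 (a k * t)
  have h2 : (a k * t) ^ 2 ≤ 1 / 2 := by
    rw [mul_pow]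
    have := mul_le_mul (hs k) ht (sq_nonneg t) (by norm_num)
    linarith
  nlinarith

/-- the tail envelope -/
def Wt (t : ℝ) : ℝ := ((1 + t ^ 2 / 10000) ^ 998)⁻¹

lemma G_tail {a : EuclideanSpace ℝ (Fin n)} (ha : ‖a‖ = 1) (hs : ∀ k, a k ^ 2 ≤ 1 / 1000)
    {i j : Fin n} (hij : i ≠ j) (t : ℝ) :
    |∏ k ∈ (Finset.univ.erase i).erase j, gg (a k * t)| ≤ Wt t := by
  unfold Wt
  set R := (Finset.univ.erase i).erase j with hR
  rw [Finset.abs_prod]
  have h1 : ∏ k ∈ R, |gg (a k * t)| ≤ ∏ k ∈ R, (1 + (a k * t) ^ 2 / 10)⁻¹ :=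
    Finset.prod_le_prod (fun k _ => abs_nonneg _) fun k _ => envelope _
  refine h1.trans ?_
  rw [Finset.prod_inv_distrib]
  have hz : 1 ≤ 1 + t ^ 2 / 10000 := by have := sq_nonneg t; linarith
  have hz0 : 0 < 1 + t ^ 2 / 10000 := by linarith
  refine inv_anti₀ (pow_pos hz0 _) ?_
  have h2 : ∀ k ∈ R, (1 + t ^ 2 / 10000) ^ (1000 * a k ^ 2) ≤ 1 + (a k * t) ^ 2 / 10 := by
    intro k _
    have := rpow_one_add_le_one_add_mul_self (s := t ^ 2 / 10000) (p := 1000 * a k ^ 2)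
      (by have := sq_nonneg t; linarith) (by positivity) (by linarith [hs k])
    refine this.trans (le_of_eq ?_)
    ring
  have h3 : ∏ k ∈ R, (1 + t ^ 2 / 10000) ^ (1000 * a k ^ 2) ≤ ∏ k ∈ R, (1 + (a k * t) ^ 2 / 10) :=
    Finset.prod_le_prod (fun k _ => by positivity) h2
  refine le_trans ?_ h3
  rw [← Real.rpow_sum_of_pos hz0, ← Finset.mul_sum]
  have h4 := sum_sq ha
  rw [sum_split (fun k => a k ^ 2) hij] at h4
  have h5 : (998 : ℝ) ≤ 1000 * ∑ k ∈ R, a k ^ 2 := by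
    have := hs i
    have := hs j
    simp only at h4
    linarith
  calc (1 + t ^ 2 / 10000) ^ 998 = (1 + t ^ 2 / 10000) ^ ((998 : ℕ) : ℝ) := (rpow_natCast _ _).symm
    _ ≤ _ := Real.rpow_le_rpow_of_exponent_le hz (by push_cast; exact h5)

lemma zlem {z : ℝ} (hz1 : 105 / 100 ≤ z) : (10 : ℝ) ^ 18 * z ^ 3 ≤ z ^ 998 := by
  have h15 : (2 : ℝ) ≤ z ^ 15 := by
    calc (2 : ℝ) ≤ (105 / 100) ^ 15 := by norm_num
      _ ≤ z ^ 15 := pow_le_pow_left₀ (by norm_num) hz1 15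
  have h : z ^ 998 = (z ^ 15) ^ 66 * z ^ 8 := by rw [← pow_mul, ← pow_add]
  have h2 : (10 : ℝ) ^ 18 ≤ (z ^ 15) ^ 66 :=
    le_trans (by norm_num : (10 : ℝ) ^ 18 ≤ 2 ^ 66) (pow_le_pow_left₀ (by norm_num) h15 66)
  have h3 : z ^ 3 ≤ z ^ 8 := pow_le_pow_right₀ (by linarith) (by norm_num)
  rw [h]
  exact mul_le_mul h2 h3 (pow_nonneg (by linarith) 3) (pow_nonneg (pow_nonneg (by linarith) 15) 66)

lemma tail_aux {t z y : ℝ} (hz1 : 105 / 100 ≤ z) (hzl : (10 : ℝ) ^ 18 * z ^ 3 ≤ y)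
    (h2 : t ^ 2 ≤ 10 ^ 4 * z) (h3 : 1 + t ^ 2 ≤ 10 ^ 4 * z) :
    t ^ 4 * y⁻¹ ≤ 1 / 10 ^ 6 * (1 + t ^ 2)⁻¹ := by
  have h1p : 0 < 1 + t ^ 2 := by positivity
  have hz0 : 0 < z := by linarith
  have hy : 0 < y := lt_of_lt_of_le (by positivity) hzl
  have e1 : t ^ 4 * (1 + t ^ 2) ≤ 10 ^ 12 * z ^ 3 := by
    have h4 : t ^ 4 = t ^ 2 * t ^ 2 := by ring
    have h5 : t ^ 2 * t ^ 2 ≤ (10 ^ 4 * z) * (10 ^ 4 * z) :=
      mul_le_mul h2 h2 (sq_nonneg t) (by positivity)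
    calc t ^ 4 * (1 + t ^ 2) ≤ ((10 ^ 4 * z) * (10 ^ 4 * z)) * (10 ^ 4 * z) := by
          rw [h4]; exact mul_le_mul h5 h3 h1p.le (by positivity)
      _ = _ := by ring
  rw [← div_eq_mul_inv, ← div_eq_mul_inv, div_le_div_iff₀ hy h1p]
  have e6 : 10 ^ 12 * z ^ 3 = 1 / 10 ^ 6 * (10 ^ 18 * z ^ 3) := by ring
  calc t ^ 4 * (1 + t ^ 2) ≤ 10 ^ 12 * z ^ 3 := e1
    _ = 1 / 10 ^ 6 * (10 ^ 18 * z ^ 3) := e6
    _ ≤ 1 / 10 ^ 6 * y := mul_le_mul_of_nonneg_left hzl (by norm_num)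

lemma tail_num {t : ℝ} (ht : 500 ≤ t ^ 2) :
    t ^ 4 * Wt t ≤ 1 / 10 ^ 6 * (1 + t ^ 2)⁻¹ := by
  have hz1 : 105 / 100 ≤ 1 + t ^ 2 / 10000 := by linarith
  have h2 : t ^ 2 ≤ 10 ^ 4 * (1 + t ^ 2 / 10000) := by linarith
  have h3 : 1 + t ^ 2 ≤ 10 ^ 4 * (1 + t ^ 2 / 10000) := by linarith
  exact tail_aux (y := (1 + t ^ 2 / 10000) ^ 998) hz1 (zlem hz1) h2 h3

/-- the lower bound function -/
def Lo (t : ℝ) : ℝ :=
  (Icc (-1 : ℝ) 1).indicator (fun t => 336 / 100000 * t ^ 4) t - 1 / 20 * (1 / 10 ^ 6) * (1 + t ^ 2)⁻¹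

lemma Lo_int1 : Integrable ((Icc (-1 : ℝ) 1).indicator (fun t : ℝ => 336 / 100000 * t ^ 4)) := by
  rw [integrable_indicator_iff measurableSet_Icc]
  exact (by fun_prop : Continuous fun t : ℝ => 336 / 100000 * t ^ 4).continuousOn.integrableOn_Icc

lemma Lo_int : Integrable Lo :=
  Lo_int1.sub (integrable_inv_one_add_sq.const_mul _)

lemma Lo_pos : 0 < ∫ t, Lo t := by
  unfold Lo
  rw [integral_sub Lo_int1 (integrable_inv_one_add_sq.const_mul _), integral_const_mul,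
    integral_univ_inv_one_add_sq, integral_indicator measurableSet_Icc,
    integral_Icc_eq_integral_Ioc, ← intervalIntegral.integral_of_le (by norm_num)]
  rw [intervalIntegral.integral_const_mul, integral_pow]
  have := Real.pi_lt_d2
  norm_num
  linarith

/-- Two different small squares can be equalised with a strict gain. -/
lemma near {a : EuclideanSpace ℝ (Fin n)} (ha : ‖a‖ = 1) (hs : ∀ k, a k ^ 2 ≤ 1 / 1000)
    {i j : Fin n} (hij : i ≠ j) (hne : a i ^ 2 ≠ a j ^ 2) : Vf a < Vf (eqv a i j) := by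
  wlog hle : a j ^ 2 ≤ a i ^ 2 with H
  · have := H ha hs hij.symm hne.symm (le_of_not_ge hle)
    rwa [eqv_symm] at this
  have hb := eqv_norm ha hij
  set α := (a i ^ 2 + a j ^ 2) / 2 with hα
  set δ := (a i ^ 2 - a j ^ 2) / 2 with hδ
  have hδ0 : 0 < δ := by
    have : a j ^ 2 < a i ^ 2 := lt_of_le_of_ne hle hne.symm
    rw [hδ]; linarith
  have hδα : δ ≤ α := by
    have := sq_nonneg (a j)
    rw [hδ, hα]; linarith
  have hαs : α + δ ≤ 1 / 1000 := by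
    have := hs i
    rw [hδ, hα]; linarith
  set R := (Finset.univ.erase i).erase j with hR
  have ea : ∀ t, ∏ k, gg (a k * t) =
      Ph ((α + δ) * t ^ 2) * Ph ((α - δ) * t ^ 2) * ∏ k ∈ R, gg (a k * t) := by
    intro t
    rw [prod_split (fun k => gg (a k * t)) hij, gg_eq_Ph (a i), gg_eq_Ph (a j)]
    have e1 : α + δ = a i ^ 2 := by rw [hα, hδ]; ring
    have e2 : α - δ = a j ^ 2 := by rw [hα, hδ]; ring
    rw [e1, e2]; ring
  have eb : ∀ t, ∏ k, gg (eqv a i j k * t) = Ph (α * t ^ 2) ^ 2 * ∏ k ∈ R, gg (a k * t) := by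
    intro t
    rw [prod_split (fun k => gg (eqv a i j k * t)) hij]
    have e1 : gg (eqv a i j i * t) = Ph (α * t ^ 2) := by
      rw [gg_eq_Ph, eqv_apply, if_pos (Or.inl rfl), Real.sq_sqrt (by positivity)]
    have e2 : gg (eqv a i j j * t) = Ph (α * t ^ 2) := by
      rw [gg_eq_Ph, eqv_apply, if_pos (Or.inr rfl), Real.sq_sqrt (by positivity)]
    have e3 : ∏ k ∈ (Finset.univ.erase i).erase j, gg (eqv a i j k * t) =
        ∏ k ∈ R, gg (a k * t) := Finset.prod_congr rfl fun k hk => by rw [eqv_other a hk]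
    rw [e1, e2, e3]; ring
  have hpt : ∀ t, δ ^ 2 * Lo t ≤ ∏ k, gg (eqv a i j k * t) - ∏ k, gg (a k * t) := by
    intro t
    rw [ea, eb]
    have e : Ph (α * t ^ 2) ^ 2 * ∏ k ∈ R, gg (a k * t) -
        Ph ((α + δ) * t ^ 2) * Ph ((α - δ) * t ^ 2) * ∏ k ∈ R, gg (a k * t) =
        (Ph (α * t ^ 2) ^ 2 - Ph ((α + δ) * t ^ 2) * Ph ((α - δ) * t ^ 2)) *
          ∏ k ∈ R, gg (a k * t) := by ring
    rw [e]
    set D := Ph (α * t ^ 2) ^ 2 - Ph ((α + δ) * t ^ 2) * Ph ((α - δ) * t ^ 2) with hD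
    have ht0 := sq_nonneg t
    have hinv : 0 < (1 + t ^ 2)⁻¹ := by positivity
    have hd2 : 0 < δ ^ 2 := by positivity
    rcases le_or_gt (t ^ 2) 500 with h500 | h500
    · have hsm : (α + δ) * t ^ 2 ≤ 1 / 2 := by
        have := mul_le_mul hαs h500 ht0 (by norm_num)
        linarith
      have hDp := pair_neg ht0 hδ0.le hδα hsm
      have hGn := G_nonneg hs R h500
      by_cases h1 : t ∈ Icc (-1 : ℝ) 1
      · have ht1 : t ^ 2 ≤ 1 := by nlinarith [h1.1, h1.2]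
        have hG := G_lo ha R ht1
        unfold Lo
        rw [Set.indicator_of_mem h1]
        have k1 : 42 / 10000 * (t ^ 2) ^ 2 * δ ^ 2 * (4 / 5) ≤ D * ∏ k ∈ R, gg (a k * t) :=
          mul_le_mul hDp hG (by norm_num) (le_trans (by positivity) hDp)
        have k2 : 0 ≤ δ ^ 2 * (1 / 20 * (1 / 10 ^ 6) * (1 + t ^ 2)⁻¹) := by positivity
        have k3 : 42 / 10000 * (t ^ 2) ^ 2 * δ ^ 2 * (4 / 5) = δ ^ 2 * (336 / 100000 * t ^ 4) := by
          ring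
        rw [mul_sub]
        linarith
      · unfold Lo
        rw [Set.indicator_of_notMem h1]
        have k1 : 0 ≤ D * ∏ k ∈ R, gg (a k * t) :=
          mul_nonneg (le_trans (by positivity) hDp) hGn
        have k2 : 0 ≤ δ ^ 2 * (1 / 20 * (1 / 10 ^ 6) * (1 + t ^ 2)⁻¹) := by positivity
        rw [mul_sub, mul_zero]
        linarith
    · have h1 : t ∉ Icc (-1 : ℝ) 1 := by
        intro h
        have : t ^ 2 ≤ 1 := by nlinarith [h.1, h.2]
        linarith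
      unfold Lo
      rw [Set.indicator_of_notMem h1]
      have hDa := pair_abs ht0 hδ0.le hδα (α := α)
      have hGt := G_tail ha hs hij t
      have hnum := tail_num h500.le
      have k1 : |D * ∏ k ∈ R, gg (a k * t)| ≤
          1 / 20 * (t ^ 2) ^ 2 * δ ^ 2 * Wt t := by
        rw [abs_mul]
        exact mul_le_mul hDa hGt (abs_nonneg _) (by positivity)
      have k2 : 1 / 20 * (t ^ 2) ^ 2 * δ ^ 2 * Wt t =
          1 / 20 * δ ^ 2 * (t ^ 4 * Wt t) := by ring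
      have k3 : 1 / 20 * δ ^ 2 * (t ^ 4 * Wt t) ≤
          1 / 20 * δ ^ 2 * (1 / 10 ^ 6 * (1 + t ^ 2)⁻¹) :=
        mul_le_mul_of_nonneg_left hnum (by positivity)
      have k4 := (abs_le.1 k1).1
      have k5 : δ ^ 2 * (0 - 1 / 20 * (1 / 10 ^ 6) * (1 + t ^ 2)⁻¹) =
          -(1 / 20 * δ ^ 2 * (1 / 10 ^ 6 * (1 + t ^ 2)⁻¹)) := by ring
      rw [k5]
      linarith
  have hI := integral_mono (Lo_int.const_mul (δ ^ 2)) ((prod_int hb).sub (prod_int ha)) hpt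
  rw [integral_const_mul] at hI
  simp only [Pi.sub_apply] at hI
  rw [integral_sub (prod_int hb) (prod_int ha)] at hI
  have := mul_pos (pow_pos hδ0 2) Lo_pos
  unfold Vf
  linarith

end

end Agent238.L4
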