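import Pool.Agent.Helper238.L4.H

set_option autoImplicit false

open MeasureTheory Real Set Filter
open scoped Topology

namespace Agent238.L4

noncomputable section

variable {n : ℕ}

lemma four_rpow (x : ℝ) : |x| ^ (4 : ℝ) = x ^ 4 := by
  rw [show (4 : ℝ) = ((4 : ℕ) : ℝ) by norm_num, rpow_natCast,
    show (4 : ℕ) = 2 * 2 by norm_num, pow_mul, pow_mul, sq_abs]

/-- the section formula -/
lemma section_formula (hn : 2 ≤ n) {a : EuclideanSpace ℝ (Fin n)} (ha : ‖a‖ = 1) :
    (volume {x : GS.Hyp a | ∑ i, |(x : EuclideanSpace ℝ (Fin n)) i| ^ (4 : ℝ) ≤ 1}).toReal =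
      (2 * π)⁻¹ * ZZ ^ n / Gamma (((n : ℝ) - 1) / 4 + 1) * Vf a := by
  have hfr := GS.finrank_hyp a ha
  have hnt : Nontrivial (GS.Hyp a) := by
    have h : 0 < Module.finrank ℝ (GS.Hyp a) := by
      have h2 : (2 : ℝ) ≤ n := by exact_mod_cast hn
      have : (0 : ℝ) < (Module.finrank ℝ (GS.Hyp a) : ℝ) := by rw [hfr]; linarith
      exact_mod_cast this
    exact Module.nontrivial_of_finrank_pos h
  set g : GS.Hyp a → ℝ := fun x =>
    (∑ i, |(x : EuclideanSpace ℝ (Fin n)) i| ^ (4 : ℝ)) ^ (1 / (4 : ℝ)) with hg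
  have hs : ∀ x : GS.Hyp a, 0 ≤ ∑ i, |(x : EuclideanSpace ℝ (Fin n)) i| ^ (4 : ℝ) := fun x =>
    Finset.sum_nonneg fun i _ => by positivity
  have g1 : g 0 = 0 := by
    simp only [hg]
    simp [zero_rpow]
  have g2 : ∀ x, g (-x) = g x := by
    intro x; simp only [hg]; simp
  have g3 : ∀ x y, g (x + y) ≤ g x + g y := by
    intro x y
    simp only [hg]
    have := Real.Lp_add_le Finset.univ (fun i => (x : EuclideanSpace ℝ (Fin n)) i)
      (fun i => (y : EuclideanSpace ℝ (Fin n)) i) (p := 4) (by norm_num)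
    simpa using this
  have g4 : ∀ {x}, g x = 0 → x = 0 := by
    intro x hx
    simp only [hg] at hx
    rw [rpow_eq_zero (hs x) (by norm_num)] at hx
    have h0 := (Finset.sum_eq_zero_iff_of_nonneg fun i _ => by positivity).1 hx
    ext i
    have h1 := h0 i (Finset.mem_univ i)
    rw [four_rpow] at h1
    have h2 : (x : EuclideanSpace ℝ (Fin n)) i = 0 := pow_eq_zero_iff (n := 4) (by norm_num) |>.1 h1
    simpa using h2
  have g5 : ∀ (r : ℝ) x, g (r • x) ≤ |r| * g x := by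
    intro r x
    simp only [hg]
    have e : ∑ i, |((r • x : GS.Hyp a) : EuclideanSpace ℝ (Fin n)) i| ^ (4 : ℝ) =
        |r| ^ (4 : ℝ) * ∑ i, |(x : EuclideanSpace ℝ (Fin n)) i| ^ (4 : ℝ) := by
      rw [Finset.mul_sum]
      refine Finset.sum_congr rfl fun i _ => ?_
      rw [← mul_rpow (abs_nonneg _) (abs_nonneg _), ← abs_mul]
      simp
    rw [e, mul_rpow (by positivity) (hs x), ← rpow_mul (abs_nonneg _)]
    norm_num
  have hle := measure_le_eq_lt (volume : Measure (GS.Hyp a)) g1 g2 g3 g4 g5 1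
  have hlt := measure_lt_one_eq_integral_div_gamma (volume : Measure (GS.Hyp a)) g1 g2 g3 g4 g5
    (p := 4) (by norm_num)
  have hset : {x : GS.Hyp a | ∑ i, |(x : EuclideanSpace ℝ (Fin n)) i| ^ (4 : ℝ) ≤ 1} =
      {x : GS.Hyp a | g x ≤ 1} := by
    ext x
    simp only [Set.mem_ofPred_eq, hg]
    constructor
    · intro h; exact rpow_le_one (hs x) h (by norm_num)
    · intro h
      have h2 := rpow_le_rpow (rpow_nonneg (hs x) _) h (by norm_num : (0 : ℝ) ≤ 4)
      rw [← rpow_mul (hs x), one_rpow, show (1 / (4 : ℝ) * 4) = 1 by norm_num, rpow_one] at h2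
      exact h2
  rw [hset, hle, hlt]
  have hI : ∫ x : GS.Hyp a, exp (-g x ^ (4 : ℝ)) = (2 * π)⁻¹ * ZZ ^ n * Vf a := by
    have h := inv_rl one_pos ha
    have hk := kap_pos 1
    have e : ∀ x : GS.Hyp a, GS.GG (fun _ => rl 1) (x : EuclideanSpace ℝ (Fin n)) =
        kap 1 ^ n * exp (-g x ^ (4 : ℝ)) := by
      intro x
      have e1 : g x ^ (4 : ℝ) = ∑ i, (x : EuclideanSpace ℝ (Fin n)) i ^ 4 := by
        simp only [hg]
        rw [← rpow_mul (hs x), show (1 / (4 : ℝ) * 4) = 1 by norm_num, rpow_one]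
        exact Finset.sum_congr rfl fun i _ => four_rpow _
      rw [e1]
      unfold GS.GG rl
      rw [Finset.prod_mul_distrib, Finset.prod_const, Finset.card_univ, Fintype.card_fin]
      congr 1
      simp only [one_mul, rho]
      rw [← Real.exp_sum, Finset.sum_neg_distrib]
    simp_rw [e] at h
    rw [integral_const_mul, div_one, one_mul, mul_pow] at h
    have hkn : kap 1 ^ n ≠ 0 := (pow_pos hk n).ne'
    have h2 : kap 1 ^ n * ∫ x : GS.Hyp a, exp (-g x ^ (4 : ℝ)) =
        kap 1 ^ n * ((2 * π)⁻¹ * ZZ ^ n * Vf a) := by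
      rw [h]; ring
    exact mul_left_cancel₀ hkn h2
  rw [hI]
  have hG : 0 < Gamma (((n : ℝ) - 1) / 4 + 1) := by
    apply Gamma_pos_of_pos
    have h2 : (2 : ℝ) ≤ n := by exact_mod_cast hn
    linarith
  have hnn : 0 ≤ (2 * π)⁻¹ * ZZ ^ n * Vf a := by
    rw [← hI]; exact integral_nonneg fun x => (exp_pos _).le
  rw [ENNReal.toReal_ofReal, hfr]
  · ring
  · rw [hfr]; positivity

end

end Agent238.L4
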