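import Pool.Agent.Helper238.L4.M
import Pool.Agent.Helper238.L4.S
import Pool.Agent.Helper238.L4.H

set_option autoImplicit false

open MeasureTheory Real Set Filter
open scoped Topology FourierTransform

namespace Agent238.L4

noncomputable section

variable {n : ℕ}

/-- the diagonal direction -/
def dg (n : ℕ) : EuclideanSpace ℝ (Fin n) := WithLp.toLp 2 fun _ => (√(n : ℝ))⁻¹

lemma dg_apply (i : Fin n) : dg n i = (√(n : ℝ))⁻¹ := rfl

lemma dg_norm (hn : 1 ≤ n) : ‖dg n‖ = 1 := by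
  have h1 := EuclideanSpace.norm_sq_eq (dg n)
  simp only [Real.norm_eq_abs, sq_abs, dg_apply, inv_pow, Real.sq_sqrt (Nat.cast_nonneg n),
    Finset.sum_const, Finset.card_univ, Fintype.card_fin, nsmul_eq_mul] at h1
  have hn' : (n : ℝ) ≠ 0 := by
    have : (1 : ℝ) ≤ n := by exact_mod_cast hn
    linarith
  rw [mul_inv_cancel₀ hn'] at h1
  nlinarith [norm_nonneg (dg n)]

lemma Vf_dg (n : ℕ) : Vf (dg n) = ∫ t, gg ((√(n : ℝ))⁻¹ * t) ^ n := by
  unfold Vf
  congr 1
  funext t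
  simp only [dg_apply, Finset.prod_const, Finset.card_univ, Fintype.card_fin]

lemma Vf_const {a : EuclideanSpace ℝ (Fin n)} (h : ∀ i, |a i| = (√(n : ℝ))⁻¹) :
    Vf a = Vf (dg n) := by
  unfold Vf
  congr 1
  funext t
  refine Finset.prod_congr rfl fun i _ => ?_
  rw [gg_eq_Ph, gg_eq_Ph, ← sq_abs, h i, dg_apply]

lemma ptlim (t : ℝ) : Tendsto (fun n : ℕ => gg ((√(n : ℝ))⁻¹ * t) ^ n) atTop
    (𝓝 (exp (-(mom 1 / 2) * t ^ 2))) := by
  have hg : Tendsto (fun n : ℕ => (n : ℝ) * (gg ((√(n : ℝ))⁻¹ * t) - 1)) atTop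
      (𝓝 (-(mom 1 / 2) * t ^ 2)) := by
    have hsq : ∀ n : ℕ, ((√(n : ℝ))⁻¹ * t) ^ 2 = (n : ℝ)⁻¹ * t ^ 2 := fun n => by
      rw [mul_pow, inv_pow, Real.sq_sqrt (Nat.cast_nonneg n)]
    have hu : Tendsto (fun n : ℕ => -(mom 1 / 2) * t ^ 2 + 1 / 96 * t ^ 4 * (n : ℝ)⁻¹) atTop
        (𝓝 (-(mom 1 / 2) * t ^ 2 + 1 / 96 * t ^ 4 * 0)) :=
      tendsto_const_nhds.add (tendsto_const_nhds.mul tendsto_inv_atTop_nhds_zero_nat)
    rw [mul_zero, add_zero] at hu
    refine tendsto_of_tendsto_of_tendsto_of_le_of_le' tendsto_const_nhds hu ?_ ?_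
    · filter_upwards [eventually_ge_atTop 1] with n hn
      have hn' : (0 : ℝ) < n := by exact_mod_cast hn
      have h := gg_lo1 ((√(n : ℝ))⁻¹ * t)
      rw [hsq] at h
      have e : -(mom 1 / 2) * t ^ 2 = (n : ℝ) * (1 - mom 1 / 2 * ((n : ℝ)⁻¹ * t ^ 2) - 1) := by
        field_simp; ring
      rw [e]
      exact mul_le_mul_of_nonneg_left (by linarith) hn'.le
    · filter_upwards [eventually_ge_atTop 1] with n hn
      have hn' : (0 : ℝ) < n := by exact_mod_cast hn
      have h := gg_up2 ((√(n : ℝ))⁻¹ * t)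
      have h4 : ((√(n : ℝ))⁻¹ * t) ^ 4 = ((n : ℝ)⁻¹ * t ^ 2) ^ 2 := by
        rw [← hsq]; ring
      rw [hsq, h4] at h
      have e : -(mom 1 / 2) * t ^ 2 + 1 / 96 * t ^ 4 * (n : ℝ)⁻¹ =
          (n : ℝ) * (1 - mom 1 / 2 * ((n : ℝ)⁻¹ * t ^ 2) + 1 / 96 * ((n : ℝ)⁻¹ * t ^ 2) ^ 2 - 1) := by
        field_simp; ring
      rw [e]
      exact mul_le_mul_of_nonneg_left (by linarith) hn'.le
  have := Real.tendsto_one_add_pow_exp_of_tendsto hg
  simpa using this

lemma dg_lim : Tendsto (fun n : ℕ => Vf (dg n)) atTop (𝓝 VV) := by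
  have hV : VV = ∫ t, exp (-(mom 1 / 2) * t ^ 2) := by
    rw [integral_gaussian, VV]
    congr 1
    have := mom_pos 1
    field_simp
  rw [hV]
  simp_rw [Vf_dg]
  refine tendsto_integral_filter_of_dominated_convergence (fun t => (1 + t ^ 2 / 10)⁻¹) ?_ ?_ env_int
    (Eventually.of_forall fun t => ptlim t)
  · exact Eventually.of_forall fun n =>
      ((gg_cont.comp (by fun_prop)).pow n).aestronglyMeasurable
  · filter_upwards [eventually_ge_atTop 1] with n hn
    refine Eventually.of_forall fun t => ?_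
    have := prod_env1 (dg_norm hn) t
    simp only [dg_apply, Finset.prod_const, Finset.card_univ, Fintype.card_fin] at this
    rw [Real.norm_eq_abs]; exact this

/-! ### the far region -/

/-- the bound for directions with a large coordinate -/
def CM : ℝ := max (VV * (1 - yy ^ ((1000 : ℝ) - 2) * DD / VV) ^ (1 / (1000 : ℝ)))
  (max (VV * √(6760 / 6761)) (VV * √(9999 / 10000)))

lemma CM_lt : CM < VV := by
  have hV := VV_pos
  have hs : ∀ x : ℝ, x < 1 → VV * √x < VV := by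
    intro x hx
    have : √x < 1 := by rw [Real.sqrt_lt' one_pos]; linarith
    nlinarith
  refine max_lt ?_ (max_lt (hs _ (by norm_num)) (hs _ (by norm_num)))
  have hp : 0 < yy ^ ((1000 : ℝ) - 2) * DD := mul_pos (rpow_pos_of_pos yy_pos _) DD_pos
  have hb := ball_le (s := 1000) (by norm_num)
  have h0 : 0 ≤ ∫ t, |gg t| ^ (1000 : ℝ) := integral_nonneg fun t => by positivity
  have h1 : VV / √1000 ≤ VV := div_le_self hV.le (Real.one_le_sqrt.2 (by norm_num))
  have h2 : yy ^ ((1000 : ℝ) - 2) * DD / VV ≤ 1 := by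
    rw [div_le_one hV]
    exact (le_sub_comm.1 (h0.trans hb)).trans ((sub_zero _).le.trans h1)
  have h3 : 0 < yy ^ ((1000 : ℝ) - 2) * DD / VV := div_pos hp hV
  have h4 : (1 - yy ^ ((1000 : ℝ) - 2) * DD / VV) ^ (1 / (1000 : ℝ)) < 1 :=
    Real.rpow_lt_one (by linarith) (by linarith) (by norm_num)
  nlinarith

lemma far {a : EuclideanSpace ℝ (Fin n)} (ha : ‖a‖ = 1) {i : Fin n} (hi : 1 / 1000 ≤ a i ^ 2) :
    Vf a ≤ CM := by
  by_cases h : ∀ k, a k ^ 2 ≤ 1 / 2
  · exact (VregA ha h (N := 1000) (by norm_num) hi).trans (le_max_left _ _)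
  · push Not at h
    obtain ⟨k, hk⟩ := h
    rcases le_total (a k ^ 2) (6464 / 10000) with h2 | h2
    · exact (VregB ha hk.le h2).trans ((le_max_left _ _).trans (le_max_right _ _))
    · exact (VregC ha h2).trans ((le_max_right _ _).trans (le_max_right _ _))

/-- the Gaussian bound -/
lemma Vle {a : EuclideanSpace ℝ (Fin n)} (ha : ‖a‖ = 1) : Vf a ≤ VV := by
  by_cases h : ∀ k, a k ^ 2 ≤ 1 / 2
  · exact Vle_half ha h
  · push Not at h
    obtain ⟨k, hk⟩ := h
    exact (far ha (i := k) (by linarith)).trans CM_lt.le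

lemma Vf_cont : ContinuousOn (Vf (n := n)) (Metric.sphere 0 1) := by
  unfold Vf
  refine continuousOn_of_dominated (bound := fun t => (1 + t ^ 2 / 10)⁻¹) ?_ ?_ env_int ?_
  · exact fun a _ => (prod_cont fun i => a i).aestronglyMeasurable
  · intro a ha
    refine Eventually.of_forall fun t => ?_
    rw [Real.norm_eq_abs]
    exact prod_env1 (by simpa using ha) t
  · refine Eventually.of_forall fun t => Continuous.continuousOn ?_
    exact continuous_finsetProd _ fun i _ => gg_cont.comp (by fun_prop)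

lemma rigid {a : EuclideanSpace ℝ (Fin n)} (ha : ‖a‖ = 1) (h1 : CM < Vf a)
    (h2 : ∀ b : EuclideanSpace ℝ (Fin n), ‖b‖ = 1 → Vf b ≤ Vf a) (i : Fin n) :
    |a i| = (√(n : ℝ))⁻¹ := by
  have hs : ∀ k, a k ^ 2 ≤ 1 / 1000 := by
    intro k
    by_contra hk
    push Not at hk
    exact absurd (far ha hk.le) (not_le.2 h1)
  have he : ∀ k, a k ^ 2 = a i ^ 2 := by
    intro k
    by_contra hk
    have hki : k ≠ i := fun h => hk (by rw [h])
    exact absurd (h2 _ (eqv_norm ha hki)) (not_le.2 (near ha hs hki hk))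
  have h3 := sum_sq ha
  simp_rw [he] at h3
  rw [Finset.sum_const, Finset.card_univ, Fintype.card_fin, nsmul_eq_mul] at h3
  have hn : (0 : ℝ) < n := by
    have := i.pos
    exact_mod_cast this
  have h4 : a i ^ 2 = (n : ℝ)⁻¹ := by field_simp; linarith
  rw [← Real.sqrt_sq_eq_abs, h4, Real.sqrt_inv]

/-- the analytic core -/
theorem core : ∃ N : ℕ, ∀ n : ℕ, N ≤ n → ∀ a : EuclideanSpace ℝ (Fin n), ‖a‖ = 1 →
    Vf a ≤ Vf (dg n) ∧ (Vf a = Vf (dg n) ↔ ∀ i, |a i| = (√(n : ℝ))⁻¹) := by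
  have hev : ∀ᶠ n : ℕ in atTop, CM < Vf (dg n) := dg_lim.eventually (lt_mem_nhds CM_lt)
  obtain ⟨N, hN⟩ := eventually_atTop.1 hev
  refine ⟨max N 1, fun n hn a ha => ?_⟩
  have hn1 : 1 ≤ n := (le_max_right _ _).trans hn
  have hCM := hN n ((le_max_left _ _).trans hn)
  have hd := dg_norm hn1
  obtain ⟨b, hb, hmax⟩ := (isCompact_sphere (0 : EuclideanSpace ℝ (Fin n)) 1).exists_isMaxOn
    ⟨dg n, by simpa using hd⟩ (Vf_cont (n := n))
  have hb1 : ‖b‖ = 1 := by simpa using hb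
  have hmax' : ∀ c : EuclideanSpace ℝ (Fin n), ‖c‖ = 1 → Vf c ≤ Vf b := fun c hc =>
    hmax (show c ∈ Metric.sphere (0 : EuclideanSpace ℝ (Fin n)) 1 by simpa using hc)
  have hbC : CM < Vf b := hCM.trans_le (hmax' _ hd)
  have hbd : Vf b = Vf (dg n) := Vf_const (rigid hb1 hbC hmax')
  refine ⟨hbd ▸ hmax' a ha, ⟨fun h => ?_, fun h => Vf_const h⟩⟩
  refine rigid ha (h ▸ hCM) fun c hc => ?_
  rw [h, ← hbd]; exact hmax' c hc

/-! ### the coordinate direction -/

lemma gg_integral : ∫ t, gg t = 2 * π / ZZ := by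
  set f : ℝ → ℂ := fun x => ((rho x : ℝ) : ℂ) with hf
  have hfi : Integrable f := rho_int.ofReal
  have hF : 𝓕 f = fun w => ((ZZ * gg (2 * π * w) : ℝ) : ℂ) := funext fourier_rho
  have h2pi : (2 * π) ≠ 0 := by positivity
  have hFi : Integrable (𝓕 f) := by
    rw [hF]
    exact ((gg_int.comp_mul_left' h2pi).const_mul ZZ).ofReal
  have hfc : Continuous f := Complex.continuous_ofReal.comp rho_cont
  have h1 := hfi.fourierInv_fourier_eq hFi (v := 0) hfc.continuousAt
  rw [Real.fourierInv_eq'] at h1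
  simp only [inner_zero_right, mul_zero, Complex.ofReal_zero, zero_mul, Complex.exp_zero,
    one_smul] at h1
  rw [hF] at h1
  simp only at h1
  rw [integral_complex_ofReal, hf] at h1
  have h2 := Complex.ofReal_injective h1
  rw [integral_const_mul, Measure.integral_comp_mul_left (fun t => gg t) (2 * π),
    abs_of_pos (by positivity), smul_eq_mul] at h2
  have h3 : rho 0 = 1 := by unfold rho; norm_num
  rw [h3] at h2
  have hz := ZZ_pos
  field_simp at h2 ⊢
  linarith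

lemma Vf_single (i : Fin n) : Vf (EuclideanSpace.single i (1 : ℝ)) = 2 * π / ZZ := by
  rw [← gg_integral]
  unfold Vf
  congr 1
  funext t
  rw [Finset.prod_eq_single i]
  · simp
  · intro k _ hk
    simp [hk, gg_zero]
  · intro h; exact absurd (Finset.mem_univ i) h

end

end Agent238.L4
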