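import Pool.Agent.Helper238.L4.N

set_option autoImplicit false

open MeasureTheory Real Set Filter
open scoped Topology

namespace Agent238.L4

noncomputable section

variable {n : ℕ}

/-- signed bound on a longer interval -/
lemma W_nonpos {u v : ℝ} (hu : 0 < u) (huv : u ≤ v) (hv : v ≤ 1) :
    Q1 v * Ph u - Ph v * Q1 u ≤ 0 := by
  have hm := mom_pos 1
  have hml := mom_lo
  have hmu := mom_up
  have h1 := (abs_le.1 (Q1_lip hu huv)).2
  have hP0 : 0 ≤ Ph u := by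
    have := gg_lo1 (√u)
    rw [Real.sq_sqrt hu.le] at this
    unfold Ph; nlinarith
  have hP1 : Ph u ≤ 1 := (abs_le.1 (Ph_abs u)).2
  have hQu : Q1 u ≤ -(1481 / 10000) := by
    have := Q1_le hu; linarith
  have hPd : Ph v - Ph u ≤ -(1481 / 10000) * (v - u) := by
    have h := Convex.image_sub_le_mul_sub_of_deriv_le (D := Icc u v) (convex_Icc u v) (f := Ph)
      Ph_cont.continuousOn (fun x hx => by
        rw [interior_Icc] at hx
        exact (Ph_deriv (hu.trans hx.1)).differentiableAt.differentiableWithinAt)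
      (C := -(1481 / 10000)) (fun x hx => by
        rw [interior_Icc] at hx
        rw [(Ph_deriv (hu.trans hx.1)).deriv]
        have := Q1_le (hu.trans hx.1)
        have := hx.2
        linarith) u (left_mem_Icc.2 huv) v (right_mem_Icc.2 huv) huv
    exact h
  have e : Q1 v * Ph u - Ph v * Q1 u = (Q1 v - Q1 u) * Ph u - (Ph v - Ph u) * Q1 u := by ring
  rw [e]
  have a1 : (Q1 v - Q1 u) * Ph u ≤ (v - u) / 48 := by
    have : (Q1 v - Q1 u) * Ph u ≤ ((v - u) / 48) * Ph u := mul_le_mul_of_nonneg_right h1 hP0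
    have h0 : 0 ≤ (v - u) / 48 := by linarith
    nlinarith
  have a2 : 1481 / 10000 * (1481 / 10000) * (v - u) ≤ (Ph v - Ph u) * Q1 u := by
    have b1 : 0 ≤ v - u := by linarith
    nlinarith
  nlinarith

lemma pair_nonneg {α v δ : ℝ} (hv : 0 ≤ v) (h0 : 0 ≤ δ) (h : δ ≤ α) (hs : (α + δ) * v ≤ 1) :
    0 ≤ Ph (α * v) ^ 2 - Ph ((α + δ) * v) * Ph ((α - δ) * v) := by
  rcases eq_or_lt_of_le hv with hv0 | hv0
  · rw [← hv0]; simp [sq]
  have m2 : AntitoneOn (qq α v) (Icc 0 δ) := by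
    refine antitoneOn_of_deriv_nonpos (convex_Icc 0 δ) (qq_cont α v).continuousOn ?_ ?_
    · intro d hd
      rw [interior_Icc] at hd
      exact (qq_deriv hv0 hd.1 (hd.2.trans_le h)).differentiableAt.differentiableWithinAt
    · intro d hd
      rw [interior_Icc] at hd
      rw [(qq_deriv hv0 hd.1 (hd.2.trans_le h)).deriv]
      have hsd : (α + d) * v ≤ 1 := by
        have : (α + d) * v ≤ (α + δ) * v := by
          apply mul_le_mul_of_nonneg_right _ hv0.le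
          linarith [hd.2]
        linarith
      unfold qd
      have hu2 : 0 < (α - d) * v := mul_pos (by linarith [hd.2]) hv0
      have hle : (α - d) * v ≤ (α + d) * v := by nlinarith [hd.1]
      exact mul_nonpos_of_nonneg_of_nonpos hv0.le (W_nonpos hu2 hle hsd)
  have k2 := m2 (left_mem_Icc.2 h0) (right_mem_Icc.2 h0) h0
  simp only [qq, add_zero, sub_zero] at k2
  nlinarith

lemma exp_up2 {z : ℝ} (hz : 0 ≤ z) : exp (-z) ≤ 1 - z + z ^ 2 / 2 := by
  have h := exp_alt 3 z hz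
  simp only [eP, Finset.sum_range_succ, Finset.sum_range_zero] at h
  norm_num [Nat.factorial] at h
  nlinarith [h]

lemma exp_158 : 1 / 5 ≤ exp (-(1582 / 1000) : ℝ) := by
  have h1 := exp_lo6 (791 / 1000) (by norm_num)
  have h2 : exp (-(1582 / 1000) : ℝ) = exp (-(791 / 1000)) ^ 2 := by
    rw [← exp_nat_mul]; norm_num
  rw [h2]
  have h3 : (4475 / 10000 : ℝ) ≤ exp (-(791 / 1000)) := le_trans (by norm_num) h1
  nlinarith

lemma G_lo3 {a : EuclideanSpace ℝ (Fin n)} (ha : ‖a‖ = 1) (hs : ∀ k, a k ^ 2 ≤ 1 / 50)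
    (s : Finset (Fin n)) {t : ℝ} (ht : t ^ 2 ≤ 9) : 1 / 5 ≤ ∏ k ∈ s, gg (a k * t) := by
  have hm := mom_pos 1
  have hmu := mom_up
  have hfac : ∀ k ∈ s, exp (-(104 / 100 * (mom 1 / 2 * (a k * t) ^ 2))) ≤ gg (a k * t) := by
    intro k _
    have h0 : 0 ≤ mom 1 / 2 * (a k * t) ^ 2 := by positivity
    have h1 : mom 1 / 2 * (a k * t) ^ 2 ≤ 31 / 1000 := by
      rw [mul_pow]
      have := mul_le_mul (hs k) ht (sq_nonneg t) (by norm_num)
      nlinarith
    refine (exp_up2 (by positivity)).trans (le_trans ?_ (gg_lo1 (a k * t)))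
    set y := mom 1 / 2 * (a k * t) ^ 2
    nlinarith
  refine le_trans ?_ (Finset.prod_le_prod (fun k _ => (exp_pos _).le) hfac)
  rw [← Real.exp_sum]
  refine exp_158.trans (exp_le_exp.2 ?_)
  have hsum : ∑ k ∈ s, a k ^ 2 ≤ 1 := by
    rw [← sum_sq ha]
    exact Finset.sum_le_sum_of_subset_of_nonneg (Finset.subset_univ s) fun k _ _ => sq_nonneg _
  have hsum0 : 0 ≤ ∑ k ∈ s, a k ^ 2 := Finset.sum_nonneg fun k _ => sq_nonneg _
  have e : ∑ k ∈ s, -(104 / 100 * (mom 1 / 2 * (a k * t) ^ 2)) =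
      -(104 / 100 * (mom 1 / 2)) * t ^ 2 * ∑ k ∈ s, a k ^ 2 := by
    rw [Finset.mul_sum]
    exact Finset.sum_congr rfl fun k _ => by ring
  rw [e]
  have h7 : t ^ 2 * ∑ k ∈ s, a k ^ 2 ≤ 9 * 1 := mul_le_mul ht hsum hsum0 (by norm_num)
  nlinarith

lemma G_nonneg50 {a : EuclideanSpace ℝ (Fin n)} (hs : ∀ k, a k ^ 2 ≤ 1 / 50)
    (s : Finset (Fin n)) {t : ℝ} (ht : t ^ 2 ≤ 50) : 0 ≤ ∏ k ∈ s, gg (a k * t) := by
  have hm := mom_pos 1
  have hmu := mom_up
  refine Finset.prod_nonneg fun k _ => ?_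
  have h := gg_lo1 (a k * t)
  have h2 : (a k * t) ^ 2 ≤ 1 := by
    rw [mul_pow]
    have := mul_le_mul (hs k) ht (sq_nonneg t) (by norm_num)
    linarith
  nlinarith

/-- Gaussian bound for the remaining factors -/
lemma G_gauss {a : EuclideanSpace ℝ (Fin n)} (ha : ‖a‖ = 1) (hs : ∀ k, a k ^ 2 ≤ 1 / 50)
    {i j : Fin n} (hij : i ≠ j) {t : ℝ} (ht : t ^ 2 ≤ 338) :
    |∏ k ∈ (Finset.univ.erase i).erase j, gg (a k * t)| ≤ exp (-(162 / 1000 * t ^ 2)) := by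
  set R := (Finset.univ.erase i).erase j with hR
  have hl := mom_lo
  rw [Finset.abs_prod]
  have h1 : ∏ k ∈ R, |gg (a k * t)| ≤ ∏ k ∈ R, exp (-(mom 1 / 2 * (a k * t) ^ 2)) := by
    refine Finset.prod_le_prod (fun k _ => abs_nonneg _) fun k _ => ?_
    have h2 : (a k * t) ^ 2 ≤ (13 / 5) ^ 2 := by
      rw [mul_pow]
      have := mul_le_mul (hs k) ht (sq_nonneg t) (by norm_num)
      linarith
    have h3 : |a k * t| ≤ 13 / 5 := abs_le_of_sq_le_sq h2 (by norm_num)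
    exact dom_near _ h3
  refine h1.trans ?_
  rw [← Real.exp_sum]
  refine exp_le_exp.2 ?_
  have e : ∑ k ∈ R, -(mom 1 / 2 * (a k * t) ^ 2) = -(mom 1 / 2) * t ^ 2 * ∑ k ∈ R, a k ^ 2 := by
    rw [Finset.mul_sum]
    exact Finset.sum_congr rfl fun k _ => by ring
  rw [e]
  have h4 := sum_sq ha
  rw [sum_split (fun k => a k ^ 2) hij] at h4
  have h5 : (96 / 100 : ℝ) ≤ ∑ k ∈ R, a k ^ 2 := by
    have := hs i
    have := hs j
    simp only at h4
    linarith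
  have h6 : 162 / 1000 ≤ mom 1 / 2 * ∑ k ∈ R, a k ^ 2 := by nlinarith
  nlinarith [sq_nonneg t, mul_le_mul_of_nonneg_right h6 (sq_nonneg t)]

/-- the far tail envelope -/
def Wu (t : ℝ) : ℝ := ((1 + t ^ 2 / 500) ^ 48)⁻¹

lemma G_env {a : EuclideanSpace ℝ (Fin n)} (ha : ‖a‖ = 1) (hs : ∀ k, a k ^ 2 ≤ 1 / 50)
    {i j : Fin n} (hij : i ≠ j) (t : ℝ) :
    |∏ k ∈ (Finset.univ.erase i).erase j, gg (a k * t)| ≤ Wu t := by
  unfold Wu
  set R := (Finset.univ.erase i).erase j with hR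
  rw [Finset.abs_prod]
  have h1 : ∏ k ∈ R, |gg (a k * t)| ≤ ∏ k ∈ R, (1 + (a k * t) ^ 2 / 10)⁻¹ :=
    Finset.prod_le_prod (fun k _ => abs_nonneg _) fun k _ => envelope _
  refine h1.trans ?_
  rw [Finset.prod_inv_distrib]
  have hz : 1 ≤ 1 + t ^ 2 / 500 := by have := sq_nonneg t; linarith
  have hz0 : 0 < 1 + t ^ 2 / 500 := by linarith
  refine inv_anti₀ (pow_pos hz0 _) ?_
  have h2 : ∀ k ∈ R, (1 + t ^ 2 / 500) ^ (50 * a k ^ 2) ≤ 1 + (a k * t) ^ 2 / 10 := by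
    intro k _
    have := rpow_one_add_le_one_add_mul_self (s := t ^ 2 / 500) (p := 50 * a k ^ 2)
      (by have := sq_nonneg t; linarith) (by positivity) (by linarith [hs k])
    refine this.trans (le_of_eq ?_)
    ring
  have h3 : ∏ k ∈ R, (1 + t ^ 2 / 500) ^ (50 * a k ^ 2) ≤ ∏ k ∈ R, (1 + (a k * t) ^ 2 / 10) :=
    Finset.prod_le_prod (fun k _ => by positivity) h2
  refine le_trans ?_ h3
  rw [← Real.rpow_sum_of_pos hz0, ← Finset.mul_sum]
  have h4 := sum_sq ha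
  rw [sum_split (fun k => a k ^ 2) hij] at h4
  have h5 : (48 : ℝ) ≤ 50 * ∑ k ∈ R, a k ^ 2 := by
    have := hs i
    have := hs j
    simp only at h4
    linarith
  calc (1 + t ^ 2 / 500) ^ 48 = (1 + t ^ 2 / 500) ^ ((48 : ℕ) : ℝ) := (rpow_natCast _ _).symm
    _ ≤ _ := Real.rpow_le_rpow_of_exponent_le hz (by push_cast; exact h5)

lemma zlem2 {z : ℝ} (hz1 : 167 / 100 ≤ z) : (10 : ℝ) ^ 10 * z ^ 3 ≤ z ^ 48 := by
  have h15 : (2160 : ℝ) ≤ z ^ 15 := by
    calc (2160 : ℝ) ≤ (167 / 100) ^ 15 := by norm_num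
      _ ≤ z ^ 15 := pow_le_pow_left₀ (by norm_num) hz1 15
  have h : z ^ 48 = (z ^ 15) ^ 3 * z ^ 3 := by rw [← pow_mul, ← pow_add]
  have h2 : (2160 : ℝ) ^ 3 ≤ (z ^ 15) ^ 3 := pow_le_pow_left₀ (by norm_num) h15 3
  have h3 : (0 : ℝ) ≤ z ^ 3 := pow_nonneg (by linarith) 3
  rw [h]
  refine mul_le_mul_of_nonneg_right ?_ h3
  exact le_trans (by norm_num) h2

end

end Agent238.L4
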