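import Pool.Agent.Helper238.L4.P1

set_option autoImplicit false

open MeasureTheory Real Set Filter
open scoped Topology

namespace Agent238.L4

noncomputable section

variable {n : ℕ}

lemma abs_tail {m T : ℝ} (hm : 0 < m) (hT : 0 < T) :
    Integrable (fun t : ℝ => (Ioi T).indicator (fun t => exp (-m * t ^ 2)) |t|) ∧
      ∫ t, (Ioi T).indicator (fun t => exp (-m * t ^ 2)) |t| ≤ exp (-m * T ^ 2) / (m * T) := by
  have h3 := integral_comp_abs (f := (Ioi T).indicator (fun t => exp (-m * t ^ 2)))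
  have h4 : ∫ t in Ioi (0 : ℝ), (Ioi T).indicator (fun t => exp (-m * t ^ 2)) t =
      ∫ t in Ioi T, exp (-m * t ^ 2) := by
    rw [setIntegral_indicator measurableSet_Ioi]
    congr 2
    ext x; simp only [mem_inter_iff, mem_Ioi]
    constructor
    · exact fun h => h.2
    · exact fun h => ⟨by linarith, h⟩
  rw [h4] at h3
  have h5 := tail_int hm hT
  refine ⟨?_, ?_⟩
  · have hmeas : Measurable ((Ioi T).indicator (fun t => exp (-m * t ^ 2))) :=
      Measurable.indicator (by fun_prop) measurableSet_Ioi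
    refine (integrable_exp_neg_mul_sq hm).mono'
      (hmeas.comp (by fun_prop : Measurable fun t : ℝ => |t|)).aestronglyMeasurable
      (Eventually.of_forall fun t => ?_)
    by_cases h : T < |t|
    · rw [indicator_of_mem (by simpa using h), sq_abs, Real.norm_of_nonneg (exp_pos _).le]
    · rw [indicator_of_notMem (by simpa using h), norm_zero]
      exact (exp_pos _).le
  · rw [h3]
    have : exp (-m * T ^ 2) / (m * T) = 2 * (exp (-m * T ^ 2) / (2 * m * T)) := by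
      field_simp
    rw [this]
    linarith

/-- lower bound function -/
def Lp (t : ℝ) : ℝ :=
  (Icc (-3 : ℝ) 3).indicator (fun t => 84 / 100000 * t ^ 4) t -
    624 / 100 * (Ioi (7 : ℝ)).indicator (fun t => exp (-(102 / 1000) * t ^ 2)) |t| -
    1 / 20 * (125 / 10000) * (1 + t ^ 2)⁻¹

lemma Lp_int1 : Integrable ((Icc (-3 : ℝ) 3).indicator (fun t : ℝ => 84 / 100000 * t ^ 4)) := by
  rw [integrable_indicator_iff measurableSet_Icc]
  exact (by fun_prop : Continuous fun t : ℝ => 84 / 100000 * t ^ 4).continuousOn.integrableOn_Icc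

lemma Lp_int2 : Integrable fun t : ℝ =>
    (Ioi (7 : ℝ)).indicator (fun t => exp (-(102 / 1000) * t ^ 2)) |t| :=
  (abs_tail (m := 102 / 1000) (T := 7) (by norm_num) (by norm_num)).1

lemma Lp_int : Integrable Lp :=
  (Lp_int1.sub (Lp_int2.const_mul _)).sub (integrable_inv_one_add_sq.const_mul _)

lemma exp_49 : exp (-(102 / 1000) * 7 ^ 2 : ℝ) ≤ 76 / 10000 := by
  have h1 : exp (-(102 / 1000) * 7 ^ 2 : ℝ) ≤ exp (-(49 / 10)) := exp_le_exp.2 (by norm_num)
  refine h1.trans ?_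
  have h2 : exp (-(49 / 10) : ℝ) = exp (-(7 / 10)) ^ 7 := by
    rw [← exp_nat_mul]; norm_num
  have h3 := exp_alt 5 (7 / 10) (by norm_num)
  simp only [eP, Finset.sum_range_succ, Finset.sum_range_zero] at h3
  norm_num [Nat.factorial] at h3
  have h4 : exp (-(7 / 10) : ℝ) ≤ 4979 / 10000 := by linarith
  rw [h2]
  calc exp (-(7 / 10) : ℝ) ^ 7 ≤ (4979 / 10000) ^ 7 := pow_le_pow_left₀ (exp_pos _).le h4 7
    _ ≤ _ := by norm_num

lemma Lp_pos : 0 < ∫ t, Lp t := by
  unfold Lp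
  have hs1 := integral_sub (Lp_int1.sub (Lp_int2.const_mul (624 / 100)))
    (integrable_inv_one_add_sq.const_mul (1 / 20 * (125 / 10000)))
  have hs2 := integral_sub Lp_int1 (Lp_int2.const_mul (624 / 100))
  simp only [Pi.sub_apply] at hs1
  rw [hs1, hs2, integral_const_mul, integral_const_mul,
    integral_univ_inv_one_add_sq, integral_indicator measurableSet_Icc,
    integral_Icc_eq_integral_Ioc, ← intervalIntegral.integral_of_le (by norm_num)]
  rw [intervalIntegral.integral_const_mul, integral_pow]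
  have h1 := (abs_tail (m := 102 / 1000) (T := 7) (by norm_num) (by norm_num)).2
  have h2 := exp_49
  have h3 : exp (-(102 / 1000) * 7 ^ 2 : ℝ) / (102 / 1000 * 7) ≤ 107 / 10000 := by
    rw [div_le_iff₀ (by norm_num)]; linarith
  have h4 := h1.trans h3
  have := Real.pi_lt_d2
  norm_num at h4 ⊢
  linarith

lemma gauss_num {v : ℝ} (hv : 50 ≤ v) :
    1 / 20 * v ^ 2 * exp (-(162 / 1000 * v)) ≤ 624 / 100 * exp (-(102 / 1000) * v) := by
  have e1 : exp (-(162 / 1000 * v)) = exp (-(102 / 1000) * v) * exp (-(60 / 1000 * v)) := by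
    rw [← exp_add]; congr 1; ring
  have h1 : v ^ 2 * exp (-(60 / 1000 * v)) ≤ 1248 / 10 := by
    obtain ⟨y, hy⟩ : ∃ y, v = 50 + y := ⟨v - 50, by ring⟩
    have hy0 : 0 ≤ y := by linarith
    have e2 : exp (-(60 / 1000 * v)) = (exp 3 * exp (60 / 1000 * y))⁻¹ := by
      rw [← exp_add, ← exp_neg]; congr 1; rw [hy]; ring
    rw [e2, ← div_eq_mul_inv, div_le_iff₀ (by positivity)]
    have e3 : (2008 / 100 : ℝ) ≤ exp 3 := by
      have h := Real.exp_one_gt_d9
      have : exp 3 = exp 1 ^ 3 := by rw [← exp_nat_mul]; norm_num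
      rw [this]
      calc (2008 / 100 : ℝ) ≤ (2.7182818283 : ℝ) ^ 3 := by norm_num
        _ ≤ exp 1 ^ 3 := pow_le_pow_left₀ (by norm_num) h.le 3
    have e4 : 1 + 60 / 1000 * y + (60 / 1000 * y) ^ 2 / 2 ≤ exp (60 / 1000 * y) :=
      Real.quadratic_le_exp_of_nonneg (by positivity)
    have e5 : 2008 / 100 * (1 + 60 / 1000 * y + (60 / 1000 * y) ^ 2 / 2) ≤
        exp 3 * exp (60 / 1000 * y) := mul_le_mul e3 e4 (by positivity) (exp_pos _).le
    rw [hy]
    nlinarith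
  rw [e1]
  have h0 := exp_pos (-(102 / 1000) * v)
  nlinarith [mul_le_mul_of_nonneg_right h1 h0.le]

lemma tail_aux2 {t z y : ℝ} (hz1 : 167 / 100 ≤ z) (hzl : (10 : ℝ) ^ 10 * z ^ 3 ≤ y)
    (h2 : t ^ 2 ≤ 500 * z) (h3 : 1 + t ^ 2 ≤ 500 * z) :
    t ^ 4 * y⁻¹ ≤ 125 / 10000 * (1 + t ^ 2)⁻¹ := by
  have h1p : 0 < 1 + t ^ 2 := by positivity
  have hz0 : 0 < z := by linarith
  have hy : 0 < y := lt_of_lt_of_le (by positivity) hzl
  have e1 : t ^ 4 * (1 + t ^ 2) ≤ 500 ^ 3 * z ^ 3 := by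
    have h4 : t ^ 4 = t ^ 2 * t ^ 2 := by ring
    have h5 : t ^ 2 * t ^ 2 ≤ (500 * z) * (500 * z) :=
      mul_le_mul h2 h2 (sq_nonneg t) (by positivity)
    calc t ^ 4 * (1 + t ^ 2) ≤ ((500 * z) * (500 * z)) * (500 * z) := by
          rw [h4]; exact mul_le_mul h5 h3 h1p.le (by positivity)
      _ = _ := by ring
  rw [← div_eq_mul_inv, ← div_eq_mul_inv, div_le_div_iff₀ hy h1p]
  have e6 : 500 ^ 3 * z ^ 3 = 125 / 10000 * (10 ^ 10 * z ^ 3) := by ring
  calc t ^ 4 * (1 + t ^ 2) ≤ 500 ^ 3 * z ^ 3 := e1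
    _ = 125 / 10000 * (10 ^ 10 * z ^ 3) := e6
    _ ≤ 125 / 10000 * y := mul_le_mul_of_nonneg_left hzl (by norm_num)

lemma tail_num2 {t : ℝ} (ht : 338 ≤ t ^ 2) :
    t ^ 4 * Wu t ≤ 125 / 10000 * (1 + t ^ 2)⁻¹ := by
  have hz1 : 167 / 100 ≤ 1 + t ^ 2 / 500 := by linarith
  have h2 : t ^ 2 ≤ 500 * (1 + t ^ 2 / 500) := by linarith
  have h3 : 1 + t ^ 2 ≤ 500 * (1 + t ^ 2 / 500) := by linarith
  exact tail_aux2 (y := (1 + t ^ 2 / 500) ^ 48) hz1 (zlem2 hz1) h2 h3

/-- Two different squares, all squares at most `1/50`: equalising is a strict gain. -/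
lemma near50 {a : EuclideanSpace ℝ (Fin n)} (ha : ‖a‖ = 1) (hs : ∀ k, a k ^ 2 ≤ 1 / 50)
    {i j : Fin n} (hij : i ≠ j) (hne : a i ^ 2 ≠ a j ^ 2) : Vf a < Vf (eqv a i j) := by
  wlog hle : a j ^ 2 ≤ a i ^ 2 with H
  · have := H ha hs hij.symm hne.symm (le_of_not_ge hle)
    rwa [eqv_symm] at this
  have hb := eqv_norm ha hij
  set α := (a i ^ 2 + a j ^ 2) / 2 with hα
  set δ := (a i ^ 2 - a j ^ 2) / 2 with hδ
  have hδ0 : 0 < δ := by
    have : a j ^ 2 < a i ^ 2 := lt_of_le_of_ne hle hne.symm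
    rw [hδ]; linarith
  have hδα : δ ≤ α := by
    have := sq_nonneg (a j)
    rw [hδ, hα]; linarith
  have hαs : α + δ ≤ 1 / 50 := by
    have := hs i
    rw [hδ, hα]; linarith
  set R := (Finset.univ.erase i).erase j with hR
  have ea : ∀ t, ∏ k, gg (a k * t) =
      Ph ((α + δ) * t ^ 2) * Ph ((α - δ) * t ^ 2) * ∏ k ∈ R, gg (a k * t) := by
    intro t
    rw [prod_split (fun k => gg (a k * t)) hij, gg_eq_Ph (a i), gg_eq_Ph (a j)]
    have e1 : α + δ = a i ^ 2 := by rw [hα, hδ]; ring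
    have e2 : α - δ = a j ^ 2 := by rw [hα, hδ]; ring
    rw [e1, e2]; ring
  have eb : ∀ t, ∏ k, gg (eqv a i j k * t) = Ph (α * t ^ 2) ^ 2 * ∏ k ∈ R, gg (a k * t) := by
    intro t
    rw [prod_split (fun k => gg (eqv a i j k * t)) hij]
    have e1 : gg (eqv a i j i * t) = Ph (α * t ^ 2) := by
      rw [gg_eq_Ph, eqv_apply, if_pos (Or.inl rfl), Real.sq_sqrt (by positivity)]
    have e2 : gg (eqv a i j j * t) = Ph (α * t ^ 2) := by
      rw [gg_eq_Ph, eqv_apply, if_pos (Or.inr rfl), Real.sq_sqrt (by positivity)]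
    have e3 : ∏ k ∈ (Finset.univ.erase i).erase j, gg (eqv a i j k * t) =
        ∏ k ∈ R, gg (a k * t) := Finset.prod_congr rfl fun k hk => by rw [eqv_other a hk]
    rw [e1, e2, e3]; ring
  have hpt : ∀ t, δ ^ 2 * Lp t ≤ ∏ k, gg (eqv a i j k * t) - ∏ k, gg (a k * t) := by
    intro t
    rw [ea, eb]
    have e : Ph (α * t ^ 2) ^ 2 * ∏ k ∈ R, gg (a k * t) -
        Ph ((α + δ) * t ^ 2) * Ph ((α - δ) * t ^ 2) * ∏ k ∈ R, gg (a k * t) =
        (Ph (α * t ^ 2) ^ 2 - Ph ((α + δ) * t ^ 2) * Ph ((α - δ) * t ^ 2)) *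
          ∏ k ∈ R, gg (a k * t) := by ring
    rw [e]
    set D := Ph (α * t ^ 2) ^ 2 - Ph ((α + δ) * t ^ 2) * Ph ((α - δ) * t ^ 2) with hD
    have ht0 := sq_nonneg t
    have hinv : 0 < (1 + t ^ 2)⁻¹ := by positivity
    have hd2 : 0 < δ ^ 2 := by positivity
    have hind : 0 ≤ (Ioi (7 : ℝ)).indicator (fun t => exp (-(102 / 1000) * t ^ 2)) |t| :=
      Set.indicator_nonneg (fun _ _ => (exp_pos _).le) _
    have k2 : 0 ≤ δ ^ 2 * (1 / 20 * (125 / 10000) * (1 + t ^ 2)⁻¹) := by positivity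
    have k3 : 0 ≤ δ ^ 2 * (624 / 100 *
        (Ioi (7 : ℝ)).indicator (fun t => exp (-(102 / 1000) * t ^ 2)) |t|) := by positivity
    have eL : δ ^ 2 * Lp t = δ ^ 2 * (Icc (-3 : ℝ) 3).indicator (fun t => 84 / 100000 * t ^ 4) t -
        δ ^ 2 * (624 / 100 * (Ioi (7 : ℝ)).indicator (fun t => exp (-(102 / 1000) * t ^ 2)) |t|) -
        δ ^ 2 * (1 / 20 * (125 / 10000) * (1 + t ^ 2)⁻¹) := by
      unfold Lp; ring
    rw [eL]
    by_cases h3 : t ∈ Icc (-3 : ℝ) 3
    · have ht9 : t ^ 2 ≤ 9 := by nlinarith [h3.1, h3.2]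
      have hsm : (α + δ) * t ^ 2 ≤ 1 / 2 := by
        have := mul_le_mul hαs ht9 ht0 (by norm_num)
        linarith
      have hDp := pair_neg ht0 hδ0.le hδα hsm
      have hG := G_lo3 ha hs R ht9
      rw [Set.indicator_of_mem h3]
      have k1 : 42 / 10000 * (t ^ 2) ^ 2 * δ ^ 2 * (1 / 5) ≤ D * ∏ k ∈ R, gg (a k * t) :=
        mul_le_mul hDp hG (by norm_num) (le_trans (by positivity) hDp)
      have k4 : 42 / 10000 * (t ^ 2) ^ 2 * δ ^ 2 * (1 / 5) = δ ^ 2 * (84 / 100000 * t ^ 4) := by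
        ring
      linarith
    · rw [Set.indicator_of_notMem h3, mul_zero]
      rcases le_or_gt (t ^ 2) 50 with h50 | h50
      · have hsm : (α + δ) * t ^ 2 ≤ 1 := by
          have := mul_le_mul hαs h50 ht0 (by norm_num)
          linarith
        have hDp := pair_nonneg ht0 hδ0.le hδα hsm
        have hG := G_nonneg50 hs R h50
        have k1 : 0 ≤ D * ∏ k ∈ R, gg (a k * t) := mul_nonneg hDp hG
        linarith
      · have hDa := pair_abs ht0 hδ0.le hδα (α := α)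
        rcases le_or_gt (t ^ 2) 338 with h338 | h338
        · have hGg := G_gauss ha hs hij h338
          have k1 : |D * ∏ k ∈ R, gg (a k * t)| ≤
              1 / 20 * (t ^ 2) ^ 2 * δ ^ 2 * exp (-(162 / 1000 * t ^ 2)) := by
            rw [abs_mul]
            exact mul_le_mul hDa hGg (abs_nonneg _) (by positivity)
          have hnum := gauss_num h50.le
          have h7 : (7 : ℝ) < |t| := by
            by_contra hc
            push Not at hc
            have : t ^ 2 ≤ 7 ^ 2 := by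
              rw [← sq_abs]; exact pow_le_pow_left₀ (abs_nonneg t) hc 2
            linarith
          rw [Set.indicator_of_mem (show |t| ∈ Ioi (7 : ℝ) from h7), sq_abs]
          have k4 := (abs_le.1 k1).1
          have k5 : 1 / 20 * (t ^ 2) ^ 2 * δ ^ 2 * exp (-(162 / 1000 * t ^ 2)) ≤
              δ ^ 2 * (624 / 100 * exp (-(102 / 1000) * t ^ 2)) := by
            calc 1 / 20 * (t ^ 2) ^ 2 * δ ^ 2 * exp (-(162 / 1000 * t ^ 2)) =
                δ ^ 2 * (1 / 20 * (t ^ 2) ^ 2 * exp (-(162 / 1000 * t ^ 2))) := by ring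
              _ ≤ _ := mul_le_mul_of_nonneg_left hnum hd2.le
          linarith
        · have hGt := G_env ha hs hij t
          have hnum := tail_num2 h338.le
          have k1 : |D * ∏ k ∈ R, gg (a k * t)| ≤ 1 / 20 * (t ^ 2) ^ 2 * δ ^ 2 * Wu t := by
            rw [abs_mul]
            exact mul_le_mul hDa hGt (abs_nonneg _) (by positivity)
          have k4 := (abs_le.1 k1).1
          have k6 : 1 / 20 * (t ^ 2) ^ 2 * δ ^ 2 * Wu t = 1 / 20 * δ ^ 2 * (t ^ 4 * Wu t) := by ring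
          have k7 : 1 / 20 * δ ^ 2 * (t ^ 4 * Wu t) ≤
              1 / 20 * δ ^ 2 * (125 / 10000 * (1 + t ^ 2)⁻¹) :=
            mul_le_mul_of_nonneg_left hnum (by positivity)
          have k8 : δ ^ 2 * (1 / 20 * (125 / 10000) * (1 + t ^ 2)⁻¹) =
              1 / 20 * δ ^ 2 * (125 / 10000 * (1 + t ^ 2)⁻¹) := by ring
          linarith
  have hI := integral_mono (Lp_int.const_mul (δ ^ 2)) ((prod_int hb).sub (prod_int ha)) hpt
  rw [integral_const_mul] at hI
  simp only [Pi.sub_apply] at hI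
  rw [integral_sub (prod_int hb) (prod_int ha)] at hI
  have := mul_pos (pow_pos hδ0 2) Lp_pos
  unfold Vf
  linarith

end

end Agent238.L4
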