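import Pool.Agent.Helper238.L4.G

set_option autoImplicit false

open MeasureTheory Real Set Filter
open scoped Topology

namespace Agent238.L4

noncomputable section

variable {n : ℕ}

lemma pt_all {s : ℝ} (hs : 2 ≤ s) (t : ℝ) : |gg t| ^ s ≤ ga t ^ s - yy ^ (s - 2) *
    ((Icc (-(13 / 5) : ℝ) (13 / 5)).indicator (fun t => ga t ^ 2) t - gg t ^ 2) := by
  have hy := yy_pos
  have hg := ga_pos t
  have ha := abs_nonneg (gg t)
  have e1 : ga t ^ s = ga t ^ (s - 2) * ga t ^ 2 := by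
    rw [← rpow_natCast (ga t) 2, ← rpow_add hg]; congr 1; push_cast; ring
  have e2 : |gg t| ^ s = |gg t| ^ (s - 2) * gg t ^ 2 := by
    rw [← sq_abs (gg t)]
    rcases ha.eq_or_lt with h | h
    · rw [← h, zero_rpow (by linarith)]; ring
    · rw [← rpow_natCast |gg t| 2, ← rpow_add h]; congr 1; push_cast; ring
  rw [e1, e2]
  by_cases h : |t| ≤ 13 / 5
  · rw [indicator_of_mem (mem_Icc.2 (abs_le.1 h))]
    have hd := dom_near t h
    have h1 : |gg t| ^ (s - 2) ≤ ga t ^ (s - 2) := rpow_le_rpow ha hd (by linarith)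
    have h2 : gg t ^ 2 ≤ ga t ^ 2 := by rw [← sq_abs (gg t)]; gcongr
    have h3 : yy ≤ ga t := by
      unfold yy ga
      apply exp_le_exp.2
      have hm := mom_pos 1
      have : t ^ 2 ≤ (13 / 5) ^ 2 := sq_le_sq' (by linarith [(abs_le.1 h).1]) (abs_le.1 h).2
      nlinarith
    have h4 : yy ^ (s - 2) ≤ ga t ^ (s - 2) := rpow_le_rpow hy.le h3 (by linarith)
    have h5 : |gg t| ^ (s - 2) * gg t ^ 2 ≤ ga t ^ (s - 2) * gg t ^ 2 :=
      mul_le_mul_of_nonneg_right h1 (sq_nonneg _)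
    nlinarith [mul_nonneg (sub_nonneg.2 h4) (sub_nonneg.2 h2)]
  · rw [indicator_of_notMem (by rwa [mem_Icc, ← abs_le])]
    push Not at h
    have hd := dom_far t h.le
    have h1 : |gg t| ^ (s - 2) ≤ yy ^ (s - 2) := rpow_le_rpow ha hd (by linarith)
    have h2 : 0 ≤ ga t ^ (s - 2) * ga t ^ 2 := by positivity
    have h5 : |gg t| ^ (s - 2) * gg t ^ 2 ≤ yy ^ (s - 2) * gg t ^ 2 :=
      mul_le_mul_of_nonneg_right h1 (sq_nonneg _)
    linarith

lemma ga_le_one (t : ℝ) : ga t ≤ 1 := by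
  unfold ga
  rw [exp_le_one_iff]
  have := mom_pos 1
  have := sq_nonneg t
  nlinarith [mul_nonneg (mom_pos 1).le (sq_nonneg t)]

/-- quartic improvement of the Gaussian domination near the origin -/
lemma quart {t : ℝ} (ht : |t| ≤ 1) : 0 ≤ gg t ∧ gg t ≤ ga t * exp (-(3 / 1000 * t ^ 4)) := by
  have hw : t ^ 2 ≤ 1 := by
    rw [← sq_abs]; nlinarith [abs_nonneg t]
  have hw0 : 0 ≤ t ^ 2 := sq_nonneg t
  have hm := mom_pos 1
  have hmu := mom_up
  have hml := mom_lo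
  have h1 := gg_up2 t
  have h2 := gg_lo1 t
  have e4 : t ^ 4 = (t ^ 2) ^ 2 := by ring
  have h3 := exp_alt 4 (mom 1 / 2 * t ^ 2) (by positivity)
  simp only [eP, Finset.sum_range_succ, Finset.sum_range_zero] at h3
  norm_num [Nat.factorial] at h3
  refine ⟨by nlinarith, ?_⟩
  have h4 : 1 - 3 / 1000 * t ^ 4 ≤ exp (-(3 / 1000 * t ^ 4)) := by
    have := Real.add_one_le_exp (-(3 / 1000 * t ^ 4)); linarith
  have hg0 := ga_pos t
  have hg1 := ga_le_one t
  have h5 : ga t * (1 - 3 / 1000 * t ^ 4) ≤ ga t * exp (-(3 / 1000 * t ^ 4)) :=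
    mul_le_mul_of_nonneg_left h4 hg0.le
  refine le_trans ?_ h5
  have h6 : ga t - 3 / 1000 * t ^ 4 ≤ ga t * (1 - 3 / 1000 * t ^ 4) := by
    have : 0 ≤ 3 / 1000 * t ^ 4 := by positivity
    nlinarith
  refine le_trans ?_ h6
  have h7 : 1 - mom 1 / 2 * t ^ 2 + (mom 1 / 2 * t ^ 2) ^ 2 / 2 - (mom 1 / 2 * t ^ 2) ^ 3 / 6 ≤
      ga t := by
    unfold ga
    nlinarith [h3]
  refine le_trans ?_ (sub_le_sub_right h7 _)
  refine h1.trans ?_
  rw [e4]
  set w := t ^ 2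
  set m := mom 1
  have c1 : (3379 / 10000) ^ 2 ≤ m ^ 2 := by gcongr
  have c2 : m ^ 3 ≤ (338 / 1000) ^ 3 := by gcongr
  have key : 0 ≤ w ^ 2 * (m ^ 2 / 8 - m ^ 3 / 48 * w - 1 / 96 - 3 / 1000) := by
    refine mul_nonneg (by positivity) ?_
    have c3 : m ^ 3 / 48 * w ≤ (338 / 1000) ^ 3 / 48 * 1 := by
      apply mul_le_mul _ hw hw0 (by norm_num)
      linarith
    norm_num at c1 c3 ⊢
    linarith
  nlinarith [key]

lemma exp_973 : exp (-(1946 / 1000) : ℝ) ≤ 15 / 100 := by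
  have h := exp_alt 5 (973 / 1000) (by norm_num)
  simp only [eP, Finset.sum_range_succ, Finset.sum_range_zero] at h
  norm_num [Nat.factorial] at h
  have h4 : exp (-(973 / 1000) : ℝ) ≤ 3843 / 10000 := by linarith
  have h2 : exp (-(1946 / 1000) : ℝ) = exp (-(973 / 1000)) ^ 2 := by
    rw [← exp_nat_mul]; norm_num
  rw [h2]
  calc exp (-(973 / 1000) : ℝ) ^ 2 ≤ (3843 / 10000) ^ 2 := pow_le_pow_left₀ (exp_pos _).le h4 2
    _ ≤ _ := by norm_num

lemma pt_gain {s t : ℝ} (hs : 4 ≤ s) (ht : |t| ≤ 1) (hz : 3 / 1000 * (s * t ^ 4) ≤ 6 / 100) :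
    |gg t| ^ s ≤ ga t ^ s - 24 / 10000 * (s * t ^ 4) * ga t ^ s -
      yy ^ (s - 2) * (ga t ^ 2 - gg t ^ 2) := by
  obtain ⟨hg0, hg1⟩ := quart ht
  have hy := yy_pos
  have hA := ga_pos t
  rw [abs_of_nonneg hg0]
  set A := ga t with hAd
  set B := gg t with hBd
  have hs0 : 0 < s := by linarith
  have ht4 : 0 ≤ t ^ 4 := by positivity
  obtain ⟨z, hzd⟩ : ∃ z, z = 3 / 1000 * (s * t ^ 4) := ⟨_, rfl⟩
  have hz0 : 0 ≤ z := by rw [hzd]; positivity
  have hBs : B ^ s ≤ A ^ s * exp (-z) := by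
    calc B ^ s ≤ (A * exp (-(3 / 1000 * t ^ 4))) ^ s := rpow_le_rpow hg0 hg1 hs0.le
      _ = A ^ s * exp (-z) := by
        rw [mul_rpow hA.le (exp_pos _).le, ← exp_mul, hzd]; congr 2; ring
  have hez : exp (-z) ≤ 1 - 97 / 100 * z := by
    have h := exp_alt 3 z hz0
    simp only [eP, Finset.sum_range_succ, Finset.sum_range_zero] at h
    norm_num [Nat.factorial] at h
    rw [← hzd] at hz
    nlinarith [h]
  have hAs : 0 < A ^ s := rpow_pos_of_pos hA s
  have hP : 97 / 100 * z * A ^ s ≤ A ^ s - B ^ s := by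
    have := mul_le_mul_of_nonneg_left hez hAs.le
    nlinarith
  -- the ratio
  have hratio : (yy / A) ^ 2 ≤ 15 / 100 := by
    have hm := mom_pos 1
    have hml := mom_lo
    have e : (yy / A) ^ 2 = exp (-(mom 1 * (169 / 25 - t ^ 2))) := by
      rw [hAd]; unfold yy ga
      rw [← exp_sub, ← exp_nat_mul]; congr 1; push_cast; ring
    rw [e]
    refine le_trans (exp_le_exp.2 ?_) exp_973
    have hw : t ^ 2 ≤ 1 := by
      rw [← sq_abs]; nlinarith [abs_nonneg t]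
    nlinarith
  have hr0 : 0 < yy / A := div_pos hy hA
  have hr1 : yy / A ≤ 1 := by nlinarith
  have hr2 : (yy / A) ^ (s - 2) ≤ 15 / 100 := by
    calc (yy / A) ^ (s - 2) ≤ (yy / A) ^ (2 : ℝ) :=
          rpow_le_rpow_of_exponent_ge hr0 hr1 (by linarith)
      _ = (yy / A) ^ 2 := by
          rw [show (2 : ℝ) = ((2 : ℕ) : ℝ) by norm_num, rpow_natCast]
      _ ≤ _ := hratio
  have hyA : yy ^ (s - 2) ≤ 15 / 100 * A ^ (s - 2) := by
    have : yy ^ (s - 2) = (yy / A) ^ (s - 2) * A ^ (s - 2) := by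
      rw [← mul_rpow hr0.le hA.le, div_mul_cancel₀ _ hA.ne']
    rw [this]
    exact mul_le_mul_of_nonneg_right hr2 (rpow_nonneg hA.le _)
  have hBA : B ≤ A := by
    refine hg1.trans ?_
    have : exp (-(3 / 1000 * t ^ 4)) ≤ 1 := by
      rw [exp_le_one_iff]; nlinarith
    nlinarith
  have hd2 : 0 ≤ A ^ 2 - B ^ 2 := by nlinarith
  have e1 : A ^ s = A ^ (s - 2) * A ^ 2 := by
    rw [← rpow_natCast A 2, ← rpow_add hA]; congr 1; push_cast; ring
  have e2 : B ^ s ≤ A ^ (s - 2) * B ^ 2 := by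
    have : B ^ s = B ^ (s - 2) * B ^ 2 := by
      rcases hg0.eq_or_lt with h | h
      · rw [← h, zero_rpow (by linarith)]; ring
      · rw [← rpow_natCast B 2, ← rpow_add h]; congr 1; push_cast; ring
    rw [this]
    exact mul_le_mul_of_nonneg_right (rpow_le_rpow hg0 hBA (by linarith)) (sq_nonneg _)
  have h6 : yy ^ (s - 2) * (A ^ 2 - B ^ 2) ≤ 15 / 100 * (A ^ s - B ^ s) := by
    calc yy ^ (s - 2) * (A ^ 2 - B ^ 2) ≤ 15 / 100 * A ^ (s - 2) * (A ^ 2 - B ^ 2) :=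
          mul_le_mul_of_nonneg_right hyA hd2
      _ = 15 / 100 * (A ^ s - A ^ (s - 2) * B ^ 2) := by rw [e1]; ring
      _ ≤ _ := by linarith
  have h7 : 24 / 10000 * (s * t ^ 4) * A ^ s ≤ 85 / 100 * (97 / 100 * z * A ^ s) := by
    have e3 : 85 / 100 * (97 / 100 * z * A ^ s) = 85 / 100 * (97 / 100) * (3 / 1000) *
        ((s * t ^ 4) * A ^ s) := by rw [hzd]; ring
    rw [e3]
    have : 0 ≤ (s * t ^ 4) * A ^ s := by positivity
    nlinarith
  linarith

end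

end Agent238.L4
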