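import Pool.Agent.Helper238.L4.P3

set_option autoImplicit false

open MeasureTheory Real Set Filter
open scoped Topology

namespace Agent238.L4

noncomputable section

variable {n : ℕ}

/-- truncated fourth moment -/
def JR (R : ℝ) : ℝ := ∫ t, (Icc (-R) R).indicator (fun t => t ^ 4 * exp (-(mom 1 / 2) * t ^ 2)) t

lemma JR_int (R : ℝ) :
    Integrable ((Icc (-R) R).indicator (fun t : ℝ => t ^ 4 * exp (-(mom 1 / 2) * t ^ 2))) := by
  rw [integrable_indicator_iff measurableSet_Icc]
  exact (by fun_prop : Continuous fun t : ℝ =>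
    t ^ 4 * exp (-(mom 1 / 2) * t ^ 2)).continuousOn.integrableOn_Icc

lemma factor_gain {x R : ℝ} (hx : 0 < x) (hx4 : x ≤ 1 / 4) (hR : x * R ^ 2 ≤ 1)
    (hR4 : x * R ^ 4 ≤ 20) :
    ∫ t, |gg (√x * t)| ^ (1 / x) ≤ VV - 24 / 10000 * x * JR R := by
  have hm := mom_pos 1
  have hsx : 0 < √x := Real.sqrt_pos.2 hx
  have hs4 : 4 ≤ 1 / x := by rw [le_div_iff₀ hx]; linarith
  have hga : ∀ t, ga (√x * t) ^ (1 / x) = exp (-(mom 1 / 2) * t ^ 2) := by
    intro t
    rw [ga_pow, mul_pow, Real.sq_sqrt hx.le]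
    congr 1
    field_simp
  set F : ℝ → ℝ := fun t => (Icc (-(13 / 5) : ℝ) (13 / 5)).indicator (fun t => ga t ^ 2) t -
    gg t ^ 2 with hF
  have hFi : Integrable F := ind_int.sub gg_sq_int
  have hFD : ∫ t, F t = DD := by
    rw [hF]
    exact integral_sub ind_int gg_sq_int
  set H : ℝ → ℝ := (Icc (-R) R).indicator (fun t => t ^ 4 * exp (-(mom 1 / 2) * t ^ 2)) with hH
  have hpt : ∀ t, |gg (√x * t)| ^ (1 / x) ≤ exp (-(mom 1 / 2) * t ^ 2) -
      yy ^ (1 / x - 2) * F (√x * t) - 24 / 10000 * x * H t := by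
    intro t
    rw [← hga t]
    by_cases h : t ∈ Icc (-R) R
    · have htR : |t| ≤ R := abs_le.2 h
      have ht2 : t ^ 2 ≤ R ^ 2 := by
        rw [← sq_abs]; exact pow_le_pow_left₀ (abs_nonneg t) htR 2
      have ht4 : t ^ 4 ≤ R ^ 4 := by
        have : |t| ^ 4 ≤ R ^ 4 := pow_le_pow_left₀ (abs_nonneg t) htR 4
        have e : |t| ^ 4 = t ^ 4 := by
          rw [show (4 : ℕ) = 2 * 2 by norm_num, pow_mul, pow_mul, sq_abs]
        rwa [e] at this
      have hτ : |√x * t| ≤ 1 := by
        have : (√x * t) ^ 2 ≤ 1 ^ 2 := by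
          rw [mul_pow, Real.sq_sqrt hx.le]
          have := mul_le_mul_of_nonneg_left ht2 hx.le
          linarith
        exact abs_le_of_sq_le_sq this (by norm_num)
      have e4 : 1 / x * (√x * t) ^ 4 = x * t ^ 4 := by
        have : (√x) ^ 4 = x ^ 2 := by
          rw [show (4 : ℕ) = 2 * 2 by norm_num, pow_mul, Real.sq_sqrt hx.le]
        rw [mul_pow, this]; field_simp
      have hz : 3 / 1000 * (1 / x * (√x * t) ^ 4) ≤ 6 / 100 := by
        rw [e4]
        have := mul_le_mul_of_nonneg_left ht4 hx.le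
        linarith
      have hg := pt_gain hs4 hτ hz
      rw [e4] at hg
      have hmem : √x * t ∈ Icc (-(13 / 5) : ℝ) (13 / 5) :=
        abs_le.1 (hτ.trans (by norm_num))
      have hFt : F (√x * t) = ga (√x * t) ^ 2 - gg (√x * t) ^ 2 := by
        simp only [hF]; rw [indicator_of_mem hmem]
      rw [hFt, hH, indicator_of_mem h, ← hga t]
      linarith
    · rw [hH, indicator_of_notMem h, mul_zero, sub_zero]
      exact pt_all (by linarith) _
  have i1 : Integrable fun t => |gg (√x * t)| ^ (1 / x) :=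
    (gg_pow_int (by linarith : 1 ≤ 1 / x)).comp_mul_left' hsx.ne'
  have i2 : Integrable fun t : ℝ => exp (-(mom 1 / 2) * t ^ 2) :=
    integrable_exp_neg_mul_sq (by positivity)
  have i3 : Integrable fun t => yy ^ (1 / x - 2) * F (√x * t) :=
    (hFi.comp_mul_left' hsx.ne').const_mul _
  have i4 : Integrable fun t => 24 / 10000 * x * H t := (JR_int R).const_mul _
  have h := integral_mono i1 ((i2.sub i3).sub i4) hpt
  have s1 := integral_sub (i2.sub i3) i4
  have s2 := integral_sub i2 i3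
  simp only [Pi.sub_apply] at s1 h
  rw [s1, s2, integral_const_mul, integral_const_mul,
    Measure.integral_comp_mul_left F (√x), hFD, abs_of_pos (inv_pos.2 hsx), smul_eq_mul,
    integral_gaussian] at h
  have hV : √(π / (mom 1 / 2)) = VV := by
    rw [VV]; congr 1; field_simp
  rw [hV] at h
  have hp : 0 ≤ yy ^ (1 / x - 2) * ((√x)⁻¹ * DD) := by
    have := yy_pos; have := DD_pos; positivity
  have hJ : ∫ t, H t = JR R := rfl
  rw [hJ] at h
  linarith

lemma JR_lo {R c : ℝ} (hR : 0 ≤ R) :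
    exp (-c) * (2 * ((1 + c) * (R ^ 5 / 5) - 169 / 1000 * (R ^ 7 / 7))) ≤ JR R := by
  have hmu := mom_up
  unfold JR
  rw [integral_indicator measurableSet_Icc, integral_Icc_eq_integral_Ioc,
    ← intervalIntegral.integral_of_le (by linarith)]
  have e : exp (-c) * (2 * ((1 + c) * (R ^ 5 / 5) - 169 / 1000 * (R ^ 7 / 7))) =
      ∫ t in (-R)..R, exp (-c) * ((1 + c) * t ^ 4 - 169 / 1000 * t ^ 6) := by
    rw [intervalIntegral.integral_const_mul, intervalIntegral.integral_sub
      ((by fun_prop : Continuous fun t : ℝ => (1 + c) * t ^ 4).intervalIntegrable _ _)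
      ((by fun_prop : Continuous fun t : ℝ => 169 / 1000 * t ^ 6).intervalIntegrable _ _),
      intervalIntegral.integral_const_mul, intervalIntegral.integral_const_mul, integral_pow,
      integral_pow]
    norm_num
    ring
  rw [e]
  refine intervalIntegral.integral_mono_on (by linarith)
    ((by fun_prop : Continuous fun t : ℝ =>
      exp (-c) * ((1 + c) * t ^ 4 - 169 / 1000 * t ^ 6)).intervalIntegrable _ _)
    ((by fun_prop : Continuous fun t : ℝ =>
      t ^ 4 * exp (-(mom 1 / 2) * t ^ 2)).intervalIntegrable _ _) fun t _ => ?_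
  have h1 : 1 + c - 169 / 1000 * t ^ 2 ≤ exp (c - 169 / 1000 * t ^ 2) := by
    have := Real.add_one_le_exp (c - 169 / 1000 * t ^ 2); linarith
  have h2 : exp (c - 169 / 1000 * t ^ 2) ≤ exp (c + -(mom 1 / 2) * t ^ 2) := by
    apply exp_le_exp.2
    nlinarith [sq_nonneg t]
  have h3 : exp (-c) * exp (c + -(mom 1 / 2) * t ^ 2) = exp (-(mom 1 / 2) * t ^ 2) := by
    rw [← exp_add]; congr 1; ring
  have h4 : exp (-c) * (1 + c - 169 / 1000 * t ^ 2) ≤ exp (-(mom 1 / 2) * t ^ 2) := by
    rw [← h3]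
    exact mul_le_mul_of_nonneg_left (h1.trans h2) (exp_pos _).le
  calc exp (-c) * ((1 + c) * t ^ 4 - 169 / 1000 * t ^ 6) =
      t ^ 4 * (exp (-c) * (1 + c - 169 / 1000 * t ^ 2)) := by ring
    _ ≤ _ := mul_le_mul_of_nonneg_left h4 (by positivity)

lemma JR2 : 7 ≤ JR 2 := by
  have h := JR_lo (R := 2) (c := 45 / 100) (by norm_num)
  have h2 := exp_lo6 (45 / 100) (by norm_num)
  norm_num at h h2
  nlinarith

lemma JR4 : 45 ≤ JR 4 := by
  have h := JR_lo (R := 4) (c := 14 / 10) (by norm_num)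
  have h2 := exp_lo6 (14 / 10) (by norm_num)
  norm_num at h h2
  nlinarith

end

end Agent238.L4
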