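import Pool.Agent.Helper238.L4.P4
import Pool.Agent.Helper238.L4.P2

set_option autoImplicit false

open MeasureTheory Real Set Filter
open scoped Topology

namespace Agent238.L4

noncomputable section

variable {n : ℕ}

lemma region_gain {ι : Type*} [DecidableEq ι] (J : Finset ι) (x : ι → ℝ) (hx : ∀ j ∈ J, 0 < x j)
    (hS : ∑ j ∈ J, x j = 1) (hh : ∀ j ∈ J, x j ≤ 1 / 2) {i : ι} (hi : i ∈ J) {γ : ℝ}
    (hγ : ∫ t, |gg (√(x i) * t)| ^ (1 / x i) ≤ VV - γ) :
    ∫ t, ∏ j ∈ J, |gg (√(x j) * t)| ≤ VV - γ * x i := by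
  have hV := VV_pos
  have h := holder J x hx hS one_pos one_pos (fun j hj => by linarith [hh j hj])
  simp only [rpow_one, one_mul, div_one] at h
  refine h.trans ?_
  rw [← Finset.mul_prod_erase J _ hi]
  have hxi := hx i hi
  have hnn : 0 ≤ ∫ t, |gg (√(x i) * t)| ^ (1 / x i) := integral_nonneg fun t => by positivity
  have hq0 : 0 ≤ VV - γ := hnn.trans hγ
  have h2 : ∏ j ∈ J.erase i, (∫ t, |gg (√(x j) * t)| ^ (1 / x j)) ^ x j ≤ VV ^ (1 - x i) := by
    have h3 : ∏ j ∈ J.erase i, (∫ t, |gg (√(x j) * t)| ^ (1 / x j)) ^ x j ≤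
        ∏ j ∈ J.erase i, VV ^ x j := by
      refine Finset.prod_le_prod (fun j _ => rpow_nonneg (integral_nonneg fun t => by positivity) _)
        fun j hj => ?_
      have hj' := Finset.mem_of_mem_erase hj
      refine rpow_le_rpow (integral_nonneg fun t => by positivity) ?_ (hx j hj').le
      have h4 : 2 ≤ 1 / x j := by rw [le_div_iff₀ (hx j hj')]; linarith [hh j hj']
      have h5 := factor_le (hx j hj') h4
      rwa [div_mul_cancel₀ _ (hx j hj').ne', Real.sqrt_one, div_one] at h5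
    refine h3.trans (le_of_eq ?_)
    rw [← Real.rpow_sum_of_pos hV]
    congr 1
    have := Finset.add_sum_erase J x hi
    linarith
  have hfrac : VV - γ = VV * (1 + -(γ / VV)) := by field_simp; ring
  have hb0 : -1 ≤ -(γ / VV) := by
    rw [neg_le_neg_iff, div_le_one hV]; linarith
  have hb0' : 0 ≤ 1 + -(γ / VV) := by linarith
  calc (∫ t, |gg (√(x i) * t)| ^ (1 / x i)) ^ x i *
        ∏ j ∈ J.erase i, (∫ t, |gg (√(x j) * t)| ^ (1 / x j)) ^ x j
      ≤ (VV * (1 + -(γ / VV))) ^ x i * VV ^ (1 - x i) := by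
        rw [← hfrac]
        refine mul_le_mul (rpow_le_rpow hnn hγ hxi.le) h2
          (Finset.prod_nonneg fun j _ => rpow_nonneg (integral_nonneg fun t => by positivity) _)
          (rpow_nonneg hq0 _)
    _ = VV * (1 + -(γ / VV)) ^ x i := by
        rw [mul_rpow hV.le hb0']
        have : VV ^ x i * VV ^ (1 - x i) = VV := by
          rw [← rpow_add hV]; norm_num
        calc VV ^ x i * (1 + -(γ / VV)) ^ x i * VV ^ (1 - x i) =
            (VV ^ x i * VV ^ (1 - x i)) * (1 + -(γ / VV)) ^ x i := by ring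
          _ = _ := by rw [this]
    _ ≤ VV * (1 + x i * -(γ / VV)) := by
        refine mul_le_mul_of_nonneg_left ?_ hV.le
        exact rpow_one_add_le_one_add_mul_self hb0 hxi.le (by linarith [hh i hi])
    _ = _ := by field_simp; ring

lemma Vreg_gain {a : EuclideanSpace ℝ (Fin n)} (ha : ‖a‖ = 1) (hh : ∀ i, a i ^ 2 ≤ 1 / 2)
    {i : Fin n} (hi0 : 0 < a i ^ 2) {γ : ℝ}
    (hγ : ∫ t, |gg (√(a i ^ 2) * t)| ^ (1 / a i ^ 2) ≤ VV - γ) :
    Vf a ≤ VV - γ * a i ^ 2 := by
  refine (Vf_le_abs ha).trans ?_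
  simp_rw [abs_prod_eq Finset.univ (fun i => a i)]
  refine region_gain _ (fun j => a j ^ 2) (fun j hj => ?_) ?_ (fun j _ => hh j) (i := i) ?_ hγ
  · have := (Finset.mem_filter.1 hj).2
    positivity
  · rw [sum_filter_sq Finset.univ (fun i => a i), sum_sq ha]
  · refine Finset.mem_filter.2 ⟨Finset.mem_univ _, fun h => ?_⟩
    rw [h] at hi0
    norm_num at hi0

lemma VV_lo : 43 / 10 ≤ VV := by
  have hm := mom_pos 1
  have hu := mom_up
  unfold VV
  apply Real.le_sqrt_of_sq_le
  rw [le_div_iff₀ hm]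
  have := Real.pi_gt_d2
  nlinarith

lemma VV_hi : VV ≤ 432 / 100 := by
  have hm := mom_pos 1
  have hl := mom_lo
  unfold VV
  rw [Real.sqrt_le_left (by norm_num), div_le_iff₀ hm]
  have := Real.pi_lt_d2
  nlinarith

lemma DD_lo : 1 / 100 ≤ DD := by
  have hm := mom_pos 1
  have hl := mom_lo
  have hu := mom_up
  have hV := VV_pos
  have hV2 := VV_lo
  unfold DD
  rw [psi2]
  set m := mom 1
  have h1 : ∫ t, ga t ^ 2 = VV / √2 := by
    have := int_ga_pow (s := 2) (by norm_num)
    rw [← this]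
    congr 1; funext t
    rw [show (2 : ℝ) = ((2 : ℕ) : ℝ) by norm_num, rpow_natCast]
  have hat := abs_tail (m := m) (T := 13 / 5) hm (by norm_num)
  have h6 : ∫ t, ga t ^ 2 = (∫ t, (Icc (-(13 / 5) : ℝ) (13 / 5)).indicator (fun t => ga t ^ 2) t) +
      ∫ t, (Ioi (13 / 5 : ℝ)).indicator (fun t => exp (-m * t ^ 2)) |t| := by
    rw [← integral_add ind_int hat.1]
    congr 1; funext t
    by_cases h : |t| ≤ 13 / 5
    · rw [indicator_of_mem (mem_Icc.2 (abs_le.1 h)), indicator_of_notMem (by simpa using h),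
        add_zero]
    · rw [indicator_of_notMem (by rwa [mem_Icc, ← abs_le]),
        indicator_of_mem (by simpa using h), zero_add, ga_sq, sq_abs]
  have h22 : √2 * √2 = 2 := Real.mul_self_sqrt (by norm_num)
  have h2l : 1414 / 1000 ≤ √2 := by
    apply Real.le_sqrt_of_sq_le; norm_num
  have h7 : VV / √2 = VV * √2 / 2 := by
    rw [div_eq_div_iff (by positivity) (by norm_num)]
    nlinarith
  have h8 : exp (-m * (13 / 5) ^ 2) ≤ 105 / 1000 := by
    have e1 : exp (-m * (13 / 5) ^ 2) ≤ exp (-(228 / 100)) := by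
      apply exp_le_exp.2; nlinarith
    have e2 : exp (-(228 / 100) : ℝ) = (exp (228 / 100))⁻¹ := exp_neg _
    have e3 : (96 / 10 : ℝ) ≤ exp (228 / 100) := by
      have e4 : exp (228 / 100 : ℝ) = exp 1 ^ 2 * exp (28 / 100) := by
        rw [← exp_nat_mul, ← exp_add]; norm_num
      have e5 := Real.exp_one_gt_d9
      have e7 : (1 + 28 / 100 + (28 / 100) ^ 2 / 2 : ℝ) ≤ exp (28 / 100) :=
        Real.quadratic_le_exp_of_nonneg (by norm_num)
      rw [e4]
      have e8 : (7389 / 1000 : ℝ) ≤ exp 1 ^ 2 := by nlinarith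
      nlinarith
    refine e1.trans ?_
    rw [e2]
    calc (exp (228 / 100 : ℝ))⁻¹ ≤ (96 / 10 : ℝ)⁻¹ := by gcongr
      _ ≤ _ := by norm_num
  have h9 : exp (-m * (13 / 5) ^ 2) / (m * (13 / 5)) ≤ 12 / 100 := by
    rw [div_le_iff₀ (by positivity)]
    nlinarith
  have h10 := hat.2.trans h9
  rw [h1, h7] at h6
  have h11 : VV * √2 / 2 ≥ VV * (707 / 1000) := by nlinarith
  have h12 : 2 * m * VV ≤ 676 / 1000 * VV := by nlinarith
  linarith

/-- explicit far bound -/
lemma far50 {a : EuclideanSpace ℝ (Fin n)} (ha : ‖a‖ = 1) {i : Fin n} (hi : 1 / 50 ≤ a i ^ 2) :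
    Vf a ≤ VV - 4 / 100000 := by
  have hV := VV_lo
  by_cases h : ∀ k, a k ^ 2 ≤ 1 / 2
  · have hx0 : 0 < a i ^ 2 := by linarith
    rcases le_total (1 / 4) (a i ^ 2) with h4 | h4
    · -- large square
      have hγ : ∫ t, |gg (√(a i ^ 2) * t)| ^ (1 / a i ^ 2) ≤ VV - 9 / 10000 := by
        have h2 : 2 ≤ 1 / a i ^ 2 := by rw [le_div_iff₀ hx0]; linarith [h i]
        have h3 := factor_strict hx0 h2
        rw [div_mul_cancel₀ _ hx0.ne', Real.sqrt_one, div_one] at h3
        have h5 : yy ^ ((4 : ℝ) - 2) ≤ yy ^ (1 / a i ^ 2 - 2) := by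
          apply yy_rpow_le
          rw [div_le_iff₀ hx0]; linarith
        have h6 : yy ^ ((4 : ℝ) - 2) = yy ^ 2 := by
          rw [show (4 : ℝ) - 2 = ((2 : ℕ) : ℝ) by norm_num, rpow_natCast]
        have h7 : 9 / 100 ≤ yy ^ 2 := by
          have := yy_lo; nlinarith
        have h8 := DD_lo
        have h9 : 9 / 10000 ≤ yy ^ (1 / a i ^ 2 - 2) * DD := by
          rw [h6] at h5
          have : 9 / 100 * (1 / 100) ≤ yy ^ (1 / a i ^ 2 - 2) * DD :=
            mul_le_mul (h7.trans h5) h8 (by norm_num) (by have := yy_pos; positivity)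
          linarith
        have h10 : yy ^ (1 / a i ^ 2 - 2) * DD ≤ yy ^ (1 / a i ^ 2 - 2) * DD / √(a i ^ 2) := by
          rw [le_div_iff₀ (Real.sqrt_pos.2 hx0)]
          have h6' : √(a i ^ 2) ≤ 1 := Real.sqrt_le_one.2 (by linarith [h i])
          exact mul_le_of_le_one_right (by linarith) h6'
        linarith
      have := Vreg_gain ha h hx0 hγ
      nlinarith
    · rcases le_total (1 / 16) (a i ^ 2) with h16 | h16
      · have hγ := factor_gain (R := 2) hx0 h4 (by linarith) (by linarith)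
        have h7 := JR2
        have hγ' : ∫ t, |gg (√(a i ^ 2) * t)| ^ (1 / a i ^ 2) ≤ VV - 168 / 10000 * a i ^ 2 := by
          refine hγ.trans ?_
          nlinarith
        have := Vreg_gain ha h hx0 hγ'
        nlinarith
      · have hγ := factor_gain (R := 4) hx0 h4 (by linarith) (by linarith)
        have h7 := JR4
        have hγ' : ∫ t, |gg (√(a i ^ 2) * t)| ^ (1 / a i ^ 2) ≤ VV - 108 / 1000 * a i ^ 2 := by
          refine hγ.trans ?_
          nlinarith
        have := Vreg_gain ha h hx0 hγ'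
        nlinarith
  · push Not at h
    obtain ⟨k, hk⟩ := h
    rcases le_total (a k ^ 2) (6464 / 10000) with h2 | h2
    · have h3 := VregB ha hk.le h2
      have h4 : √(6760 / 6761) ≤ 1 - 1 / 20000 := by
        rw [Real.sqrt_le_left (by norm_num)]; norm_num
      nlinarith
    · have h3 := VregC ha h2
      have h4 : √(9999 / 10000) ≤ 1 - 1 / 20000 := by
        rw [Real.sqrt_le_left (by norm_num)]; norm_num
      nlinarith

end

end Agent238.L4
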