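import Pool.Agent.Helper238.L4.P5

set_option autoImplicit false

open MeasureTheory Real Set Filter
open scoped Topology

namespace Agent238.L4

noncomputable section

variable {n : ℕ}

/-- lower bound for `gg` near the origin -/
lemma gg_lo_ga {v : ℝ} (hv : v ^ 2 ≤ 1) : ga v * (1 - 53 / 10000 * v ^ 4) ≤ gg v := by
  have hw0 : 0 ≤ v ^ 2 := sq_nonneg v
  have hm := mom_pos 1
  have hmu := mom_up
  have hml := mom_lo
  have h1 := gg_lo3 v
  have e4 : v ^ 4 = (v ^ 2) ^ 2 := by ring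
  have e6 : v ^ 6 = (v ^ 2) ^ 3 := by ring
  have h3 := exp_up2 (z := mom 1 / 2 * v ^ 2) (by positivity)
  have h3' : ga v ≤ 1 - mom 1 / 2 * v ^ 2 + (mom 1 / 2 * v ^ 2) ^ 2 / 2 := h3
  have h4 : 0 ≤ 1 - 53 / 10000 * v ^ 4 := by rw [e4]; nlinarith
  refine (mul_le_mul_of_nonneg_right h3' h4).trans (le_trans ?_ h1)
  rw [e4, e6]
  set w := v ^ 2
  set m := mom 1
  have c1 : m ^ 2 ≤ (338 / 1000) ^ 2 := by gcongr
  have key : 0 ≤ w ^ 2 * (53 / 10000 * (1 - m / 2 * w + (m / 2 * w) ^ 2 / 2) -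
      (m ^ 2 / 8 - 1 / 96 + m / 960 * w)) := by
    refine mul_nonneg (by positivity) ?_
    have c2 : m / 2 * w ≤ 169 / 1000 * w := mul_le_mul_of_nonneg_right (by linarith) hw0
    have c3 : m / 960 * w ≤ 338 / 960000 * w := mul_le_mul_of_nonneg_right (by linarith) hw0
    have c4 : 0 ≤ (m / 2 * w) ^ 2 / 2 := by positivity
    norm_num at c1
    nlinarith
  nlinarith [key]

lemma fourth_moment : ∫ t, t ^ 4 * exp (-(mom 1 / 2) * t ^ 2) ≤ 1136 / 10 := by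
  have hm := mom_pos 1
  have hl := mom_lo
  have hV := VV_hi
  set b := mom 1 / 2 with hb
  have hb0 : 0 < b := by positivity
  have h := integral_comp_abs (f := fun t => t ^ 4 * exp (-b * t ^ 2))
  have e0 : ∀ t : ℝ, |t| ^ 4 * exp (-b * |t| ^ 2) = t ^ 4 * exp (-b * t ^ 2) := by
    intro t
    rw [show (4 : ℕ) = 2 * 2 by norm_num, pow_mul, sq_abs, ← pow_mul]
  simp_rw [e0] at h
  rw [h]
  have h2 := integral_rpow_mul_exp_neg_mul_rpow (p := 2) (q := 4) (b := b) (by norm_num)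
    (by norm_num) hb0
  have e1 : ∫ t in Ioi (0 : ℝ), t ^ 4 * exp (-b * t ^ 2) =
      ∫ t in Ioi (0 : ℝ), t ^ (4 : ℝ) * exp (-b * t ^ (2 : ℝ)) := by
    refine setIntegral_congr_fun measurableSet_Ioi fun t _ => ?_
    rw [show (4 : ℝ) = ((4 : ℕ) : ℝ) by norm_num, show (2 : ℝ) = ((2 : ℕ) : ℝ) by norm_num,
      rpow_natCast, rpow_natCast]
  rw [e1, h2]
  have hG : Gamma (((4 : ℝ) + 1) / 2) = 3 / 4 * √π := by
    have g1 : Gamma (1 / 2 + 1 + 1 : ℝ) = (1 / 2 + 1) * Gamma (1 / 2 + 1) :=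
      Real.Gamma_add_one (by norm_num)
    have g2 : Gamma (1 / 2 + 1 : ℝ) = 1 / 2 * Gamma (1 / 2) := Real.Gamma_add_one (by norm_num)
    rw [show ((4 : ℝ) + 1) / 2 = 1 / 2 + 1 + 1 by norm_num, g1, g2, Real.Gamma_one_half_eq]
    ring
  rw [hG]
  have e2 : b ^ (-((4 : ℝ) + 1) / 2) = (b ^ 2)⁻¹ * (√b)⁻¹ := by
    rw [show (-((4 : ℝ) + 1) / 2) = -((2 : ℕ) : ℝ) + -(1 / 2) by norm_num, rpow_add hb0,
      rpow_neg hb0.le, rpow_neg hb0.le, rpow_natCast, ← Real.sqrt_eq_rpow]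
  rw [e2]
  have hVV : √π * (√b)⁻¹ = VV := by
    rw [VV, ← div_eq_mul_inv, ← Real.sqrt_div pi_pos.le]
    congr 1
    rw [hb]; field_simp
  have e3 : 2 * ((b ^ 2)⁻¹ * (√b)⁻¹ * (1 / 2) * (3 / 4 * √π)) = 3 / 4 * (b ^ 2)⁻¹ * VV := by
    rw [← hVV]; ring
  rw [e3]
  have h5 : (3379 / 20000) ^ 2 ≤ b ^ 2 := by
    have : 3379 / 20000 ≤ b := by rw [hb]; linarith
    gcongr
  have h6 : (b ^ 2)⁻¹ ≤ ((3379 / 20000) ^ 2)⁻¹ := inv_anti₀ (by norm_num) h5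
  have h7 : 0 < (b ^ 2)⁻¹ := by positivity
  calc 3 / 4 * (b ^ 2)⁻¹ * VV ≤ 3 / 4 * ((3379 / 20000) ^ 2)⁻¹ * (432 / 100) := by
        have := VV_pos; gcongr
    _ ≤ 1136 / 10 := by norm_num

lemma fm_int : Integrable fun t : ℝ => t ^ 4 * exp (-(mom 1 / 2) * t ^ 2) := by
  have hm := mom_pos 1
  have h := integrable_rpow_mul_exp_neg_mul_sq (b := mom 1 / 2) (by positivity) (s := 4)
    (by norm_num)
  refine h.congr (Eventually.of_forall fun t => ?_)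
  simp only
  rw [show (4 : ℝ) = ((4 : ℕ) : ℝ) by norm_num, rpow_natCast]

/-- polynomial lower bound for a geometric sequence -/
lemma geo_lo {n : ℕ} (hn : 5 ≤ n) : ((n : ℝ) / 40) ^ 4 ≤ (11 / 10 : ℝ) ^ (n - 1) := by
  have hn' : (5 : ℝ) ≤ n := by exact_mod_cast hn
  have h1 := one_add_mul_self_le_rpow_one_add (s := (1 / 10 : ℝ)) (by norm_num)
    (p := ((n : ℝ) - 1) / 4) (by linarith)
  have h2 : (n : ℝ) / 40 ≤ (1 + 1 / 10 : ℝ) ^ (((n : ℝ) - 1) / 4) := by linarith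
  have h3 : ((n : ℝ) / 40) ^ 4 ≤ ((1 + 1 / 10 : ℝ) ^ (((n : ℝ) - 1) / 4)) ^ 4 :=
    pow_le_pow_left₀ (by positivity) h2 4
  refine h3.trans (le_of_eq ?_)
  rw [← rpow_natCast ((1 + 1 / 10 : ℝ) ^ (((n : ℝ) - 1) / 4)) 4, ← rpow_mul (by norm_num),
    ← rpow_natCast (11 / 10 : ℝ) (n - 1), Nat.cast_sub (by omega)]
  norm_num

/-- pointwise lower bound for the diagonal integrand -/
lemma dg_pt {n : ℕ} (hn : 5 ≤ n) (t : ℝ) :
    exp (-(mom 1 / 2) * t ^ 2) - 53 / 10000 / n * (t ^ 4 * exp (-(mom 1 / 2) * t ^ 2)) -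
      2 * (40 / (n : ℝ)) ^ 4 * (1 + ((√(10 * n))⁻¹ * t) ^ 2)⁻¹ ≤ gg ((√(n : ℝ))⁻¹ * t) ^ n := by
  have hn' : (5 : ℝ) ≤ n := by exact_mod_cast hn
  have hn0 : (0 : ℝ) < n := by linarith
  have hm := mom_pos 1
  have hml := mom_lo
  set v := (√(n : ℝ))⁻¹ * t with hv
  have hv2 : v ^ 2 = t ^ 2 / n := by
    rw [hv, mul_pow, inv_pow, Real.sq_sqrt hn0.le]; field_simp
  have hgan : ga v ^ n = exp (-(mom 1 / 2) * t ^ 2) := by
    unfold ga
    rw [← exp_nat_mul, hv2]; congr 1; field_simp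
  have e10 : ((√(10 * n))⁻¹ * t) ^ 2 = v ^ 2 / 10 := by
    rw [mul_pow, inv_pow, Real.sq_sqrt (by positivity), hv2]; field_simp
  rw [e10]
  have hpos : 0 < 1 + v ^ 2 / 10 := by positivity
  have hτ : 0 ≤ 2 * (40 / (n : ℝ)) ^ 4 * (1 + v ^ 2 / 10)⁻¹ := by positivity
  have h4nn : 0 ≤ 53 / 10000 / n * (t ^ 4 * exp (-(mom 1 / 2) * t ^ 2)) := by positivity
  rcases le_total (v ^ 2) 1 with h | h
  · have h1 := gg_lo_ga h
    have h2 : 0 ≤ 1 - 53 / 10000 * v ^ 4 := by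
      have : v ^ 4 = (v ^ 2) ^ 2 := by ring
      rw [this]; nlinarith [sq_nonneg v]
    have h3 : (ga v * (1 - 53 / 10000 * v ^ 4)) ^ n ≤ gg v ^ n :=
      pow_le_pow_left₀ (mul_nonneg (ga_pos v).le h2) h1 n
    have h4 : 1 + (n : ℝ) * (-(53 / 10000 * v ^ 4)) ≤ (1 + -(53 / 10000 * v ^ 4)) ^ n :=
      one_add_mul_le_pow (by linarith) n
    have h5 : (n : ℝ) * (53 / 10000 * v ^ 4) = 53 / 10000 / n * t ^ 4 := by
      have : v ^ 4 = (v ^ 2) ^ 2 := by ring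
      rw [this, hv2]; field_simp
    have h6 : (ga v * (1 - 53 / 10000 * v ^ 4)) ^ n =
        exp (-(mom 1 / 2) * t ^ 2) * (1 + -(53 / 10000 * v ^ 4)) ^ n := by
      rw [mul_pow, hgan]; congr 1
    have h7 : exp (-(mom 1 / 2) * t ^ 2) * (1 + (n : ℝ) * (-(53 / 10000 * v ^ 4))) ≤
        exp (-(mom 1 / 2) * t ^ 2) * (1 + -(53 / 10000 * v ^ 4)) ^ n :=
      mul_le_mul_of_nonneg_left h4 (exp_pos _).le
    have h8 : exp (-(mom 1 / 2) * t ^ 2) * (1 + (n : ℝ) * (-(53 / 10000 * v ^ 4))) =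
        exp (-(mom 1 / 2) * t ^ 2) - 53 / 10000 / n * (t ^ 4 * exp (-(mom 1 / 2) * t ^ 2)) := by
      rw [mul_neg, h5]; ring
    linarith
  · have hinv : 0 < (1 + v ^ 2 / 10)⁻¹ := by positivity
    have hnn1 : n = (n - 1) + 1 := by omega
    have hsmall : ((1 + v ^ 2 / 10)⁻¹) ^ n ≤ (40 / (n : ℝ)) ^ 4 * (1 + v ^ 2 / 10)⁻¹ := by
      have h1 : ((1 + v ^ 2 / 10)⁻¹) ^ n = ((1 + v ^ 2 / 10)⁻¹) ^ (n - 1) * (1 + v ^ 2 / 10)⁻¹ := by
        conv_lhs => rw [hnn1]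
        rw [pow_succ]
      rw [h1]
      refine mul_le_mul_of_nonneg_right ?_ hinv.le
      have h2 : (1 + v ^ 2 / 10)⁻¹ ≤ (11 / 10 : ℝ)⁻¹ := inv_anti₀ (by norm_num) (by linarith)
      have h3 : ((1 + v ^ 2 / 10)⁻¹) ^ (n - 1) ≤ ((11 / 10 : ℝ)⁻¹) ^ (n - 1) :=
        pow_le_pow_left₀ hinv.le h2 _
      have h4 := geo_lo hn
      have h5 : ((11 / 10 : ℝ) ^ (n - 1))⁻¹ ≤ (((n : ℝ) / 40) ^ 4)⁻¹ :=
        inv_anti₀ (by positivity) h4
      have h6 : (((n : ℝ) / 40) ^ 4)⁻¹ = (40 / (n : ℝ)) ^ 4 := by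
        rw [← inv_pow, inv_div]
      rw [inv_pow (11 / 10 : ℝ)] at h3
      rw [← h6]
      exact h3.trans h5
    have ha1 : |gg v ^ n| ≤ ((1 + v ^ 2 / 10)⁻¹) ^ n := by
      rw [abs_pow]
      exact pow_le_pow_left₀ (abs_nonneg _) (envelope v) n
    have ha2 : exp (-(mom 1 / 2) * t ^ 2) ≤ ((1 + v ^ 2 / 10)⁻¹) ^ n := by
      rw [← hgan]
      refine pow_le_pow_left₀ (ga_pos v).le ?_ n
      unfold ga
      rw [exp_neg]
      refine inv_anti₀ hpos ?_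
      have := Real.add_one_le_exp (mom 1 / 2 * v ^ 2)
      nlinarith
    have ha3 := (abs_le.1 ha1).1
    linarith

/-- explicit lower bound for the diagonal -/
lemma dg_lo {n : ℕ} (hn : 20000 ≤ n) : VV - 4 / 100000 < Vf (dg n) := by
  have hn' : (20000 : ℝ) ≤ n := by exact_mod_cast hn
  have hn0 : (0 : ℝ) < n := by linarith
  have hm := mom_pos 1
  have hs : 0 < √(10 * (n : ℝ)) := Real.sqrt_pos.2 (by positivity)
  have i1 : Integrable fun t : ℝ => exp (-(mom 1 / 2) * t ^ 2) :=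
    integrable_exp_neg_mul_sq (by positivity)
  have i2 : Integrable fun t : ℝ => 53 / 10000 / n * (t ^ 4 * exp (-(mom 1 / 2) * t ^ 2)) :=
    fm_int.const_mul _
  have i3 : Integrable fun t : ℝ => 2 * (40 / (n : ℝ)) ^ 4 * (1 + ((√(10 * n))⁻¹ * t) ^ 2)⁻¹ :=
    (integrable_inv_one_add_sq.comp_mul_left' (inv_pos.2 hs).ne').const_mul _
  have i4 : Integrable fun t => gg ((√(n : ℝ))⁻¹ * t) ^ n := by
    have := prod_int (dg_norm (n := n) (by omega))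
    simpa only [dg_apply, Finset.prod_const, Finset.card_univ, Fintype.card_fin] using this
  have h := integral_mono ((i1.sub i2).sub i3) i4 fun t => dg_pt (by omega) t
  have s1 := integral_sub (i1.sub i2) i3
  have s2 := integral_sub i1 i2
  simp only [Pi.sub_apply] at s1 h
  rw [s1, s2, integral_const_mul, integral_const_mul,
    Measure.integral_comp_mul_left (fun t => (1 + t ^ 2)⁻¹) (√(10 * n))⁻¹, inv_inv,
    abs_of_pos hs, smul_eq_mul, integral_univ_inv_one_add_sq, integral_gaussian, ← Vf_dg] at h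
  have hV : √(π / (mom 1 / 2)) = VV := by
    rw [VV]; congr 1; field_simp
  rw [hV] at h
  have h4 := fourth_moment
  have h5 : 53 / 10000 / (n : ℝ) * ∫ t, t ^ 4 * exp (-(mom 1 / 2) * t ^ 2) ≤ 31 / 1000000 := by
    calc 53 / 10000 / (n : ℝ) * ∫ t, t ^ 4 * exp (-(mom 1 / 2) * t ^ 2) ≤
        53 / 10000 / (n : ℝ) * (1136 / 10) := mul_le_mul_of_nonneg_left h4 (by positivity)
      _ ≤ 53 / 10000 / 20000 * (1136 / 10) := by gcongr
      _ ≤ _ := by norm_num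
  have h6 : √(10 * (n : ℝ)) ≤ n / 40 := by
    rw [Real.sqrt_le_left (by positivity), div_pow, le_div_iff₀ (by norm_num)]
    nlinarith
  have h7 : 2 * (40 / (n : ℝ)) ^ 4 * (√(10 * n) * π) ≤ 1 / 1000000 := by
    have h8 : (40 / (n : ℝ)) ≤ 40 / 20000 := by gcongr
    have h9 : 0 < 40 / (n : ℝ) := by positivity
    have hp := Real.pi_lt_d2
    have h10 : √(10 * (n : ℝ)) * π ≤ n / 40 * (315 / 100) :=
      mul_le_mul h6 (by linarith) pi_pos.le (by positivity)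
    have e1 : (40 / (n : ℝ)) ^ 4 * (n / 40) = (40 / (n : ℝ)) ^ 3 := by field_simp
    calc 2 * (40 / (n : ℝ)) ^ 4 * (√(10 * n) * π) ≤
        2 * (40 / (n : ℝ)) ^ 4 * (n / 40 * (315 / 100)) :=
          mul_le_mul_of_nonneg_left h10 (by positivity)
      _ = 2 * (315 / 100) * ((40 / (n : ℝ)) ^ 4 * (n / 40)) := by ring
      _ = 2 * (315 / 100) * (40 / (n : ℝ)) ^ 3 := by rw [e1]
      _ ≤ 2 * (315 / 100) * (40 / 20000) ^ 3 := by gcongr
      _ ≤ 1 / 1000000 := by norm_num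
  linarith

end

end Agent238.L4
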