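import Pool.Agent.Helper238.L4.P6

set_option autoImplicit false

open MeasureTheory Real Set Filter
open scoped Topology

namespace Agent238.L4

noncomputable section

variable {n : ℕ}

lemma rigid50 {a : EuclideanSpace ℝ (Fin n)} (ha : ‖a‖ = 1) (h1 : VV - 4 / 100000 < Vf a)
    (h2 : ∀ b : EuclideanSpace ℝ (Fin n), ‖b‖ = 1 → Vf b ≤ Vf a) (i : Fin n) :
    |a i| = (√(n : ℝ))⁻¹ := by
  have hs : ∀ k, a k ^ 2 ≤ 1 / 50 := by
    intro k
    by_contra hk
    push Not at hk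
    exact absurd (far50 ha hk.le) (not_le.2 h1)
  have he : ∀ k, a k ^ 2 = a i ^ 2 := by
    intro k
    by_contra hk
    have hki : k ≠ i := fun h => hk (by rw [h])
    exact absurd (h2 _ (eqv_norm ha hki)) (not_le.2 (near50 ha hs hki hk))
  have h3 := sum_sq ha
  simp_rw [he] at h3
  rw [Finset.sum_const, Finset.card_univ, Fintype.card_fin, nsmul_eq_mul] at h3
  have hn : (0 : ℝ) < n := by
    have := i.pos
    exact_mod_cast this
  have h4 : a i ^ 2 = (n : ℝ)⁻¹ := by field_simp; linarith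
  rw [← Real.sqrt_sq_eq_abs, h4, Real.sqrt_inv]

/-- the explicit analytic core -/
theorem core_explicit : ∀ n : ℕ, 20000 ≤ n → ∀ a : EuclideanSpace ℝ (Fin n), ‖a‖ = 1 →
    Vf a ≤ Vf (dg n) ∧ (Vf a = Vf (dg n) ↔ ∀ i, |a i| = (√(n : ℝ))⁻¹) := by
  intro n hn a ha
  have hn1 : 1 ≤ n := by omega
  have hCM := dg_lo hn
  have hd := dg_norm hn1
  obtain ⟨b, hb, hmax⟩ := (isCompact_sphere (0 : EuclideanSpace ℝ (Fin n)) 1).exists_isMaxOn
    ⟨dg n, by simpa using hd⟩ (Vf_cont (n := n))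
  have hb1 : ‖b‖ = 1 := by simpa using hb
  have hmax' : ∀ c : EuclideanSpace ℝ (Fin n), ‖c‖ = 1 → Vf c ≤ Vf b := fun c hc =>
    hmax (show c ∈ Metric.sphere (0 : EuclideanSpace ℝ (Fin n)) 1 by simpa using hc)
  have hbC : VV - 4 / 100000 < Vf b := hCM.trans_le (hmax' _ hd)
  have hbd : Vf b = Vf (dg n) := Vf_const (rigid50 hb1 hbC hmax')
  refine ⟨hbd ▸ hmax' a ha, ⟨fun h => ?_, fun h => Vf_const h⟩⟩
  refine rigid50 ha (h ▸ hCM) fun c hc => ?_
  rw [h, ← hbd]; exact hmax' c hc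

end

end Agent238.L4
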